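import Pool.Agent.MP_57c94c_al.H65.Sep

/-!
# A module algebra generated by a central idempotent is finite-dimensional
-/

namespace Pool.Agent.MP_57c94c_al.H65

open Coalgebra HopfAlgebra

variable {k H B : Type*} [Field k] [Ring H] [HopfAlgebra k H] [Ring B] [Algebra k B]
  {ρ : H →ₐ[k] Module.End k B}

lemma finite_quot_sq {R : Type*} [CommRing R] [Algebra k R] [Algebra.FiniteType k R]
    (m : Ideal R) (hm : m.IsMaximal) : Module.Finite k (R ⧸ m ^ 2) := by
  rw [Module.finite_iff_krullDimLE_zero, Ring.krullDimLE_zero_iff]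
  intro P hP
  have h1 : m ^ 2 ≤ P.comap (Ideal.Quotient.mk (m ^ 2)) := by
    intro x hx
    rw [Ideal.mem_comap, Ideal.Quotient.eq_zero_iff_mem.2 hx]
    exact zero_mem _
  have h2 : m ≤ P.comap (Ideal.Quotient.mk (m ^ 2)) := Ideal.IsPrime.le_of_pow_le h1
  have h3 : m = P.comap (Ideal.Quotient.mk (m ^ 2)) :=
    hm.eq_of_le (Ideal.comap_isPrime _ _).ne_top h2
  have h4 : (P.comap (Ideal.Quotient.mk (m ^ 2))).IsMaximal := h3 ▸ hm
  exact Ideal.isMaximal_of_isIntegral_of_isMaximal_comap' _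
    (RingHom.isIntegral_of_surjective _ Ideal.Quotient.mk_surjective) P h4

lemma finite_of_base' [CharZero k] (hS : ∀ h : H, antipode k (antipode k h) = h) (hρ : IsMA ρ)
    {Λ : H} (hΛ : ∀ h, h * Λ = counit (R := k) h • Λ) (hΛ1 : counit (R := k) Λ = 1)
    {t : B} (ht : t * t = t) (htc : ∀ a, t * a = a * t)
    (hgen : ∀ S : Subalgebra k B, (∀ h, ρ h t ∈ S) → S = ⊤)
    {R : Type*} [CommRing R] [Algebra k R] [Algebra.FiniteType k R] [Algebra R B]
    (ι : R →ₐ[k] B) (hsm : ∀ (r : R) (x : B), r • x = ι r * x)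
    (hinj : Function.Injective ι) (hinv : ∀ r h, ρ h (ι r) = counit (R := k) h • ι r)
    {l : ℕ} (b : Fin l → B)
    (hspan : ∀ x, ∃ r : Fin l → R, ∑ j, ι (r j) * b j = x) : FiniteDimensional k B := by
  have : Module.Finite R B := Module.Finite.of_surjective (Fintype.linearCombination R b) fun x => by
    obtain ⟨r, hr⟩ := hspan x
    exact ⟨r, by simpa [Fintype.linearCombination_apply, hsm] using hr⟩
  have : IsNoetherianRing R := Algebra.FiniteType.isNoetherianRing k R
  let q : (Fin l → R) →ₗ[k] B :=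
    ∑ j, LinearMap.mulRight k (b j) ∘ₗ ι.toLinearMap ∘ₗ LinearMap.proj j
  have hq : ∀ r, q r = ∑ j, ι (r j) * b j := fun r => by simp [q]
  have hqs : Function.Surjective q := fun x => by
    obtain ⟨r, hr⟩ := hspan x
    exact ⟨r, by rw [hq, hr]⟩
  suffices Module.Finite k R from Module.Finite.of_surjective q hqs
  rw [Module.finite_iff_krullDimLE_zero, Ring.krullDimLE_zero_iff]
  intro P hP
  obtain ⟨m, hm, hPm⟩ := Ideal.exists_le_maximal P hP.ne_top
  let N : Submodule R B := (m ^ 2) • ⊤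
  have hNl : ∀ c, ∀ x ∈ N, c * x ∈ N := by
    intro c x hx
    refine Submodule.smul_induction_on hx (fun r hr y _ => ?_) (fun u v hu hv => ?_)
    · rw [mul_smul_comm]; exact Submodule.smul_mem_smul hr Submodule.mem_top
    · rw [mul_add]; exact add_mem hu hv
  let I : Ideal B :=
    { carrier := N
      add_mem' := fun ha hb => N.add_mem ha hb
      zero_mem' := N.zero_mem
      smul_mem' := fun c x hx => hNl c x hx }
  have hNr : ∀ c, ∀ x ∈ N, x * c ∈ N := by
    intro c x hx
    refine Submodule.smul_induction_on hx (fun r hr y _ => ?_) (fun u v hu hv => ?_)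
    · rw [smul_mul_assoc]; exact Submodule.smul_mem_smul hr Submodule.mem_top
    · rw [add_mul]; exact add_mem hu hv
  have hI2 : I.IsTwoSided := ⟨fun {x} c hx => hNr c x hx⟩
  let π : B →ₐ[k] B ⧸ I := Ideal.Quotient.mkₐ k I
  have hπ : Function.Surjective π := Ideal.Quotient.mkₐ_surjective k I
  have hπ0 : ∀ a, π a = 0 ↔ a ∈ N := fun a => Ideal.Quotient.eq_zero_iff_mem
  obtain ⟨ρ', hρ', heq⟩ := exists_act_of_surj hρ π hπ fun h a ha => by
    rw [hπ0] at ha ⊢
    refine Submodule.smul_induction_on (p := fun x => ρ h x ∈ N) ha (fun r hr y _ => ?_)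
      (fun u v hu hv => ?_)
    · rw [hsm, hρ.inv_mul (hinv r), ← hsm]; exact Submodule.smul_mem_smul hr Submodule.mem_top
    · rw [map_add]; exact add_mem hu hv
  have := finite_quot_sq (k := k) m hm
  have : FiniteDimensional k (B ⧸ I) := by
    let p : (Fin l → R) →ₗ[k] (Fin l → R ⧸ m ^ 2) :=
      LinearMap.pi fun j => (Ideal.Quotient.mkₐ k (m ^ 2)).toLinearMap ∘ₗ LinearMap.proj j
    obtain ⟨ψ, hψ⟩ := exists_factor p (π.toLinearMap ∘ₗ q) (fun y => by
      choose r hr using fun j => Ideal.Quotient.mk_surjective (y j)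
      exact ⟨r, funext hr⟩) (fun r hr => by
      change π (q r) = 0
      rw [hπ0, hq]
      refine Submodule.sum_mem _ fun j _ => ?_
      rw [← hsm]
      exact Submodule.smul_mem_smul (Ideal.Quotient.eq_zero_iff_mem.1 (congrFun hr j))
        Submodule.mem_top)
    refine Module.Finite.of_surjective ψ fun y => ?_
    obtain ⟨y, rfl⟩ := hπ y
    obtain ⟨r, rfl⟩ := hqs y
    exact ⟨p r, hψ r⟩
  have hnd := nondeg_of_gen hS hρ' hΛ hΛ1 (t := π t) (by rw [← map_mul, ht])
    (fun a => by obtain ⟨a, rfl⟩ := hπ a; rw [← map_mul, htc, map_mul]) (fun S hSt => by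
      have := hgen (S.comap π) fun h => by
        change π (ρ h t) ∈ S
        rw [← heq]; exact hSt h
      rw [eq_top_iff]
      rintro a -
      obtain ⟨a, rfl⟩ := hπ a
      exact (this ▸ Algebra.mem_top : a ∈ S.comap π))
  have hle : (m • ⊤ : Submodule R B) ≤ m • (m • ⊤ : Submodule R B) := by
    rw [← Submodule.mul_smul, ← pow_two]
    refine Submodule.smul_le.2 fun r hr x _ => (hπ0 _).1 (hnd _ fun y => tau_nil ⟨2, ?_⟩)
    obtain ⟨y, rfl⟩ := hπ y
    rw [← map_mul, ← map_pow, hπ0, smul_mul_assoc, smul_pow]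
    exact Submodule.smul_mem_smul (Ideal.pow_mem_pow hr 2) Submodule.mem_top
  obtain ⟨r, hr1, hr⟩ := Submodule.exists_sub_one_mem_and_smul_eq_zero_of_fg_of_le_smul m _
    (IsNoetherian.noetherian _) hle
  have hmP : m ≤ P := by
    intro a ha
    have h1 := hr (a • 1) (Submodule.smul_mem_smul ha Submodule.mem_top)
    rw [hsm, hsm, mul_one, ← map_mul, ← map_zero ι] at h1
    have h2 : r * a ∈ P := by rw [hinj h1]; exact zero_mem _
    refine (hP.mem_or_mem h2).resolve_left fun h3 => hm.ne_top ?_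
    rw [Ideal.eq_top_iff_one]
    simpa using sub_mem (hPm h3) hr1
  rw [le_antisymm hPm hmP]
  exact hm

lemma finite_of_base [CharZero k] (hS : ∀ h : H, antipode k (antipode k h) = h) (hρ : IsMA ρ)
    {Λ : H} (hΛ : ∀ h, h * Λ = counit (R := k) h • Λ) (hΛ1 : counit (R := k) Λ = 1)
    {t : B} (ht : t * t = t) (htc : ∀ a, t * a = a * t)
    (hgen : ∀ S : Subalgebra k B, (∀ h, ρ h t ∈ S) → S = ⊤)
    {R : Type*} [CommRing R] [Algebra k R] [Algebra.FiniteType k R] (ι : R →ₐ[k] B)
    (hinj : Function.Injective ι) (hinv : ∀ r h, ρ h (ι r) = counit (R := k) h • ι r)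
    (hcent : ∀ r b, ι r * b = b * ι r) {l : ℕ} (b : Fin l → B)
    (hspan : ∀ x, ∃ r : Fin l → R, ∑ j, ι (r j) * b j = x) : FiniteDimensional k B :=
  letI : Algebra R B := ι.toRingHom.toAlgebra' hcent
  finite_of_base' hS hρ hΛ hΛ1 ht htc hgen ι (fun _ _ => rfl) hinj hinv b hspan

lemma filt_of_central [FiniteDimensional k H] (hρ : IsMA ρ) {t : B} (htc : ∀ a, t * a = a * t) :
    Filt ρ (fun n => (1 ⊔ orb ρ t) ^ n) := by
  set V : Submodule k B := 1 ⊔ orb ρ t with hV
  have hVm : ∀ y ∈ V, ∃ c : k, ∃ h, y = c • 1 + ρ h t := by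
    intro y hy
    obtain ⟨a, ha, _, ⟨h, rfl⟩, rfl⟩ := Submodule.mem_sup.1 hy
    obtain ⟨c, rfl⟩ := Submodule.mem_one.1 ha
    exact ⟨c, h, by rw [Algebra.algebraMap_eq_smul_one]; rfl⟩
  have h1V : (1 : B) ∈ V := Submodule.mem_sup_left (Submodule.one_le.1 le_rfl)
  have htV : ∀ h, ρ h t ∈ V := fun h => Submodule.mem_sup_right ⟨h, rfl⟩
  have hsum : ∀ P : (B → B) → Prop, P 0 → (∀ f g, P f → P g → P (f + g)) →
      ∀ (s : Finset (H × H)) (f : H × H → B → B), (∀ i ∈ s, P (f i)) → P (∑ i ∈ s, f i) :=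
    fun P h0 hadd s f hf => Finset.sum_induction f P hadd h0 hf
  have hbc1 : ∀ y ∈ V, ∀ P : (B → B) → Prop, P 0 → (∀ f g, P f → P g → P (f + g)) →
      (∀ h, ∀ z ∈ V, P (fun x => ρ h x * z)) → P (fun x => y * x) := by
    intro y hy P h0 hadd hgen
    obtain ⟨c, h, rfl⟩ := hVm y hy
    have : (fun x => (c • 1 + ρ h t) * x) = (fun x => ρ 1 x * (c • 1)) +
        ∑ p ∈ cp k h, ∑ q ∈ cp k p.1, fun x => ρ (q.1 * antipode k p.2) x * ρ q.2 t := by
      funext x
      rw [add_mul, hρ.c2]
      simp only [htc, hρ.mul]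
      simp [Finset.sum_apply]
    rw [this]
    exact hadd _ _ (hgen _ _ (V.smul_mem c h1V))
      (hsum P h0 hadd _ _ fun p _ => hsum P h0 hadd _ _ fun q _ => hgen _ _ (htV _))
  refine ⟨by rw [pow_zero]; exact Submodule.one_le.1 le_rfl, fun hx hy => ?_, fun n m => ?_, fun n => ?_,
    ?_, ?_⟩
  · rw [pow_add]; exact Submodule.mul_mem_mul hx hy
  · rw [pow_add]
  · refine Module.Finite.iff_fg.2 (Submodule.FG.pow (Submodule.FG.sup ?_ ?_) n)
    · rw [Submodule.one_eq_span]; exact Submodule.fg_span_singleton _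
    · exact Module.Finite.iff_fg.1 (Module.Finite.range _)
  · intro n
    induction n with
    | zero =>
      intro x h hx
      rw [pow_zero] at hx ⊢
      obtain ⟨c, rfl⟩ := Submodule.mem_one.1 hx
      rw [Algebra.algebraMap_eq_smul_one, map_smul, hρ.one]
      exact Submodule.smul_mem _ _ (Submodule.smul_mem _ _ (Submodule.one_le.1 le_rfl))
    | succ n ih =>
      intro x h hx
      rw [pow_succ] at hx ⊢
      refine Submodule.mul_induction_on hx (fun u hu v hv => ?_) (fun u v hu hv => ?_)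
      · rw [hρ.mul]
        refine Submodule.sum_mem _ fun p _ => Submodule.mul_mem_mul (ih _ hu) ?_
        obtain ⟨c, g, rfl⟩ := hVm v hv
        rw [map_add, map_smul, hρ.one, ← Module.End.mul_apply, ← map_mul]
        exact add_mem (V.smul_mem _ (V.smul_mem _ h1V)) (htV _)
      · rw [map_add]; exact add_mem hu hv
  · intro n
    induction n with
    | zero =>
      intro y hy P _ _ hgen
      have := hgen 1 y hy
      rw [pow_zero] at hy
      obtain ⟨c, rfl⟩ := Submodule.mem_one.1 hy
      simpa [Algebra.commutes] using this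
    | succ n ih =>
      intro y hy P h0 hadd hgen
      rw [pow_succ] at hy hgen
      refine Submodule.mul_induction_on hy (fun u hu v hv => ?_) (fun u v hu hv => ?_)
      · simp only [mul_assoc]
        refine hbc1 v hv (fun g => P (fun x => u * g x)) (by simpa using! h0)
          (fun f g hf hg => by simpa [mul_add] using! hadd _ _ hf hg) fun h' z' hz' => ?_
        simp only [← mul_assoc]
        refine ih hu (fun f => P (fun x => f (ρ h' x) * z')) (by simpa using! h0)
          (fun f g hf hg => by simpa [add_mul] using! hadd _ _ hf hg) fun h z hz => ?_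
        have := hgen (h * h') (z * z') (Submodule.mul_mem_mul hz hz')
        simpa [mul_assoc] using this
      · simpa [add_mul] using! hadd _ _ hu hv

theorem finite_of_gen [CharZero k] [FiniteDimensional k H]
    (hS : ∀ h : H, antipode k (antipode k h) = h) (hρ : IsMA ρ)
    {Λ : H} (hΛ : ∀ h, h * Λ = counit (R := k) h • Λ) (hΛ1 : counit (R := k) Λ = 1)
    {t : B} (ht : t * t = t) (htc : ∀ a, t * a = a * t)
    (hgen : ∀ S : Subalgebra k B, (∀ h, ρ h t ∈ S) → S = ⊤) : FiniteDimensional k B := by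
  classical
  have hF := filt_of_central hρ htc
  set F : ℕ → Submodule k B := fun n => (1 ⊔ orb ρ t) ^ n with hFd
  have h1 : (1 : B) ∈ F 1 := by
    simp only [hFd, pow_one]
    exact Submodule.mem_sup_left (Submodule.one_le.1 le_rfl)
  have hmono : Monotone F := monotone_nat_of_le_succ fun n x hx => by
    simpa using hF.mul_mem hx h1
  have hall : ∀ x, ∃ n, x ∈ F n := by
    let S : Subalgebra k B :=
      { carrier := {x | ∃ n, x ∈ F n}
        mul_mem' := fun ⟨n, hn⟩ ⟨m, hm⟩ => ⟨n + m, hF.mul_mem hn hm⟩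
        add_mem' := fun ⟨n, hn⟩ ⟨m, hm⟩ => ⟨n + m, add_mem (hmono (Nat.le_add_right _ _) hn)
          (hmono (Nat.le_add_left _ _) hm)⟩
        algebraMap_mem' := fun c => ⟨0, by
          rw [Algebra.algebraMap_eq_smul_one]; exact Submodule.smul_mem _ c hF.one_mem⟩ }
    have := hgen S fun h => ⟨1, by
      simp only [hFd, pow_one]; exact Submodule.mem_sup_right ⟨h, rfl⟩⟩
    exact fun x => (this ▸ Algebra.mem_top : x ∈ S)
  let Inv : Submodule k B := ⨅ h, LinearMap.ker (ρ h - counit (R := k) h • LinearMap.id)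
  have hInv : ∀ x, x ∈ Inv ↔ ∀ h, ρ h x = counit (R := k) h • x := by
    intro x; simp [Inv, sub_eq_zero]
  have hcent : ∀ x ∈ Inv, ∀ y, x * y = y * x := by
    intro x hx y
    obtain ⟨n, hn⟩ := hall y
    have := hF.bc hn (fun f => f x = x * f 1) (by simp)
      (fun f g hf hg => by simp [hf, hg, mul_add]) fun h z _ => by
        simp [(hInv x).1 hx, hρ.one]
    simpa using this.symm
  let I : ℕ → Submodule k B := fun l => Submodule.span k
    {w | ∃ d n a y, 0 < d ∧ d + n = l ∧ a ∈ F d ∧ a ∈ Inv ∧ y ∈ F n ∧ w = a * y}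
  refine (Fam.eventually_top hS hρ hF (I := I) ⟨?_, ?_, ?_⟩ hΛ1 ?_).elim ?_
  rotate_right
  · intro N hN
    have := hF.fin N
    obtain ⟨s, hs⟩ : (F N ⊓ Inv).FG := Module.Finite.iff_fg.1
      (Submodule.finiteDimensional_of_le inf_le_left)
    have hsI : ∀ x ∈ s, x ∈ Inv := fun x hx =>
      (hs ▸ Submodule.subset_span hx : x ∈ F N ⊓ Inv).2
    let s' : Finset (Subalgebra.center k B) := s.attach.image fun x =>
      ⟨x.1, Subalgebra.mem_center_iff.2 fun y => (hcent _ (hsI _ x.2) y).symm⟩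
    let R := Algebra.adjoin k (s' : Set (Subalgebra.center k B))
    have : Algebra.FiniteType k R := (Subalgebra.fg_iff_finiteType _).1 ⟨s', rfl⟩
    let ι : R →ₐ[k] B := (Subalgebra.center k B).val.comp R.val
    have hι : ∀ a ∈ F N ⊓ Inv, ∃ r, ι r = a := by
      have : F N ⊓ Inv ≤ LinearMap.range ι.toLinearMap := by
        rw [← hs, Submodule.span_le]
        intro x hx
        exact ⟨⟨_, Algebra.subset_adjoin (Finset.mem_coe.2 (Finset.mem_image.2
          ⟨⟨x, hx⟩, Finset.mem_attach _ _, rfl⟩))⟩, rfl⟩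
      exact fun a ha => this ha
    let b := Module.finBasis k (F N)
    let q : (Fin (Module.finrank k (F N)) → R) →ₗ[k] B :=
      ∑ j, LinearMap.mulRight k (b j : B) ∘ₗ ι.toLinearMap ∘ₗ LinearMap.proj j
    have hq : ∀ r, q r = ∑ j, ι (r j) * b j := fun r => by simp [q]
    have hqm : ∀ r, ∀ x ∈ LinearMap.range q, ι r * x ∈ LinearMap.range q := by
      rintro r _ ⟨u, rfl⟩
      exact ⟨fun j => r * u j, by simp [hq, Finset.mul_sum, mul_assoc]⟩
    have hFq : ∀ n, F n ≤ LinearMap.range q := by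
      intro n
      induction n using Nat.strong_induction_on with
      | _ n ih =>
        rcases le_or_gt n N with hn | hn
        · intro x hx
          refine ⟨fun j => algebraMap k R (b.repr ⟨x, hmono hn hx⟩ j), ?_⟩
          have := congrArg Subtype.val (b.sum_repr ⟨x, hmono hn hx⟩)
          simp only [AddSubmonoidClass.coe_finsetSum, Submodule.coe_smul] at this
          simpa [hq, ← Algebra.smul_def] using this
        · obtain ⟨r, rfl⟩ := Nat.exists_eq_add_of_le hn.le
          refine (hF.le_mul N r).trans (Submodule.mul_le.2 fun x hx u hu => ?_)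
          refine Submodule.span_induction (p := fun x _ => x * u ∈ LinearMap.range q) ?_
            (by simp) (fun x y _ _ hx hy => by rw [add_mul]; exact add_mem hx hy)
            (fun c x _ hx => by rw [smul_mul_assoc]; exact Submodule.smul_mem _ c hx) (hN hx)
          rintro _ ⟨d, n, a, y, hd, hdn, ha, ha', hy, rfl⟩
          obtain ⟨r', rfl⟩ := hι a ⟨hmono (by omega) ha, ha'⟩
          rw [mul_assoc]
          exact hqm _ _ (ih (n + r) (by omega) (hF.mul_mem hy hu))
    refine finite_of_base hS hρ hΛ hΛ1 ht htc hgen ι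
      (Subtype.val_injective.comp Subtype.val_injective) ?_
      (fun r y => (Subalgebra.mem_center_iff.1 r.1.2 y).symm) (fun j => (b j : B)) fun x => ?_
    · rintro ⟨r, hr⟩
      change ∀ h, ρ h r.1 = counit (R := k) h • r.1
      induction hr using Algebra.adjoin_induction with
      | mem x hx =>
        obtain ⟨y, -, rfl⟩ := Finset.mem_image.1 (Finset.mem_coe.1 hx)
        exact (hInv _).1 (hsI _ y.2)
      | algebraMap c =>
        intro h
        change ρ h (algebraMap k B c) = counit (R := k) h • algebraMap k B c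
        rw [Algebra.algebraMap_eq_smul_one, map_smul, hρ.one, smul_comm]
      | add x y _ _ hx hy => intro h; simp [hx, hy]
      | mul x y _ _ hx hy =>
        intro h
        change ρ h (x.1 * y.1) = counit (R := k) h • (x.1 * y.1)
        rw [hρ.inv_mul hx, hy, mul_smul_comm]
    · obtain ⟨n, hn⟩ := hall x
      obtain ⟨r, hr⟩ := hFq n hn
      exact ⟨r, by rw [← hq, hr]⟩
  · intro l
    refine Submodule.span_le.2 ?_
    rintro _ ⟨d, n, a, y, -, rfl, ha, -, hy, rfl⟩
    exact hF.mul_mem (n := d) (m := n) ha hy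
  · intro l x h hx
    refine Submodule.span_induction (p := fun x _ => ρ h x ∈ I l) ?_
      (by simp) (fun x y _ _ hx hy => by rw [map_add]; exact add_mem hx hy)
      (fun c x _ hx => by rw [map_smul]; exact Submodule.smul_mem _ c hx) hx
    rintro _ ⟨d, n, a, y, hd, hdn, ha, ha', hy, rfl⟩
    rw [hρ.inv_mul ((hInv a).1 ha')]
    exact Submodule.subset_span ⟨d, n, a, _, hd, hdn, ha, ha', hF.stab h hy, rfl⟩
  · intro l m x u hx hu
    refine Submodule.span_induction (p := fun x _ => x * u ∈ I (l + m)) ?_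
      (by simp) (fun x y _ _ hx hy => by rw [add_mul]; exact add_mem hx hy)
      (fun c x _ hx => by rw [smul_mul_assoc]; exact Submodule.smul_mem _ c hx) hx
    rintro _ ⟨d, n, a, y, hd, hdn, ha, ha', hy, rfl⟩
    exact Submodule.subset_span
      ⟨d, n + m, a, y * u, hd, by omega, ha, ha', hF.mul_mem hy hu, mul_assoc _ _ _⟩
  · intro n hn z hz
    refine Submodule.subset_span ⟨n, 0, ρ Λ z, 1, hn, rfl, hF.stab _ hz, (hInv _).2 fun h => ?_,
      hF.one_mem, (mul_one _).symm⟩
    rw [← Module.End.mul_apply, ← map_mul, hΛ, map_smul, LinearMap.smul_apply]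

end Pool.Agent.MP_57c94c_al.H65
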