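import Mathlib

/-!
# Sweedler sums, module algebras, averaging
-/

namespace Pool.Agent.MP_57c94c_al.H65

open Coalgebra HopfAlgebra TensorProduct

section

variable (k : Type*) {H : Type*} [Field k] [Ring H] [HopfAlgebra k H]

/-- A chosen finite set of pairs representing the coproduct. -/
noncomputable def cp (h : H) : Finset (H × H) := (Coalgebra.Repr.arbitrary k h).index

lemma sum_cp (h : H) : ∑ p ∈ cp k h, p.1 ⊗ₜ[k] p.2 = comul h :=
  (Coalgebra.Repr.arbitrary k h).eq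

variable {k}
variable {M : Type*} [AddCommGroup M] [Module k M]

lemma sum_cp_lift (β : H →ₗ[k] H →ₗ[k] M) (h : H) :
    ∑ p ∈ cp k h, β p.1 p.2 = TensorProduct.lift β (comul h) := by
  rw [← sum_cp k h, map_sum]; simp

lemma sum_cp_map (L : H ⊗[k] H →ₗ[k] M) (h : H) :
    ∑ p ∈ cp k h, L (p.1 ⊗ₜ p.2) = L (comul h) := by
  rw [← sum_cp k h, map_sum]

lemma cp_counit_left (f : H →ₗ[k] M) (h : H) :
    ∑ p ∈ cp k h, counit (R := k) p.1 • f p.2 = f h := by
  have := sum_counit_smul (Coalgebra.Repr.arbitrary k h)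
  conv_rhs => rw [← this, map_sum]
  simp only [map_smul]; rfl

lemma cp_counit_right (f : H →ₗ[k] M) (h : H) :
    ∑ p ∈ cp k h, counit (R := k) p.2 • f p.1 = f h := by
  have := congrArg (TensorProduct.lift ((LinearMap.lsmul k M).flip ∘ₗ f))
    (sum_tmul_counit_eq (Coalgebra.Repr.arbitrary k h))
  simpa only [map_sum, lift.tmul, LinearMap.comp_apply, LinearMap.flip_apply,
    LinearMap.lsmul_apply, one_smul] using! this

lemma cp_co3 (τ : H →ₗ[k] H →ₗ[k] H →ₗ[k] M) (h : H) :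
    ∑ p ∈ cp k h, ∑ q ∈ cp k p.1, τ q.1 q.2 p.2 =
      ∑ p ∈ cp k h, ∑ q ∈ cp k p.2, τ p.1 q.1 q.2 := by
  have := congrArg (TensorProduct.lift
      ((TensorProduct.uncurry (RingHom.id k) H H M) ∘ₗ τ))
    (sum_tmul_tmul_eq (Coalgebra.Repr.arbitrary k h)
      (fun i => Coalgebra.Repr.arbitrary k _) (fun i => Coalgebra.Repr.arbitrary k _))
  simpa only [map_sum, lift.tmul, LinearMap.comp_apply, uncurry_apply] using! this

lemma cp_S_mul (h : H) : ∑ p ∈ cp k h, antipode k p.1 * p.2 = counit (R := k) h • (1 : H) :=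
  sum_antipode_mul_eq_smul (Coalgebra.Repr.arbitrary k h)

lemma cp_mul_S (h : H) : ∑ p ∈ cp k h, p.1 * antipode k p.2 = counit (R := k) h • (1 : H) :=
  sum_mul_antipode_eq_smul (Coalgebra.Repr.arbitrary k h)

lemma cp_one (β : H →ₗ[k] H →ₗ[k] M) : ∑ p ∈ cp k (1 : H), β p.1 p.2 = β 1 1 := by
  rw [sum_cp_lift]; simp [Algebra.TensorProduct.one_def]

lemma cp_mul (β : H →ₗ[k] H →ₗ[k] M) (a b : H) :
    ∑ p ∈ cp k (a * b), β p.1 p.2 =
      ∑ p ∈ cp k a, ∑ q ∈ cp k b, β (p.1 * q.1) (p.2 * q.2) := by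
  rw [sum_cp_lift, Bialgebra.comul_mul, ← sum_cp k a, ← sum_cp k b, Finset.sum_mul_sum, map_sum]
  simp [map_sum]

/-- Cancellation of the last two tensor factors. -/
lemma cp_cancel_right (β : H →ₗ[k] H →ₗ[k] M) (m : H →ₗ[k] H →ₗ[k] H) (c : H)
    (hm : ∀ h, ∑ p ∈ cp k h, m p.1 p.2 = counit (R := k) h • c) (h : H) :
    ∑ p ∈ cp k h, ∑ q ∈ cp k p.1, β q.1 (m q.2 p.2) = β h c := by
  have := cp_co3 (M := M) (((LinearMap.llcomp k H H M).flip ∘ₗ m).flip ∘ₗ β) h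
  simp only [LinearMap.comp_apply, LinearMap.flip_apply, LinearMap.llcomp_apply] at this
  rw [this]
  simp only [← map_sum, hm, map_smul]
  exact cp_counit_right (β.flip c) h

/-- Cancellation of the first two tensor factors. -/
lemma cp_cancel_left (β : H →ₗ[k] H →ₗ[k] M) (m : H →ₗ[k] H →ₗ[k] H) (c : H)
    (hm : ∀ h, ∑ p ∈ cp k h, m p.1 p.2 = counit (R := k) h • c) (h : H) :
    ∑ p ∈ cp k h, ∑ q ∈ cp k p.2, β (m p.1 q.1) q.2 = β c h := by
  have := cp_co3 (M := M) (m.compr₂ β) h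
  simp only [LinearMap.compr₂_apply] at this
  rw [← this]
  simp only [← LinearMap.sum_apply, ← map_sum, hm, map_smul, LinearMap.smul_apply]
  exact cp_counit_left (β c) h

lemma cp_S_mul' (hS : ∀ h : H, antipode k (antipode k h) = h) (h : H) :
    ∑ p ∈ cp k h, antipode k p.2 * p.1 = counit (R := k) h • (1 : H) := by
  have := congrArg (antipode k) (cp_S_mul (k := k) h)
  simpa [map_sum, antipode_mul_antidistrib, hS] using this

lemma cp_mul_S' (hS : ∀ h : H, antipode k (antipode k h) = h) (h : H) :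
    ∑ p ∈ cp k h, p.2 * antipode k p.1 = counit (R := k) h • (1 : H) := by
  have := congrArg (antipode k) (cp_mul_S (k := k) h)
  simpa [map_sum, antipode_mul_antidistrib, hS] using this

/-- `h Λ₁ ⊗ S Λ₂ = Λ₁ ⊗ S Λ₂ h` for a left integral. -/
lemma cp_int_left (β : H →ₗ[k] H →ₗ[k] M) {Λ : H}
    (hΛ : ∀ h, h * Λ = counit (R := k) h • Λ) (h : H) :
    ∑ p ∈ cp k Λ, β (h * p.1) (antipode k p.2) =
      ∑ p ∈ cp k Λ, β p.1 (antipode k p.2 * h) := by
  have h1 : ∀ a : H, ∀ γ : H →ₗ[k] H →ₗ[k] M,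
      ∑ q ∈ cp k a, ∑ p ∈ cp k Λ, γ (q.1 * p.1) (q.2 * p.2) =
        counit (R := k) a • ∑ p ∈ cp k Λ, γ p.1 p.2 := by
    intro a γ
    rw [← cp_mul, hΛ, sum_cp_lift, sum_cp_lift, map_smul, map_smul]
  have h2 : ∀ x y : H, β (h * x) (antipode k y) =
      ∑ r ∈ cp k h, ∑ q ∈ cp k r.1, β (q.1 * x) (antipode k (q.2 * y) * r.2) := by
    intro x y
    have := cp_cancel_right (M := M)
      ((β ∘ₗ LinearMap.mulRight k x).compl₂ (LinearMap.mulLeft k (antipode k y)))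
      ((LinearMap.mul k H) ∘ₗ antipode k) 1 (by simpa using cp_S_mul) h
    simpa [antipode_mul_antidistrib, mul_assoc] using this.symm
  simp only [h2]
  rw [Finset.sum_comm]
  have h3 : ∀ r ∈ cp k h, ∑ p ∈ cp k Λ, ∑ q ∈ cp k r.1,
      β (q.1 * p.1) (antipode k (q.2 * p.2) * r.2) =
      counit (R := k) r.1 • ∑ p ∈ cp k Λ, β p.1 (antipode k p.2 * r.2) := by
    intro r _
    rw [Finset.sum_comm]
    exact h1 r.1 (β.compl₂ (LinearMap.mulRight k r.2 ∘ₗ antipode k))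
  rw [Finset.sum_congr rfl h3]
  have := cp_counit_left (M := M)
    (∑ p ∈ cp k Λ, β p.1 ∘ₗ LinearMap.mulLeft k (antipode k p.2)) h
  simpa using this

end

section avg

variable {k H M N : Type*} [Field k] [Ring H] [HopfAlgebra k H]
  [AddCommGroup M] [Module k M] [AddCommGroup N] [Module k N]

/-- Averaging a linear map between two `H`-modules. -/
noncomputable def avg (ρ₁ : H →ₐ[k] Module.End k M) (ρ₂ : H →ₐ[k] Module.End k N) (Λ : H)
    (f : M →ₗ[k] N) : M →ₗ[k] N :=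
  ∑ p ∈ cp k Λ, ρ₂ p.1 ∘ₗ f ∘ₗ ρ₁ (antipode k p.2)

lemma avg_apply (ρ₁ : H →ₐ[k] Module.End k M) (ρ₂ : H →ₐ[k] Module.End k N) (Λ : H)
    (f : M →ₗ[k] N) (x : M) :
    avg ρ₁ ρ₂ Λ f x = ∑ p ∈ cp k Λ, ρ₂ p.1 (f (ρ₁ (antipode k p.2) x)) := by
  simp [avg]

lemma avg_equiv (ρ₁ : H →ₐ[k] Module.End k M) (ρ₂ : H →ₐ[k] Module.End k N) {Λ : H}
    (hΛ : ∀ h, h * Λ = counit (R := k) h • Λ) (f : M →ₗ[k] N) (h : H) (x : M) :
    ρ₂ h (avg ρ₁ ρ₂ Λ f x) = avg ρ₁ ρ₂ Λ f (ρ₁ h x) := by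
  have := cp_int_left (M := N)
    (LinearMap.mk₂ k (fun a b => ρ₂ a (f (ρ₁ b x))) (by intros; simp) (by intros; simp)
      (by intros; simp) (by intros; simp)) hΛ h
  simpa [avg_apply, map_sum] using this

lemma sum_act_S (ρ : H →ₐ[k] Module.End k M) (h : H) (x : M) :
    ∑ p ∈ cp k h, ρ p.1 (ρ (antipode k p.2) x) = counit (R := k) h • x := by
  have := congrArg (fun a => ρ a x) (cp_mul_S (k := k) h)
  simpa [map_sum] using this

end avg

section MA

variable {k H B : Type*} [Field k] [Ring H] [HopfAlgebra k H] [Ring B] [Algebra k B]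

/-- `B` is an `H`-module algebra through `ρ`. -/
structure IsMA (ρ : H →ₐ[k] Module.End k B) : Prop where
  mul : ∀ h x y, ρ h (x * y) = ∑ p ∈ cp k h, ρ p.1 x * ρ p.2 y
  one : ∀ h, ρ h 1 = counit (R := k) h • 1

variable {ρ : H →ₐ[k] Module.End k B}

lemma IsMA.c2 (hρ : IsMA ρ) (h : H) (x y : B) :
    ρ h x * y = ∑ p ∈ cp k h, ρ p.1 (x * ρ (antipode k p.2) y) := by
  have := cp_cancel_right (M := B)
    (LinearMap.mk₂ k (fun a b => ρ a x * ρ b y) (by intros; simp [add_mul]) (by intros; simp)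
      (by intros; simp [mul_add]) (by intros; simp))
    ((LinearMap.mul k H).compl₂ (antipode k)) 1 (by simpa using cp_mul_S) h
  simp only [hρ.mul]
  simpa using this.symm

lemma IsMA.c3 (hρ : IsMA ρ) (hS : ∀ h : H, antipode k (antipode k h) = h) (h : H) (x y : B) :
    x * ρ h y = ∑ p ∈ cp k h, ρ p.2 (ρ (antipode k p.1) x * y) := by
  have := cp_cancel_left (M := B)
    (LinearMap.mk₂ k (fun a b => ρ a x * ρ b y) (by intros; simp [add_mul]) (by intros; simp)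
      (by intros; simp [mul_add]) (by intros; simp))
    ((LinearMap.mul k H).flip ∘ₗ antipode k) 1 (by simpa using cp_mul_S' hS) h
  simp only [hρ.mul]
  simpa using this.symm

lemma IsMA.inv_mul (hρ : IsMA ρ) {x : B} (hx : ∀ h, ρ h x = counit (R := k) h • x) (h : H)
    (y : B) : ρ h (x * y) = x * ρ h y := by
  rw [hρ.mul]
  have := cp_counit_left (LinearMap.mulLeft k x ∘ₗ (LinearMap.applyₗ y) ∘ₗ ρ.toLinearMap) h
  simpa [hx] using this

end MA

end Pool.Agent.MP_57c94c_al.H65
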