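import Pool.Agent.MP_57c94c_al.H65.Fam

/-!
# Correspondences of positive degree and the finiteness lemma
-/

namespace Pool.Agent.MP_57c94c_al.H65

open Coalgebra HopfAlgebra

variable {k H B : Type*} [Field k] [Ring H] [HopfAlgebra k H] [Ring B] [Algebra k B]

/-- The graded pieces `F n / J n`. -/
def Qt (F J : ℕ → Submodule k B) (n : ℕ) := ↥(F n) ⧸ (J n).comap (F n).subtype

noncomputable instance (F J : ℕ → Submodule k B) (n : ℕ) : AddCommGroup (Qt F J n) :=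
  inferInstanceAs (AddCommGroup (↥(F n) ⧸ (J n).comap (F n).subtype))

noncomputable instance (F J : ℕ → Submodule k B) (n : ℕ) : Module k (Qt F J n) :=
  inferInstanceAs (Module k (↥(F n) ⧸ (J n).comap (F n).subtype))

/-- The projection to the graded piece. -/
noncomputable def qmk (F J : ℕ → Submodule k B) (n : ℕ) : F n →ₗ[k] Qt F J n :=
  ((J n).comap (F n).subtype).mkQ

lemma qmk_eq_zero {F J : ℕ → Submodule k B} {n : ℕ} {x : F n} : qmk F J n x = 0 ↔ x.1 ∈ J n :=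
  Submodule.Quotient.mk_eq_zero ((J n).comap (F n).subtype)

lemma qmk_surj {F J : ℕ → Submodule k B} {n : ℕ} (x : Qt F J n) : ∃ a, qmk F J n a = x :=
  Submodule.mkQ_surjective _ x

instance (F J : ℕ → Submodule k B) (n : ℕ) [FiniteDimensional k (F n)] :
    FiniteDimensional k (Qt F J n) :=
  Module.Finite.of_surjective (qmk F J n) qmk_surj

variable {ρ : H →ₐ[k] Module.End k B} {F J : ℕ → Submodule k B}

lemma exists_lm (hF : Filt ρ F) (hJ : Fam ρ F 0 J) {d n l : ℕ} (h : n + d = l) {x : B}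
    (hx : x ∈ F d) : ∃ L : Qt F J n →ₗ[k] Qt F J l, ∀ (a : F n) (ha : x * a ∈ F l),
      L (qmk F J n a) = qmk F J l ⟨x * a, ha⟩ := by
  subst h
  refine ⟨Submodule.mapQ _ _ (LinearMap.codRestrict (F (n + d))
    (LinearMap.mulLeft k x ∘ₗ (F n).subtype) fun a => ?_) ?_, fun a ha => rfl⟩
  · rw [add_comm]; exact hF.mul_mem hx a.2
  · intro a ha
    exact hJ.lmul hF hx ha

lemma MaxFam.nontrivial (hJ : MaxFam ρ F J) (n : ℕ) : Nontrivial (Qt F J n) := by
  obtain ⟨x, hx, hx'⟩ := Set.not_subset.1 (hJ.ne n)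
  exact ⟨qmk F J n ⟨x, hx⟩, 0, fun h => hx' (qmk_eq_zero.1 h)⟩

lemma act_basis [FiniteDimensional k H] (h : H) (b a : B) :
    ρ h b * a = ∑ j, (Module.finBasis k H).repr h j • (ρ (Module.finBasis k H j) b * a) := by
  conv_lhs => rw [← (Module.finBasis k H).sum_repr h]
  simp only [map_sum, map_smul, LinearMap.sum_apply, LinearMap.smul_apply, Finset.sum_mul,
    smul_mul_assoc]

lemma MaxFam.count [FiniteDimensional k H] (hρ : IsMA ρ) (hF : Filt ρ F) (hJ : MaxFam ρ F J)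
    (d : ℕ) : ∃ N, ∀ n l, N ≤ n → n + d = l →
      Module.finrank k (Qt F J l) ≤ Module.finrank k H * Module.finrank k (Qt F J n) := by
  classical
  obtain ⟨b, hb, hb'⟩ := Set.not_subset.1 (hJ.ne d)
  obtain ⟨N, hN⟩ := hJ.gen hρ hF hb hb'
  refine ⟨N, fun n l hn hl => ?_⟩
  have := hF.fin n
  choose L hL using fun j => exists_lm hF hJ.fam hl (hF.stab (Module.finBasis k H j) hb)
  set Ψ : (Fin (Module.finrank k H) → Qt F J n) →ₗ[k] Qt F J l :=
    ∑ j, L j ∘ₗ LinearMap.proj j with hΨ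
  have hsurj : Function.Surjective Ψ := by
    set R : Submodule k B := ((LinearMap.range Ψ).comap (qmk F J l)).map (F l).subtype with hR
    have hle : F l ≤ R := by
      subst hl
      refine (hN n hn).trans (sup_le ?_ (Submodule.mul_le.2 ?_))
      · intro x hx
        refine ⟨⟨x, hJ.fam.le _ hx⟩, ?_, rfl⟩
        have : qmk F J (n + d) ⟨x, hJ.fam.le _ hx⟩ = 0 := qmk_eq_zero.2 hx
        change qmk F J (n + d) _ ∈ LinearMap.range Ψ
        rw [this]; exact zero_mem _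
      · rintro _ ⟨h, rfl⟩ a ha
        change ρ h b * a ∈ R
        rw [act_basis]
        refine Submodule.sum_mem _ fun j _ => R.smul_mem _ ?_
        have hm : ρ (Module.finBasis k H j) b * a ∈ F (n + d) := by
          rw [add_comm]; exact hF.mul_mem (hF.stab _ hb) ha
        refine ⟨⟨_, hm⟩, ⟨Pi.single j (qmk F J n ⟨a, ha⟩), ?_⟩, rfl⟩
        rw [← hL j ⟨a, ha⟩ hm, hΨ]
        simp only [LinearMap.sum_apply, LinearMap.comp_apply, LinearMap.proj_apply]
        rw [Finset.sum_eq_single j]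
        · simp
        · intro i _ hi; simp [Pi.single_eq_of_ne hi]
        · simp
    intro v
    obtain ⟨a, rfl⟩ := qmk_surj v
    obtain ⟨a', ha', h⟩ := hle a.2
    obtain rfl : a' = a := Subtype.ext h
    exact ha'
  have := LinearMap.finrank_le_finrank_of_surjective hsurj
  rw [Module.finrank_pi_fintype k] at this
  simpa using this

lemma MaxFam.relation [FiniteDimensional k H] (hρ : IsMA ρ) (hF : Filt ρ F)
    (hJ : MaxFam ρ F J) {m : ℕ} (hm : Module.finrank k H * Module.finrank k H < m)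
    (b : Fin m → B) (hb : ∀ i : Fin m, b i ∈ F i) :
    ∃ n, ∃ a : Fin m → B, (∀ i : Fin m, a i ∈ F (n + (m - i))) ∧
      (∃ i : Fin m, a i ∉ J (n + (m - i))) ∧
      ∀ h, ∑ i, ρ h (b i) * a i ∈ J (n + m) := by
  classical
  choose N hN using fun d => hJ.count hρ hF d
  set n := Finset.univ.sup fun i : Fin m => N i with hn
  have hdeg : ∀ i : Fin m, n + (m - i) + i = n + m := fun i => by have := i.2; omega
  have := hF.fin
  choose L hL using fun (j : Fin (Module.finrank k H)) (i : Fin m) =>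
    exists_lm hF hJ.fam (hdeg i) (hF.stab (Module.finBasis k H j) (hb i))
  set Φ : (Π i : Fin m, Qt F J (n + (m - i))) →ₗ[k] (Fin (Module.finrank k H) → Qt F J (n + m)) :=
    LinearMap.pi fun j => ∑ i, L j i ∘ₗ LinearMap.proj i with hΦ
  have hninj : ¬ Function.Injective Φ := by
    intro hinj
    have h1 := LinearMap.finrank_le_finrank_of_injective hinj
    rw [Module.finrank_pi_fintype k, Module.finrank_pi_fintype k] at h1
    simp only [Finset.sum_const, Finset.card_univ, Fintype.card_fin, smul_eq_mul] at h1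
    have h2 : ∑ _i : Fin m, Module.finrank k (Qt F J (n + m)) ≤
        ∑ i : Fin m, Module.finrank k H * Module.finrank k (Qt F J (n + (m - i))) := by
      refine Finset.sum_le_sum fun i _ => hN i _ _ ?_ (hdeg i)
      exact le_trans (Finset.le_sup (f := fun i : Fin m => N i) (Finset.mem_univ i))
        (Nat.le_add_right _ _)
    rw [← Finset.mul_sum] at h2
    simp only [Finset.sum_const, Finset.card_univ, Fintype.card_fin, smul_eq_mul] at h2
    have := hJ.nontrivial (n + m)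
    have hpos : 0 < Module.finrank k (Qt F J (n + m)) := Module.finrank_pos
    have h3 := h2.trans (Nat.mul_le_mul_left _ h1)
    rw [← mul_assoc] at h3
    exact absurd (Nat.le_of_mul_le_mul_right h3 hpos) (not_le.2 hm)
  obtain ⟨v, hv, hv0⟩ : ∃ v, Φ v = 0 ∧ v ≠ 0 := by
    by_contra hc
    push Not at hc
    exact hninj fun x y hxy => sub_eq_zero.1 (hc _ (by rw [map_sub, hxy, sub_self]))
  choose a ha using fun i => qmk_surj (v i)
  refine ⟨n, fun i => a i, fun i => (a i).2, ?_, fun h => ?_⟩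
  · by_contra hcon
    push Not at hcon
    apply hv0
    funext i
    rw [← ha i]
    exact qmk_eq_zero.2 (hcon i)
  · simp only [act_basis h]
    rw [Finset.sum_comm]
    refine Submodule.sum_mem _ fun j _ => ?_
    rw [← Finset.smul_sum]
    refine Submodule.smul_mem _ _ ?_
    have hm : ∀ i, ρ (Module.finBasis k H j) (b i) * a i ∈ F (n + m) := fun i => by
      rw [← hdeg i, add_comm]; exact hF.mul_mem (hF.stab _ (hb i)) (a i).2
    have h1 := congrFun hv j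
    simp only [hΦ, LinearMap.pi_apply, LinearMap.sum_apply, LinearMap.comp_apply,
      LinearMap.proj_apply, ← ha, Pi.zero_apply] at h1
    rw [Finset.sum_congr rfl fun i _ => hL j i (a i) (hm i), ← map_sum, qmk_eq_zero] at h1
    simpa using h1

/-- A correspondence of degree `e` between graded pieces. -/
structure Corr (ρ : H →ₐ[k] Module.End k B) (F J : ℕ → Submodule k B) (e N : ℕ)
    (U : ℕ → B → B → Prop) : Prop where
  mem : ∀ {l a a'}, U l a a' → a ∈ F l ∧ a' ∈ F (l + e)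
  add : ∀ {l a a' b b'}, U l a a' → U l b b' → U l (a + b) (a' + b')
  smul : ∀ {l a a'} (c : k), U l a a' → U l (c • a) (c • a')
  tot : ∀ {l a}, N ≤ l → a ∈ F l → ∃ a', U l a a'
  onto : ∀ {l a'}, N ≤ l → a' ∈ F (l + e) → ∃ a, U l a a'
  inj : ∀ {l a a'}, U l a a' → a' ∈ J (l + e) → a ∈ J l
  stab : ∀ {l a a'} (h : H), U l a a' → U l (ρ h a) (ρ h a')
  rmul : ∀ {l m a a' y}, U l a a' → y ∈ F m → U (l + m) (a * y) (a' * y)

lemma Corr.lmul (hF : Filt ρ F) {e N : ℕ} {U : ℕ → B → B → Prop} (hU : Corr ρ F J e N U)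
    {l m : ℕ} {a a' y : B} (ha : U l a a') (hy : y ∈ F m) : U (l + m) (y * a) (y * a') := by
  refine hF.bc hy (fun f => U (l + m) (f a) (f a')) ?_ (fun f g hf hg => hU.add hf hg) ?_
  · simpa using hU.rmul ha (zero_mem (F m))
  · intro h z hz
    exact hU.rmul (hU.stab h ha) hz

lemma Corr.comp {e e' N : ℕ} {U U' : ℕ → B → B → Prop} (hU : Corr ρ F J e N U)
    (hU' : Corr ρ F J e' N U') :
    Corr ρ F J (e + e') N (fun l a a'' => ∃ a', U l a a' ∧ U' (l + e) a' a'') where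
  mem := fun ⟨_, h1, h2⟩ => ⟨(hU.mem h1).1, by rw [← add_assoc]; exact (hU'.mem h2).2⟩
  add := fun ⟨_, h1, h2⟩ ⟨_, h3, h4⟩ => ⟨_, hU.add h1 h3, hU'.add h2 h4⟩
  smul := fun c ⟨_, h1, h2⟩ => ⟨_, hU.smul c h1, hU'.smul c h2⟩
  tot := fun hl ha => by
    obtain ⟨a', h1⟩ := hU.tot hl ha
    obtain ⟨a'', h2⟩ := hU'.tot (hl.trans (Nat.le_add_right _ _)) (hU.mem h1).2
    exact ⟨a'', a', h1, h2⟩
  onto := fun hl ha => by
    rw [← add_assoc] at ha
    obtain ⟨a', h2⟩ := hU'.onto (hl.trans (Nat.le_add_right _ _)) ha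
    obtain ⟨a, h1⟩ := hU.onto hl (hU'.mem h2).1
    exact ⟨a, a', h1, h2⟩
  inj := fun ⟨_, h1, h2⟩ ha => hU.inj h1 (hU'.inj h2 (by rwa [add_assoc]))
  stab := fun h ⟨_, h1, h2⟩ => ⟨_, hU.stab h h1, hU'.stab h h2⟩
  rmul := fun ⟨_, h1, h2⟩ hy =>
    ⟨_, hU.rmul h1 hy, by rw [add_right_comm]; exact hU'.rmul h2 hy⟩

lemma Corr.iter {e N : ℕ} {U : ℕ → B → B → Prop} (hU : Corr ρ F J e N U) (j : ℕ) :
    ∃ U', Corr ρ F J ((j + 1) * e) N U' := by
  induction j with
  | zero => exact ⟨U, by simpa using hU⟩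
  | succ j ih =>
    obtain ⟨U', hU'⟩ := ih
    exact ⟨_, by rw [add_mul (j + 1), one_mul]; exact hU'.comp hU⟩

lemma MaxFam.exists_corr [FiniteDimensional k H] (hS : ∀ h : H, antipode k (antipode k h) = h)
    (hρ : IsMA ρ) (hF : Filt ρ F) (hJ : MaxFam ρ F J) :
    ∃ e N U, 0 < e ∧ Corr ρ F J e N U := by
  classical
  set m := Module.finrank k H * Module.finrank k H + 1 with hm
  choose b hb hb' using fun i : Fin m => Set.not_subset.1 (hJ.ne i)
  have hdeg : ∀ n, ∀ i : Fin m, n + (m - i) + i = n + m := fun n i => by have := i.2; omega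
  let P : Finset (Fin m) → ℕ → Submodule k (Fin m → B) := fun S n =>
    (Submodule.pi Set.univ fun i => F (n + (m - i))) ⊓
      ⨅ h, (J (n + m)).comap (∑ i ∈ S, LinearMap.mulLeft k (ρ h (b i)) ∘ₗ LinearMap.proj i)
  have hP : ∀ S n a, a ∈ P S n ↔
      (∀ i : Fin m, a i ∈ F (n + (m - i))) ∧ ∀ h, ∑ i ∈ S, ρ h (b i) * a i ∈ J (n + m) := by
    intro S n a; simp [P, Submodule.mem_pi]
  let Rel : Finset (Fin m) → Prop := fun S => ∃ n, ∃ a ∈ P S n, ∃ i ∈ S, a i ∉ J (n + (m - i))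
  have hex : ∃ S, Rel S := by
    obtain ⟨n, a, h1, ⟨i, h2⟩, h3⟩ := hJ.relation hρ hF (m := m) (by omega) b hb
    exact ⟨Finset.univ, n, a, (hP _ _ _).2 ⟨h1, h3⟩, i, Finset.mem_univ _, h2⟩
  obtain ⟨S, hS0, hmin⟩ := (wellFounded_lt (α := Finset (Fin m))).has_min {S | Rel S} hex
  have hterm : ∀ n h i x, x ∈ J (n + (m - (i : Fin m))) → ρ h (b i) * x ∈ J (n + m) := by
    intro n h i x hx
    rw [← hdeg n i]
    exact hJ.fam.lmul hF (hF.stab h (hb i)) hx
  have hall : ∀ n, ∀ a ∈ P S n, ∀ i ∈ S, a i ∈ J (n + (m - i)) →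
      ∀ j ∈ S, a j ∈ J (n + (m - j)) := by
    intro n a ha i hi hai j hj
    by_contra hcon
    have hji : j ≠ i := by rintro rfl; exact hcon hai
    refine hmin (S.erase i) ⟨n, a, ?_, j, Finset.mem_erase.2 ⟨hji, hj⟩, hcon⟩
      (Finset.erase_ssubset hi)
    rw [hP] at ha ⊢
    refine ⟨ha.1, fun h => ?_⟩
    have := sub_mem (ha.2 h) (hterm n h i _ hai)
    rwa [← Finset.sum_erase_add _ _ hi, add_sub_cancel_right] at this
  have hstab : ∀ n, ∀ a ∈ P S n, ∀ g, (fun i => ρ g (a i)) ∈ P S n := by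
    intro n a ha g
    rw [hP] at ha ⊢
    refine ⟨fun i => hF.stab g (ha.1 i), fun h => ?_⟩
    simp only [hρ.c3 hS g]
    rw [Finset.sum_comm]
    refine Submodule.sum_mem _ fun p _ => ?_
    rw [← map_sum]
    refine hJ.fam.stab _ ?_
    simpa using ha.2 (antipode k p.1 * h)
  have hrmul : ∀ n r, ∀ a ∈ P S n, ∀ y ∈ F r, (fun i => a i * y) ∈ P S (n + r) := by
    intro n r a ha y hy
    rw [hP] at ha ⊢
    refine ⟨fun i => ?_, fun h => ?_⟩
    · rw [add_right_comm]; exact hF.mul_mem (ha.1 i) hy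
    · simp only [← mul_assoc, ← Finset.sum_mul]
      rw [add_right_comm]; exact hJ.fam.rmul (ha.2 h) hy
  obtain ⟨n₀, a₀, ha₀, i₀, hi₀, hi₀'⟩ := hS0
  have hsurj : ∀ i ∈ S, ∃ N, ∀ n, N ≤ n → ∀ x ∈ F (n + (m - i)), ∃ a ∈ P S n, a i = x := by
    intro i hi
    refine (hJ.max' (s := m - i) (J' := fun n => (P S n).map (LinearMap.proj i))
      ⟨?_, ?_, ?_⟩ ⟨n₀, ?_⟩).imp ?_
    · rintro n _ ⟨a, ha, rfl⟩
      exact ((hP _ _ _).1 ha).1 i
    · rintro n _ g ⟨a, ha, rfl⟩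
      exact ⟨_, hstab n a ha g, rfl⟩
    · rintro n r _ y ⟨a, ha, rfl⟩ hy
      exact ⟨_, hrmul n r a ha y hy, rfl⟩
    · intro hle
      exact hi₀' (hall n₀ a₀ ha₀ i hi (hle ⟨a₀, ha₀, rfl⟩) i₀ hi₀)
    · intro N hN n hn x hx
      obtain ⟨j, hj, _, ⟨a, ha, rfl⟩, rfl⟩ := Submodule.mem_sup.1 (hN n hn hx)
      refine ⟨Pi.single i j + a, add_mem ?_ ha, by simp⟩
      rw [hP]
      refine ⟨fun i' => ?_, fun h => Submodule.sum_mem _ fun i' _ => hterm n h i' _ ?_⟩
      · by_cases hii : i' = i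
        · subst hii; simpa using hJ.fam.le _ hj
        · simp [Pi.single_eq_of_ne hii]
      · by_cases hii : i' = i
        · subst hii; simpa using hj
        · simp [Pi.single_eq_of_ne hii]
  have htwo : ∃ i ∈ S, ∃ j ∈ S, j < i := by
    by_contra hcon
    push Not at hcon
    have hSi : S = {i₀} := Finset.eq_singleton_iff_unique_mem.2
      ⟨hi₀, fun j hj => le_antisymm (hcon j hj i₀ hi₀) (hcon i₀ hi₀ j hj)⟩
    rw [hP, hSi] at ha₀
    refine hi₀' (hJ.ann hS hρ hF (hb i₀) (hb' i₀) (ha₀.1 i₀) fun h => ?_)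
    rw [hdeg]
    simpa using ha₀.2 h
  obtain ⟨i, hi, j, hj, hji⟩ := htwo
  obtain ⟨Ni, hNi⟩ := hsurj i hi
  obtain ⟨Nj, hNj⟩ := hsurj j hj
  have hij : ∀ n, n + (m - i) + (i - j) = n + (m - j) := fun n => by
    have := i.2
    have : (j : ℕ) < i := hji
    omega
  refine ⟨i - j, Ni + Nj + m, fun l x x' => ∃ n, n + (m - i) = l ∧ ∃ a ∈ P S n, a i = x ∧ a j = x',
    Nat.sub_pos_of_lt hji, ?_, ?_, ?_, ?_, ?_, ?_, ?_, ?_⟩
  · rintro _ _ _ ⟨n, rfl, a, ha, rfl, rfl⟩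
    rw [hij]
    exact ⟨((hP _ _ _).1 ha).1 i, ((hP _ _ _).1 ha).1 j⟩
  · rintro _ _ _ _ _ ⟨n, rfl, a, ha, rfl, rfl⟩ ⟨n', hn', a', ha', rfl, rfl⟩
    obtain rfl : n' = n := by omega
    exact ⟨n', rfl, a + a', add_mem ha ha', rfl, rfl⟩
  · rintro _ _ _ c ⟨n, rfl, a, ha, rfl, rfl⟩
    exact ⟨n, rfl, c • a, Submodule.smul_mem _ c ha, rfl, rfl⟩
  · intro l x hl hx
    obtain ⟨n, rfl⟩ : ∃ n, l = n + (m - i) := ⟨l - (m - i), by omega⟩
    obtain ⟨a, ha, rfl⟩ := hNi n (by omega) x hx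
    exact ⟨_, n, rfl, a, ha, rfl, rfl⟩
  · intro l x hl hx
    obtain ⟨n, rfl⟩ : ∃ n, l = n + (m - i) := ⟨l - (m - i), by omega⟩
    rw [hij] at hx
    obtain ⟨a, ha, rfl⟩ := hNj n (by omega) x hx
    exact ⟨_, n, rfl, a, ha, rfl, rfl⟩
  · rintro _ _ _ ⟨n, rfl, a, ha, rfl, rfl⟩ hx
    rw [hij] at hx
    exact hall n a ha j hj hx i hi
  · rintro _ _ _ g ⟨n, rfl, a, ha, rfl, rfl⟩
    exact ⟨n, rfl, _, hstab n a ha g, rfl, rfl⟩
  · rintro _ r _ _ y ⟨n, rfl, a, ha, rfl, rfl⟩ hy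
    exact ⟨n + r, add_right_comm _ _ _, _, hrmul n r a ha y hy, rfl, rfl⟩

end Pool.Agent.MP_57c94c_al.H65
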