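import Pool.Agent.MP_57c94c_al.H65.Trace

/-!
# Filtrations and maximal families of stable right ideals
-/

namespace Pool.Agent.MP_57c94c_al.H65

open Coalgebra HopfAlgebra

section act

variable {k H M : Type*} [Field k] [Ring H] [Algebra k H] [AddCommGroup M] [Module k M]

lemma exists_act_sub (ρ : H →ₐ[k] Module.End k M) (P : Submodule k M)
    (hP : ∀ h, ∀ x ∈ P, ρ h x ∈ P) :
    ∃ ρ' : H →ₐ[k] Module.End k P, ∀ h x, (ρ' h x : M) = ρ h x := by
  refine ⟨AlgHom.ofLinearMap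
    { toFun := fun h => (ρ h).restrict (hP h)
      map_add' := by intros; ext; simp
      map_smul' := by intros; ext; simp } (by ext; simp) (by intros; ext; simp), ?_⟩
  intro h x; rfl

lemma exists_act_quot (ρ : H →ₐ[k] Module.End k M) (P : Submodule k M)
    (hP : ∀ h, ∀ x ∈ P, ρ h x ∈ P) :
    ∃ ρ' : H →ₐ[k] Module.End k (M ⧸ P), ∀ h x, ρ' h (P.mkQ x) = P.mkQ (ρ h x) := by
  refine ⟨AlgHom.ofLinearMap
    { toFun := fun h => P.mapQ P (ρ h) (hP h)
      map_add' := by intros; ext; simp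
      map_smul' := by intros; ext; simp } (by ext; simp) (by intros; ext; simp), ?_⟩
  intro h x; rfl

end act

variable {k H B : Type*} [Field k] [Ring H] [HopfAlgebra k H] [Ring B] [Algebra k B]

/-- A multiplicative family of finite-dimensional stable subspaces, braided commutative. -/
structure Filt (ρ : H →ₐ[k] Module.End k B) (F : ℕ → Submodule k B) : Prop where
  one_mem : (1 : B) ∈ F 0
  mul_mem : ∀ {n m : ℕ} {x y : B}, x ∈ F n → y ∈ F m → x * y ∈ F (n + m)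
  le_mul : ∀ n m, F (n + m) ≤ F n * F m
  fin : ∀ n, FiniteDimensional k (F n)
  stab : ∀ {n : ℕ} {x : B} (h : H), x ∈ F n → ρ h x ∈ F n
  bc : ∀ {n : ℕ} {y : B}, y ∈ F n → ∀ P : (B → B) → Prop, P 0 →
    (∀ f g, P f → P g → P (f + g)) → (∀ h, ∀ z ∈ F n, P (fun x => ρ h x * z)) →
    P (fun x => y * x)

/-- A graded family of stable subspaces closed under right multiplication. -/
structure Fam (ρ : H →ₐ[k] Module.End k B) (F : ℕ → Submodule k B) (s : ℕ)
    (J : ℕ → Submodule k B) : Prop where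
  le : ∀ n, J n ≤ F (n + s)
  stab : ∀ {n : ℕ} {x : B} (h : H), x ∈ J n → ρ h x ∈ J n
  rmul : ∀ {n m : ℕ} {x y : B}, x ∈ J n → y ∈ F m → x * y ∈ J (n + m)

/-- A family that is maximal among those that are proper in every degree. -/
structure MaxFam (ρ : H →ₐ[k] Module.End k B) (F : ℕ → Submodule k B)
    (J : ℕ → Submodule k B) : Prop where
  fam : Fam ρ F 0 J
  ne : ∀ n, ¬ F n ≤ J n
  maxi : ∀ J', Fam ρ F 0 J' → (∃ n, ¬ J' n ≤ J n) → ∃ N, ∀ n, N ≤ n → F n ≤ J n ⊔ J' n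

variable {ρ : H →ₐ[k] Module.End k B} {F : ℕ → Submodule k B}

lemma Fam.lmul (hF : Filt ρ F) {s : ℕ} {J : ℕ → Submodule k B} (hJ : Fam ρ F s J) {n m : ℕ}
    {x y : B} (hy : y ∈ F m) (hx : x ∈ J n) : y * x ∈ J (n + m) := by
  refine hF.bc hy (fun f => f x ∈ J (n + m)) (zero_mem _) (fun f g hf hg => add_mem hf hg) ?_
  intro h z hz
  exact hJ.rmul (hJ.stab h hx) hz

lemma Fam.sup {s : ℕ} {J J' : ℕ → Submodule k B} (hJ : Fam ρ F s J) (hJ' : Fam ρ F s J') :
    Fam ρ F s (fun n => J n ⊔ J' n) where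
  le n := sup_le (hJ.le n) (hJ'.le n)
  stab h hx := by
    obtain ⟨a, ha, b, hb, rfl⟩ := Submodule.mem_sup.1 hx
    rw [map_add]
    exact Submodule.add_mem_sup (hJ.stab h ha) (hJ'.stab h hb)
  rmul hx hy := by
    obtain ⟨a, ha, b, hb, rfl⟩ := Submodule.mem_sup.1 hx
    rw [add_mul]
    exact Submodule.add_mem_sup (hJ.rmul ha hy) (hJ'.rmul hb hy)

lemma exists_maxFam (hF : Filt ρ F) {I : ℕ → Submodule k B} (hI : Fam ρ F 0 I)
    (hne : ∀ n, ¬ F n ≤ I n) : ∃ J, MaxFam ρ F J ∧ ∀ n, I n ≤ J n := by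
  obtain ⟨J, hIJ, hJ⟩ := zorn_le_nonempty₀
    {J : ℕ → Submodule k B | Fam ρ F 0 J ∧ ∀ n, ¬ F n ≤ J n} (by
      intro c hc hchain y hy
      have : Nonempty c := ⟨⟨y, hy⟩⟩
      have hdir : ∀ n, Directed (· ≤ ·) (fun J : c => J.1 n) := by
        intro n a b
        rcases hchain.total a.2 b.2 with h | h
        · exact ⟨b, h n, le_rfl⟩
        · exact ⟨a, le_rfl, h n⟩
      refine ⟨fun n => ⨆ J : c, J.1 n, ⟨⟨fun n => iSup_le fun J => (hc J.2).1.le n, ?_, ?_⟩, ?_⟩,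
        fun z hz n => le_iSup (fun J : c => J.1 n) ⟨z, hz⟩⟩
      · intro n x h hx
        obtain ⟨J, hJ⟩ := (Submodule.mem_iSup_of_directed _ (hdir n)).1 hx
        exact Submodule.mem_iSup_of_mem J ((hc J.2).1.stab h hJ)
      · intro n m x y hx hy
        obtain ⟨J, hJ⟩ := (Submodule.mem_iSup_of_directed _ (hdir n)).1 hx
        exact Submodule.mem_iSup_of_mem J ((hc J.2).1.rmul hJ hy)
      · intro n hn
        have := hF.fin n
        have hfg : (F n).FG := Module.Finite.iff_fg.1 inferInstance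
        obtain ⟨s, hs⟩ := hfg
        have : ∀ t : Finset B, (∀ x ∈ t, x ∈ F n) → ∃ J : c, ∀ x ∈ t, x ∈ J.1 n := by
          classical
          intro t
          induction t using Finset.induction_on with
          | empty => exact fun _ => ⟨⟨y, hy⟩, by simp⟩
          | insert a t ha ih =>
            intro ht
            obtain ⟨J1, hJ1⟩ := ih fun x hx => ht x (Finset.mem_insert_of_mem hx)
            obtain ⟨J2, hJ2⟩ := (Submodule.mem_iSup_of_directed _ (hdir n)).1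
              (hn (ht a (Finset.mem_insert_self _ _)))
            obtain ⟨J3, h1, h2⟩ := hdir n J1 J2
            refine ⟨J3, fun x hx => ?_⟩
            rcases Finset.mem_insert.1 hx with rfl | hx
            · exact h2 hJ2
            · exact h1 (hJ1 x hx)
        obtain ⟨J, hJ⟩ := this s (fun x hx => hs ▸ Submodule.subset_span hx)
        exact (hc J.2).2 n (hs ▸ Submodule.span_le.2 hJ)) I ⟨hI, hne⟩
  refine ⟨J, ⟨hJ.prop.1, hJ.prop.2, ?_⟩, hIJ⟩
  rintro J' hJ' ⟨n₀, hn₀⟩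
  have hsup := hJ.prop.1.sup hJ'
  have : ∃ N, F N ≤ J N ⊔ J' N := by
    by_contra hcon
    push Not at hcon
    have := hJ.le_of_ge (y := fun n => J n ⊔ J' n) ⟨hsup, hcon⟩ (fun n => le_sup_left)
    exact hn₀ (le_trans le_sup_right (this n₀))
  obtain ⟨N, hN⟩ := this
  refine ⟨N, fun n hn => ?_⟩
  obtain ⟨m, rfl⟩ := Nat.exists_eq_add_of_le hn
  refine (hF.le_mul N m).trans (Submodule.mul_le.2 fun x hx y hy => ?_)
  exact hsup.rmul (hN hx) hy

variable {J : ℕ → Submodule k B}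

lemma MaxFam.max' (hJ : MaxFam ρ F J) {s : ℕ} {J' : ℕ → Submodule k B} (hJ' : Fam ρ F s J')
    (hne : ∃ n, ¬ J' n ≤ J (n + s)) : ∃ N, ∀ n, N ≤ n → F (n + s) ≤ J (n + s) ⊔ J' n := by
  refine (hJ.maxi (fun l => if s ≤ l then J' (l - s) else ⊥) ⟨?_, ?_, ?_⟩ ?_).elim ?_
  rotate_right
  · intro N hN
    refine ⟨N, fun n hn => ?_⟩
    simpa using hN (n + s) (by omega)
  · intro l
    split_ifs with h
    · simpa [Nat.sub_add_cancel h] using hJ'.le (l - s)
    · exact bot_le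
  · intro l x h hx
    split_ifs at hx ⊢ with hl
    · exact hJ'.stab h hx
    · rw [Submodule.mem_bot] at hx ⊢
      rw [hx, map_zero]
  · intro l m x y hx hy
    split_ifs at hx ⊢ with h1 h2 h2
    · rw [show l + m - s = l - s + m by omega]
      exact hJ'.rmul hx hy
    · rw [Submodule.mem_bot] at hx
      rw [hx, zero_mul]; exact zero_mem _
    · omega
    · rw [Submodule.mem_bot] at hx ⊢
      rw [hx, zero_mul]
  · obtain ⟨n, hn⟩ := hne
    exact ⟨n + s, by simpa using hn⟩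

/-- The orbit `H · b`. -/
def orb (ρ : H →ₐ[k] Module.End k B) (b : B) : Submodule k B :=
  LinearMap.range ((LinearMap.applyₗ b) ∘ₗ ρ.toLinearMap)

lemma mem_orb {b x : B} : x ∈ orb ρ b ↔ ∃ h, ρ h b = x := Iff.rfl

lemma MaxFam.gen (hρ : IsMA ρ) (hF : Filt ρ F) (hJ : MaxFam ρ F J) {d : ℕ} {b : B}
    (hb : b ∈ F d) (hb' : b ∉ J d) :
    ∃ N, ∀ n, N ≤ n → F (n + d) ≤ J (n + d) ⊔ orb ρ b * F n := by
  refine hJ.max' (J' := fun n => orb ρ b * F n) ⟨?_, ?_, ?_⟩ ⟨0, ?_⟩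
  · intro n
    refine Submodule.mul_le.2 ?_
    rintro _ ⟨h, rfl⟩ y hy
    rw [add_comm]
    exact hF.mul_mem (hF.stab h hb) hy
  · intro n x h hx
    refine Submodule.mul_induction_on hx ?_ ?_
    · rintro _ ⟨g, rfl⟩ y hy
      rw [hρ.mul]
      refine Submodule.sum_mem _ fun p _ => Submodule.mul_mem_mul ⟨p.1 * g, ?_⟩ (hF.stab _ hy)
      simp
    · intro x y hx hy
      rw [map_add]; exact add_mem hx hy
  · intro n m x y hx hy
    refine Submodule.mul_induction_on hx ?_ ?_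
    · intro a ha c hc
      rw [mul_assoc]
      exact Submodule.mul_mem_mul ha (hF.mul_mem hc hy)
    · intro a c ha hc
      rw [add_mul]; exact add_mem ha hc
  · intro hle
    apply hb'
    have := hle (Submodule.mul_mem_mul (mem_orb.2 ⟨1, rfl⟩) hF.one_mem)
    simpa using this

lemma MaxFam.ann (hS : ∀ h : H, antipode k (antipode k h) = h) (hρ : IsMA ρ) (hF : Filt ρ F)
    (hJ : MaxFam ρ F J) {d : ℕ} {b : B} (hb : b ∈ F d) (hb' : b ∉ J d) {n : ℕ} {a : B}
    (ha : a ∈ F n) (hab : ∀ h, ρ h b * a ∈ J (n + d)) : a ∈ J n := by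
  by_contra hcon
  set A : ℕ → Submodule k B := fun n =>
    F n ⊓ ⨅ h, (J (n + d)).comap (LinearMap.mulLeft k (ρ h b)) with hA
  have hmem : ∀ n a, a ∈ A n ↔ a ∈ F n ∧ ∀ h, ρ h b * a ∈ J (n + d) := by
    intro n a; simp [hA]
  refine (hJ.maxi A ⟨fun n => inf_le_left, ?_, ?_⟩
    ⟨n, fun hle => hcon (hle ((hmem n a).2 ⟨ha, hab⟩))⟩).elim ?_
  rotate_right
  · intro N' hN'
    obtain ⟨N, hN⟩ := hJ.gen hρ hF hb hb'
    apply hJ.ne (max N N' + d)
    refine (hN _ (le_max_left _ _)).trans (sup_le le_rfl (Submodule.mul_le.2 ?_))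
    rintro _ ⟨h, rfl⟩ y hy
    obtain ⟨j, hj, c, hc, rfl⟩ := Submodule.mem_sup.1 (hN' _ (le_max_right _ _) hy)
    rw [mul_add]
    exact add_mem (hJ.fam.lmul hF (hF.stab h hb) hj) (((hmem _ _).1 hc).2 h)
  · intro n x g hx
    rw [hmem] at hx ⊢
    refine ⟨hF.stab g hx.1, fun h => ?_⟩
    rw [hρ.c3 hS]
    refine Submodule.sum_mem _ fun p _ => hJ.fam.stab _ ?_
    have := hx.2 (antipode k p.1 * h)
    simpa using this
  · intro n m x y hx hy
    rw [hmem] at hx ⊢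
    refine ⟨hF.mul_mem hx.1 hy, fun h => ?_⟩
    rw [← mul_assoc, add_right_comm]
    exact hJ.fam.rmul (hx.2 h) hy

end Pool.Agent.MP_57c94c_al.H65
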