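import Pool.Agent.MP_57c94c_al.H65.Corr

/-!
# A family containing the invariants of positive degree is eventually everything
-/

namespace Pool.Agent.MP_57c94c_al.H65

open Coalgebra HopfAlgebra

variable {k H B : Type*} [Field k] [Ring H] [HopfAlgebra k H] [Ring B] [Algebra k B]
  {ρ : H →ₐ[k] Module.End k B} {F J : ℕ → Submodule k B}

lemma exists_factor {W V V' : Type*} [AddCommGroup W] [Module k W] [AddCommGroup V] [Module k V]
    [AddCommGroup V'] [Module k V'] (p : W →ₗ[k] V) (q : W →ₗ[k] V')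
    (hp : Function.Surjective p) (h : ∀ w, p w = 0 → q w = 0) :
    ∃ ψ : V →ₗ[k] V', ∀ w, ψ (p w) = q w := by
  obtain ⟨g, hg⟩ := p.exists_rightInverse_of_surjective (LinearMap.range_eq_top.2 hp)
  refine ⟨q ∘ₗ g, fun w => ?_⟩
  have h1 : p (g (p w) - w) = 0 := by
    rw [map_sub, ← LinearMap.comp_apply p g, hg, LinearMap.id_apply, sub_self]
  have h2 := h _ h1
  rw [map_sub, sub_eq_zero] at h2
  exact h2

lemma exists_qact (hF : Filt ρ F) (hJ : Fam ρ F 0 J) (n : ℕ) :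
    ∃ ρ' : H →ₐ[k] Module.End k (Qt F J n), ∀ h (x : F n),
      ρ' h (qmk F J n x) = qmk F J n ⟨ρ h x, hF.stab h x.2⟩ := by
  obtain ⟨ρ₁, h₁⟩ := exists_act_sub ρ (F n) fun h x hx => hF.stab h hx
  obtain ⟨ρ₂, h₂⟩ := exists_act_quot ρ₁ ((J n).comap (F n).subtype) fun h x hx => by
    change (ρ₁ h x : B) ∈ J n
    rw [h₁]; exact hJ.stab h hx
  refine ⟨ρ₂, fun h x => (h₂ h x).trans ?_⟩
  exact congrArg (qmk F J n) (Subtype.ext (h₁ h x))

lemma qmk_congr {n : ℕ} {x y : F n} (h : x.1 - y.1 ∈ J n) : qmk F J n x = qmk F J n y := by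
  rw [← sub_eq_zero, ← map_sub, qmk_eq_zero]; exact h

lemma Corr.exists_psi {e N n : ℕ} {U : ℕ → B → B → Prop} (hU : Corr ρ F J e N U) (hn : N ≤ n) :
    ∃ ψ : Qt F J (n + e) →ₗ[k] Qt F J n, ∀ (a : F n) (a' : F (n + e)), U n a a' →
      ψ (qmk F J (n + e) a') = qmk F J n a := by
  let W : Submodule k (F n × F (n + e)) :=
    { carrier := {p | U n p.1 p.2}
      add_mem' := fun ha hb => hU.add ha hb
      zero_mem' := by
        obtain ⟨a', ha'⟩ := hU.tot hn (zero_mem (F n))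
        simpa using hU.smul 0 ha'
      smul_mem' := fun c _ ha => hU.smul c ha }
  let p : W →ₗ[k] Qt F J (n + e) := qmk F J (n + e) ∘ₗ LinearMap.snd k _ _ ∘ₗ W.subtype
  let q : W →ₗ[k] Qt F J n := qmk F J n ∘ₗ LinearMap.fst k _ _ ∘ₗ W.subtype
  obtain ⟨ψ, hψ⟩ := exists_factor (W := W) p q (fun v => by
    obtain ⟨a', rfl⟩ := qmk_surj v
    obtain ⟨a, ha⟩ := hU.onto hn a'.2
    exact ⟨⟨(⟨a, (hU.mem ha).1⟩, a'), ha⟩, rfl⟩)
    (fun w hw => qmk_eq_zero.2 (hU.inj w.2 (qmk_eq_zero.1 hw)))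
  exact ⟨ψ, fun a a' h => hψ ⟨(a, a'), h⟩⟩

lemma Corr.false [CharZero k] (hS : ∀ h : H, antipode k (antipode k h) = h) (hρ : IsMA ρ)
    (hF : Filt ρ F) (hJ : MaxFam ρ F J) {N n : ℕ} {U : ℕ → B → B → Prop}
    (hU : Corr ρ F J n N U) (hn : N ≤ n) {Λ : H} (hΛ : counit (R := k) Λ = 1)
    (hinv : ∀ z ∈ F n, ρ Λ z ∈ J n) : False := by
  obtain ⟨ψ, hψ⟩ := hU.exists_psi hn
  obtain ⟨σ, hσ⟩ := exists_qact hF hJ.fam n
  have := hF.fin n
  have := hJ.nontrivial n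
  let A : Submodule k (Module.End k (Qt F J n)) :=
    { carrier := {T | ∃ z, ∃ hz : z ∈ F n, ∀ v : F n,
        T (qmk F J n v) = ψ (qmk F J (n + n) ⟨z * v, hF.mul_mem hz v.2⟩)}
      add_mem' := by
        rintro T T' ⟨z, hz, h⟩ ⟨z', hz', h'⟩
        refine ⟨z + z', add_mem hz hz', fun v => ?_⟩
        rw [LinearMap.add_apply, h, h', ← map_add, ← map_add]
        exact congrArg _ (congrArg _ (Subtype.ext (add_mul _ _ _).symm))
      zero_mem' := ⟨0, zero_mem _, fun v => by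
        rw [LinearMap.zero_apply, qmk_eq_zero.2 (by simp), map_zero]⟩
      smul_mem' := by
        rintro c T ⟨z, hz, h⟩
        refine ⟨c • z, Submodule.smul_mem _ c hz, fun v => ?_⟩
        rw [LinearMap.smul_apply, h, ← map_smul, ← map_smul]
        exact congrArg _ (congrArg _ (Subtype.ext (smul_mul_assoc _ _ _).symm)) }
  have hsub : ∀ {l a a' b}, U l a a' → U l b a' → a - b ∈ J l := by
    intro l a a' b h1 h2
    have := hU.add h1 (hU.smul (-1) h2)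
    refine (by simpa [sub_eq_add_neg] using hU.inj this (by simp))
  obtain ⟨T, ⟨z, hz, hT⟩, htr⟩ := exists_trace_ne_zero A (by
    rintro T ⟨z, hz, hT⟩ T' ⟨w, hw, hT'⟩
    obtain ⟨u, hu⟩ := hU.onto hn (hF.mul_mem hz hw)
    refine ⟨u, (hU.mem hu).1, fun v => ?_⟩
    obtain ⟨v', hv'⟩ := hU.onto hn (hF.mul_mem hw v.2)
    rw [Module.End.mul_apply, hT', hψ ⟨v', (hU.mem hv').1⟩ _ hv', hT]
    refine congrArg _ (qmk_congr (hsub (hU.lmul hF hv' hz) ?_))
    rw [← mul_assoc]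
    exact hU.rmul hu v.2) (by
    intro W hW
    rw [eq_top_iff]
    rintro x -
    obtain ⟨v, rfl⟩ := qmk_surj x
    obtain ⟨v', hv'⟩ := hU.tot hn v.2
    rw [← hψ v ⟨v', (hU.mem hv').2⟩ hv']
    have hle : F (n + n) ≤ ((W.comap ψ).comap (qmk F J (n + n))).map (F (n + n)).subtype := by
      refine (hF.le_mul n n).trans (Submodule.mul_le.2 fun z hz w hw => ?_)
      obtain ⟨L, hL⟩ := exists_lm hF hJ.fam (rfl : n + n = n + n) hz
      refine ⟨⟨z * w, hF.mul_mem hz hw⟩, ?_, rfl⟩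
      have := hW (ψ ∘ₗ L) ⟨z, hz, fun v => congrArg ψ (hL v _)⟩ (qmk F J n ⟨w, hw⟩)
      rw [LinearMap.comp_apply, hL ⟨w, hw⟩ (hF.mul_mem hz hw)] at this
      exact this
    obtain ⟨a, ha, h⟩ := hle (hU.mem hv').2
    obtain rfl : a = ⟨v', (hU.mem hv').2⟩ := Subtype.ext h
    exact ha)
  have hequiv : ∀ h (a' : F (n + n)), σ h (ψ (qmk F J (n + n) a')) =
      ψ (qmk F J (n + n) ⟨ρ h a', hF.stab h a'.2⟩) := by
    intro h a'
    obtain ⟨a, ha⟩ := hU.onto hn a'.2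
    rw [hψ ⟨a, (hU.mem ha).1⟩ _ ha, hσ,
      hψ ⟨ρ h a, hF.stab h (hU.mem ha).1⟩ ⟨ρ h a', hF.stab h a'.2⟩ (hU.stab h ha)]
  have hzero : ∑ p ∈ cp k Λ, σ p.1 * T * σ (antipode k p.2) = 0 := by
    refine LinearMap.ext fun x => ?_
    obtain ⟨v, rfl⟩ := qmk_surj x
    simp only [LinearMap.sum_apply, Module.End.mul_apply, hσ, hT, hequiv, LinearMap.zero_apply]
    rw [← map_sum, ← map_sum, qmk_eq_zero.2, map_zero]
    have := hJ.fam.rmul (hinv z hz) v.2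
    rw [hρ.c2] at this
    simpa using this
  have := trace_ad hS σ T Λ
  rw [hzero, map_zero, hΛ, one_mul] at this
  exact htr this.symm

theorem Fam.eventually_top [CharZero k] [FiniteDimensional k H]
    (hS : ∀ h : H, antipode k (antipode k h) = h) (hρ : IsMA ρ) (hF : Filt ρ F)
    {I : ℕ → Submodule k B} (hI : Fam ρ F 0 I) {Λ : H} (hΛ : counit (R := k) Λ = 1)
    (hinv : ∀ n, 0 < n → ∀ z ∈ F n, ρ Λ z ∈ I n) : ∃ N, F N ≤ I N := by
  by_contra hcon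
  push Not at hcon
  obtain ⟨J, hJ, hIJ⟩ := exists_maxFam hF hI hcon
  obtain ⟨e, N, U, he, hU⟩ := hJ.exists_corr hS hρ hF
  obtain ⟨U', hU'⟩ := hU.iter N
  have h1 : N + 1 ≤ (N + 1) * e := Nat.le_mul_of_pos_right _ he
  exact hU'.false hS hρ hF hJ (by omega) hΛ fun z hz => hIJ _ (hinv _ (by omega) z hz)

end Pool.Agent.MP_57c94c_al.H65
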