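import Pool.Agent.MP_57c94c_al.H65.Basic

/-!
# Integrals, Radford's formula and the trace formula for semisimple Hopf algebras
-/

namespace Pool.Agent.MP_57c94c_al.H65

open Coalgebra HopfAlgebra TensorProduct

variable {k H : Type*} [Field k] [Ring H] [HopfAlgebra k H]

lemma exists_integral (k H : Type*) [Field k] [Ring H] [HopfAlgebra k H] [IsSemisimpleRing H] :
    ∃ Λ : H, (∀ h, h * Λ = counit (R := k) h • Λ) ∧ (∀ h, Λ * h = counit (R := k) h • Λ) ∧
      counit (R := k) Λ = 1 := by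
  let K : Submodule H H :=
    { carrier := {x | counit (R := k) x = 0}
      add_mem' := fun ha hb => by
        simp only [Set.mem_ofPred_eq] at ha hb ⊢
        rw [map_add, ha, hb, add_zero]
      zero_mem' := map_zero _
      smul_mem' := fun c x hx => by
        simp only [Set.mem_ofPred_eq] at hx ⊢
        rw [smul_eq_mul, Bialgebra.counit_mul, hx, mul_zero] }
  obtain ⟨L, hL⟩ := exists_isCompl K
  obtain ⟨a, ha, Λ, hΛ, h1⟩ := Submodule.mem_sup.1
    (hL.sup_eq_top ▸ Submodule.mem_top : (1 : H) ∈ K ⊔ L)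
  have ha' : counit (R := k) a = 0 := ha
  have hΛ1 : counit (R := k) Λ = 1 := by
    have := congrArg (counit (R := k)) h1
    simpa [ha'] using this
  have hl : ∀ h, h * Λ = counit (R := k) h • Λ := by
    intro h
    have h2 : (h - counit (R := k) h • 1) * Λ ∈ K ⊓ L :=
      ⟨by change counit (R := k) _ = 0; simp, L.smul_mem _ hΛ⟩
    rw [hL.inf_eq_bot, Submodule.mem_bot, sub_mul, sub_eq_zero] at h2
    simpa using h2
  refine ⟨Λ, hl, fun h => ?_, hΛ1⟩
  let L0 : Submodule H H :=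
    { carrier := {x | (∀ h, h * x = counit (R := k) h • x) ∧ counit (R := k) x = 0}
      add_mem' := fun ha hb => ⟨fun h => by rw [mul_add, ha.1, hb.1, smul_add], by
        rw [map_add, ha.2, hb.2, add_zero]⟩
      zero_mem' := ⟨fun h => by simp, map_zero _⟩
      smul_mem' := fun c x hx => by
        rw [smul_eq_mul, hx.1]
        exact ⟨fun h => by rw [mul_smul_comm, hx.1, smul_comm], by rw [map_smul, hx.2, smul_zero]⟩ }
  obtain ⟨L', hL'⟩ := exists_isCompl L0
  obtain ⟨e, he, e', he', h2⟩ := Submodule.mem_sup.1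
    (hL'.sup_eq_top ▸ Submodule.mem_top : (1 : H) ∈ L0 ⊔ L')
  have h0 : ∀ x ∈ L0, x = 0 := by
    intro x hx
    have h3 : x * e = 0 := by rw [he.1, hx.2, zero_smul]
    have h4 : x = x * e' := by rw [← zero_add (x * e'), ← h3, ← mul_add, h2, mul_one]
    have h5 : x ∈ L0 ⊓ L' := ⟨hx, by rw [h4]; exact L'.smul_mem x he'⟩
    rwa [hL'.inf_eq_bot, Submodule.mem_bot] at h5
  rw [← sub_eq_zero]
  refine h0 _ ⟨fun g => ?_, by simp [hΛ1]⟩
  rw [mul_sub, ← mul_assoc, hl, mul_smul_comm, hl, smul_sub, smul_mul_assoc, smul_comm]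

variable {M : Type*} [AddCommGroup M] [Module k M]

lemma cp_int_right (β : H →ₗ[k] H →ₗ[k] M) {Λ : H}
    (hΛ : ∀ h, Λ * h = counit (R := k) h • Λ) (h : H) :
    ∑ p ∈ cp k Λ, β (p.1 * h) p.2 = ∑ p ∈ cp k Λ, β p.1 (p.2 * antipode k h) := by
  have h1 : ∀ a : H, ∀ γ : H →ₗ[k] H →ₗ[k] M,
      ∑ p ∈ cp k Λ, ∑ q ∈ cp k a, γ (p.1 * q.1) (p.2 * q.2) =
        counit (R := k) a • ∑ p ∈ cp k Λ, γ p.1 p.2 := by
    intro a γ
    rw [← cp_mul, hΛ, sum_cp_lift, sum_cp_lift, map_smul, map_smul]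
  have h2 : ∀ x y : H, β (x * h) y =
      ∑ r ∈ cp k h, ∑ q ∈ cp k r.1, β (x * q.1) (y * q.2 * antipode k r.2) := by
    intro x y
    have := cp_cancel_right (M := M)
      ((β ∘ₗ LinearMap.mulLeft k x).compl₂ (LinearMap.mulLeft k y))
      ((LinearMap.mul k H).compl₂ (antipode k)) 1 (by simpa using cp_mul_S) h
    simpa [mul_assoc] using this.symm
  simp only [h2]
  rw [Finset.sum_comm]
  have h3 : ∀ r ∈ cp k h, ∑ p ∈ cp k Λ, ∑ q ∈ cp k r.1,
      β (p.1 * q.1) (p.2 * q.2 * antipode k r.2) =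
      counit (R := k) r.1 • ∑ p ∈ cp k Λ, β p.1 (p.2 * antipode k r.2) := fun r _ =>
    h1 r.1 (β.compl₂ (LinearMap.mulRight k (antipode k r.2)))
  rw [Finset.sum_congr rfl h3]
  have := cp_counit_left (M := M)
    (∑ p ∈ cp k Λ, β p.1 ∘ₗ LinearMap.mulLeft k p.2 ∘ₗ antipode k) h
  simpa using this

lemma cp_int_left' (β : H →ₗ[k] H →ₗ[k] M) {Λ : H}
    (hΛ : ∀ h, h * Λ = counit (R := k) h • Λ) (h : H) :
    ∑ p ∈ cp k Λ, β p.1 (h * p.2) = ∑ p ∈ cp k Λ, β (antipode k h * p.1) p.2 := by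
  have h1 : ∀ a : H, ∀ γ : H →ₗ[k] H →ₗ[k] M,
      ∑ q ∈ cp k a, ∑ p ∈ cp k Λ, γ (q.1 * p.1) (q.2 * p.2) =
        counit (R := k) a • ∑ p ∈ cp k Λ, γ p.1 p.2 := by
    intro a γ
    rw [← cp_mul, hΛ, sum_cp_lift, sum_cp_lift, map_smul, map_smul]
  have h2 : ∀ x y : H, β x (h * y) =
      ∑ r ∈ cp k h, ∑ q ∈ cp k r.2, β (antipode k r.1 * (q.1 * x)) (q.2 * y) := by
    intro x y
    have := cp_cancel_left (M := M)
      ((β ∘ₗ LinearMap.mulRight k x).compl₂ (LinearMap.mulRight k y))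
      ((LinearMap.mul k H) ∘ₗ antipode k) 1 (by simpa using cp_S_mul) h
    simpa [mul_assoc] using this.symm
  simp only [h2]
  rw [Finset.sum_comm]
  have h3 : ∀ r ∈ cp k h, ∑ p ∈ cp k Λ, ∑ q ∈ cp k r.2,
      β (antipode k r.1 * (q.1 * p.1)) (q.2 * p.2) =
      counit (R := k) r.2 • ∑ p ∈ cp k Λ, β (antipode k r.1 * p.1) p.2 := by
    intro r _
    rw [Finset.sum_comm]
    exact h1 r.2 (β ∘ₗ LinearMap.mulLeft k (antipode k r.1))
  rw [Finset.sum_congr rfl h3]
  have := cp_counit_right (M := M)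
    (∑ p ∈ cp k Λ, β.flip p.2 ∘ₗ LinearMap.mulRight k p.1 ∘ₗ antipode k) h
  simpa using this

lemma sum_mem_of_forall_dual {ι : Type*} (s : Finset ι) (a b : ι → H) (W : Submodule k H)
    (hW : ∀ f : Module.Dual k H, ∑ i ∈ s, f (b i) • a i ∈ W) (γ : H →ₗ[k] H →ₗ[k] M)
    (M' : Submodule k M) (hγ : ∀ w ∈ W, ∀ v, γ w v ∈ M') : ∑ i ∈ s, γ (a i) (b i) ∈ M' := by
  classical
  let 𝒞 := Module.Basis.ofVectorSpace k H
  obtain ⟨c, hc⟩ := TensorProduct.eq_repr_basis_right 𝒞 (∑ i ∈ s, a i ⊗ₜ[k] b i)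
  have h1 : ∀ j, c j ∈ W := by
    intro j
    have := congrArg (TensorProduct.lift ((LinearMap.lsmul k H).flip.compl₂ (𝒞.coord j))) hc
    simp only [Finsupp.sum, map_sum, lift.tmul, LinearMap.compl₂_apply, LinearMap.flip_apply,
      LinearMap.lsmul_apply, Module.Basis.coord_apply, Module.Basis.repr_self] at this
    rw [Finset.sum_eq_single j (fun i _ hi => by simp [Finsupp.single_eq_of_ne hi.symm])
      (fun hj => by simp [Finsupp.notMem_support_iff.1 hj])] at this
    simp only [Finsupp.single_eq_same, one_smul] at this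
    rw [this]
    exact hW (𝒞.coord j)
  have := congrArg (TensorProduct.lift γ) hc
  simp only [Finsupp.sum, map_sum, lift.tmul] at this
  rw [← this]
  exact Submodule.sum_mem _ fun j _ => hγ _ (h1 j) _

/-- The map `f ↦ Λ₁ f(Λ₂)`. -/
noncomputable def phiL (k : Type*) [Field k] [HopfAlgebra k H] (Λ : H) :
    Module.Dual k H →ₗ[k] H :=
  ∑ p ∈ cp k Λ, (LinearMap.applyₗ p.2 : Module.Dual k H →ₗ[k] k).smulRight p.1

/-- The map `f ↦ f(Λ₁) Λ₂`. -/
noncomputable def phiR (k : Type*) [Field k] [HopfAlgebra k H] (Λ : H) :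
    Module.Dual k H →ₗ[k] H :=
  ∑ p ∈ cp k Λ, (LinearMap.applyₗ p.1 : Module.Dual k H →ₗ[k] k).smulRight p.2

lemma phiL_apply (Λ : H) (f : Module.Dual k H) : phiL k Λ f = ∑ p ∈ cp k Λ, f p.2 • p.1 := by
  simp [phiL]

lemma phiR_apply (Λ : H) (f : Module.Dual k H) : phiR k Λ f = ∑ p ∈ cp k Λ, f p.1 • p.2 := by
  simp [phiR]

/-- The bilinear map `(a, b) ↦ f(b) a`. -/
noncomputable def bL (f : Module.Dual k H) : H →ₗ[k] H →ₗ[k] H :=
  (LinearMap.lsmul k H).flip.compl₂ f

@[simp] lemma bL_apply (f : Module.Dual k H) (a b : H) : bL f a b = f b • a := rfl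

variable {Λ : H}

lemma phiL_mul (hr : ∀ h, Λ * h = counit (R := k) h • Λ) (f : Module.Dual k H) (h : H) :
    phiL k Λ (f ∘ₗ LinearMap.mulRight k (antipode k h)) = phiL k Λ f * h := by
  simpa [phiL_apply, Finset.sum_mul] using (cp_int_right (bL f) hr h).symm

lemma phiL_mul' (hl : ∀ h, h * Λ = counit (R := k) h • Λ) (f : Module.Dual k H) (h : H) :
    phiL k Λ (f ∘ₗ LinearMap.mulLeft k h) = antipode k h * phiL k Λ f := by
  simpa [phiL_apply, Finset.mul_sum] using cp_int_left' (bL f) hl h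

lemma phiR_mul (hr : ∀ h, Λ * h = counit (R := k) h • Λ) (f : Module.Dual k H) (h : H) :
    phiR k Λ (f ∘ₗ LinearMap.mulRight k h) = phiR k Λ f * antipode k h := by
  simpa [phiR_apply, Finset.sum_mul] using cp_int_right (bL f).flip hr h

lemma phiR_mul' (hl : ∀ h, h * Λ = counit (R := k) h • Λ) (f : Module.Dual k H) (h : H) :
    phiR k Λ (f ∘ₗ LinearMap.mulLeft k (antipode k h)) = h * phiR k Λ f := by
  simpa [phiR_apply, Finset.mul_sum] using (cp_int_left' (bL f).flip hl h).symm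

lemma phiL_surj (hr : ∀ h, Λ * h = counit (R := k) h • Λ) (h1 : counit (R := k) Λ = 1) :
    Function.Surjective (phiL k Λ) := by
  have hW : ∀ w ∈ LinearMap.range (phiL k Λ), ∀ v, w * v ∈ LinearMap.range (phiL k Λ) := by
    rintro _ ⟨f, rfl⟩ v
    exact ⟨_, phiL_mul hr f v⟩
  have := sum_mem_of_forall_dual (cp k Λ) Prod.fst Prod.snd (LinearMap.range (phiL k Λ))
    (fun f => ⟨f, phiL_apply Λ f⟩) ((LinearMap.mul k H).compl₂ (antipode k)) _
    (fun w hw v => hW w hw _)
  simp only [LinearMap.compl₂_apply, LinearMap.mul_apply', cp_mul_S, h1, one_smul] at this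
  intro v
  simpa using hW 1 this v

lemma phiR_surj (hl : ∀ h, h * Λ = counit (R := k) h • Λ) (h1 : counit (R := k) Λ = 1) :
    Function.Surjective (phiR k Λ) := by
  have hW : ∀ w ∈ LinearMap.range (phiR k Λ), ∀ v, v * w ∈ LinearMap.range (phiR k Λ) := by
    rintro _ ⟨f, rfl⟩ v
    exact ⟨_, phiR_mul' hl f v⟩
  have := sum_mem_of_forall_dual (cp k Λ) Prod.snd Prod.fst (LinearMap.range (phiR k Λ))
    (fun f => ⟨f, phiR_apply Λ f⟩) ((LinearMap.mul k H).flip.compl₂ (antipode k)) _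
    (fun w hw v => hW w hw _)
  simp only [LinearMap.compl₂_apply, LinearMap.flip_apply, LinearMap.mul_apply', cp_S_mul, h1,
    one_smul] at this
  intro v
  simpa using hW 1 this v

lemma finite_of_integral (hr : ∀ h, Λ * h = counit (R := k) h • Λ)
    (h1 : counit (R := k) Λ = 1) : FiniteDimensional k H := by
  classical
  refine ⟨⟨(cp k Λ).image Prod.fst, eq_top_iff.2 fun v _ => ?_⟩⟩
  obtain ⟨f, rfl⟩ := phiL_surj hr h1 v
  rw [phiL_apply]
  exact Submodule.sum_mem _ fun p hp => Submodule.smul_mem _ _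
    (Submodule.subset_span (Finset.mem_coe.2 (Finset.mem_image_of_mem _ hp)))

lemma antipode_inj (hr : ∀ h, Λ * h = counit (R := k) h • Λ) (h1 : counit (R := k) Λ = 1)
    {h : H} (hh : antipode k h = 0) : h = 0 := by
  obtain ⟨f, hf⟩ := phiL_surj hr h1 1
  have := phiL_mul hr f h
  rw [hh, hf, one_mul] at this
  rw [← this]
  simp [phiL_apply]

lemma co3_left (f : Module.Dual k H) (β : H →ₗ[k] H →ₗ[k] M) (h : H) :
    ∑ p ∈ cp k h, ∑ q ∈ cp k p.1, f q.1 • β q.2 p.2 =
      ∑ p ∈ cp k h, ∑ q ∈ cp k p.2, f p.1 • β q.1 q.2 := by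
  simpa using cp_co3 (f.smulRight β) h

lemma co3_right (f : Module.Dual k H) (β : H →ₗ[k] H →ₗ[k] M) (h : H) :
    ∑ p ∈ cp k h, ∑ q ∈ cp k p.1, f p.2 • β q.1 q.2 =
      ∑ p ∈ cp k h, ∑ q ∈ cp k p.2, f q.2 • β p.1 q.1 := by
  simpa using cp_co3 (β.compr₂ (LinearMap.smulRightₗ f)) h

theorem exists_lam (hl : ∀ h, h * Λ = counit (R := k) h • Λ)
    (hr : ∀ h, Λ * h = counit (R := k) h • Λ) (h1 : counit (R := k) Λ = 1) :
    ∃ (lam : Module.Dual k H) (g : H), IsGroupLikeElem k g ∧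
      (∀ h, ∑ q ∈ cp k h, lam q.2 • q.1 = lam h • g) ∧
      (∀ b, g * b = antipode k (antipode k (antipode k (antipode k b))) * g) ∧
      ∀ f : H →ₗ[k] H, LinearMap.trace k H (f ∘ₗ antipode k) =
        ∑ p ∈ cp k Λ, lam (p.1 * f p.2) := by
  have := finite_of_integral hr h1
  have hLi : Function.Injective (phiL k Λ) :=
    (LinearMap.injective_iff_surjective_of_finrank_eq_finrank Subspace.dual_finrank_eq).2
      (phiL_surj hr h1)
  have hRi : Function.Injective (phiR k Λ) :=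
    (LinearMap.injective_iff_surjective_of_finrank_eq_finrank Subspace.dual_finrank_eq).2
      (phiR_surj hl h1)
  obtain ⟨lam, hlam⟩ := phiR_surj hl h1 1
  have hL1 : ∀ h, ∑ q ∈ cp k h, lam q.1 • q.2 = lam h • (1 : H) := by
    intro h
    obtain ⟨f, rfl⟩ := phiL_surj hr h1 h
    have e1 := co3_left lam (bL f) Λ
    have e2 := sum_cp_lift (bL lam).flip (phiL k Λ f)
    simp only [LinearMap.flip_apply, bL_apply] at e1 e2
    rw [e2, phiL_apply, map_sum, map_sum]
    simp only [map_smul, ← sum_cp_lift, LinearMap.flip_apply, bL_apply, Finset.smul_sum,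
      smul_comm (f _) (lam _)]
    rw [e1]
    have e3 := congrArg (TensorProduct.lift (bL f) ∘ₗ comul) hlam
    rw [phiR_apply, map_sum] at e3
    simp only [map_smul, LinearMap.comp_apply, ← sum_cp_lift] at e3
    rw [cp_one (bL f)] at e3
    simp only [bL_apply, Finset.smul_sum] at e3
    rw [e3]
    have e4 := congrArg f hlam
    rw [phiR_apply, map_sum] at e4
    rw [← e4, map_sum]
    simp [mul_comm]
  set g := phiL k Λ lam with hg
  have hL2 : ∀ h, ∑ q ∈ cp k h, lam q.2 • q.1 = lam h • g := by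
    intro h
    rw [← sub_eq_zero, ← Module.forall_dual_apply_eq_zero_iff k]
    intro f
    let lam' : Module.Dual k H := f ∘ₗ TensorProduct.lift (bL lam) ∘ₗ comul
    have hl' : ∀ x, lam' x = ∑ q ∈ cp k x, f q.1 * lam q.2 := fun x => by
      simp [lam', ← sum_cp_lift, map_sum, mul_comm]
    have e0 : lam' = f g • lam := by
      apply hRi
      have e1 := co3_left f (bL lam).flip Λ
      simp only [LinearMap.flip_apply, bL_apply, ← Finset.smul_sum, hL1] at e1
      rw [map_smul, hlam, phiR_apply]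
      simp only [hl', Finset.sum_smul, mul_smul]
      rw [e1, hg, phiL_apply, map_sum, Finset.sum_smul]
      simp [smul_smul, mul_comm]
    have e2 := LinearMap.congr_fun e0 h
    rw [hl'] at e2
    simp only [map_sub, map_sum, map_smul, smul_eq_mul, mul_comm (lam _), e2,
      LinearMap.smul_apply, sub_self]
  have hlΛ : lam Λ = 1 := by
    have e1 := congrArg (counit (R := k)) hlam
    rw [phiR_apply, map_sum] at e1
    rw [← cp_counit_right lam Λ]
    simpa [mul_comm] using e1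
  have hgl : IsGroupLikeElem k g := by
    constructor
    · rw [hg, phiL_apply, map_sum, ← hlΛ, ← cp_counit_left lam Λ]
      simp [mul_comm]
    · have e1 := co3_right lam (TensorProduct.mk k H H) Λ
      simp only [TensorProduct.mk_apply, ← tmul_smul, ← tmul_sum, hL2] at e1
      conv_lhs => rw [hg, phiL_apply, map_sum]
      simp only [map_smul, ← sum_cp, Finset.smul_sum, ← tmul_smul]
      rw [e1]
      conv_rhs => enter [2]; rw [hg, phiL_apply]
      rw [sum_tmul]
      simp only [tmul_smul, smul_tmul']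
  have hS1 : ∀ h, phiR k Λ (lam ∘ₗ LinearMap.mulRight k h) = antipode k h := fun h => by
    rw [phiR_mul hr, hlam, one_mul]
  have hN1 : ∀ a x, lam (x * a) = lam (antipode k (antipode k a) * x) := by
    intro a x
    have : lam ∘ₗ LinearMap.mulRight k a =
        lam ∘ₗ LinearMap.mulLeft k (antipode k (antipode k a)) :=
      hRi (by rw [hS1, phiR_mul' hl, hlam, mul_one])
    exact LinearMap.congr_fun this x
  have hmu : phiL k Λ (lam ∘ₗ LinearMap.mulRight k g) = 1 := by
    have := phiL_mul hr lam (antipode k g)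
    rwa [hgl.antipode_antipode, ← hg, hgl.mul_antipode_cancel] at this
  have hN2 : ∀ a x, lam (a * x * g) = lam (x * antipode k (antipode k a) * g) := by
    intro a x
    have : (lam ∘ₗ LinearMap.mulRight k g) ∘ₗ LinearMap.mulLeft k a =
        (lam ∘ₗ LinearMap.mulRight k g) ∘ₗ LinearMap.mulRight k (antipode k (antipode k a)) :=
      hLi (by rw [phiL_mul hr, phiL_mul' hl, hmu, one_mul, mul_one])
    exact LinearMap.congr_fun this x
  refine ⟨lam, g, hgl, hL2, fun b => ?_, fun f => ?_⟩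
  · rw [← sub_eq_zero]
    refine antipode_inj hr h1 ?_
    rw [← hS1]
    refine (congrArg _ (LinearMap.ext fun x => ?_)).trans (map_zero _)
    change lam (x * _) = 0
    rw [mul_sub, map_sub, ← mul_assoc, hN1, ← mul_assoc, hN2, mul_assoc, sub_self]
  · have : f ∘ₗ antipode k =
        ∑ p ∈ cp k Λ, (lam ∘ₗ LinearMap.mulLeft k p.1).smulRight (f p.2) := by
      ext h
      rw [LinearMap.comp_apply, ← hS1, phiR_apply, map_sum]
      simp
    rw [this, map_sum]
    simp [LinearMap.trace_smulRight]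

end Pool.Agent.MP_57c94c_al.H65
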