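import Pool.Agent.MP_57c94c_al.H65.Base
import Pool.Agent.MP_57c94c_al.Defs

/-!
# Dilation: from module algebras to the algebra `H_par`
-/

namespace Pool.Agent.MP_57c94c_al.H65

open Coalgebra HopfAlgebra TensorProduct

variable {k H : Type*} [Field k] [Ring H] [HopfAlgebra k H]

section ad

variable {E : Type*} [Ring E] [Algebra k E]

lemma exists_ad (j : H →ₐ[k] E) : ∃ ad : H →ₐ[k] Module.End k E, IsMA ad ∧
    ∀ h x, ad h x = ∑ p ∈ cp k h, j p.1 * x * j (antipode k p.2) := by
  let β : H →ₗ[k] H →ₗ[k] Module.End k E := LinearMap.mk₂ k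
    (fun a b => LinearMap.mulRight k (j (antipode k b)) * LinearMap.mulLeft k (j a))
    (by intros; ext; simp [add_mul]) (by intros; ext; simp)
    (by intros; ext; simp [mul_add]) (by intros; ext; simp)
  let adl : H →ₗ[k] Module.End k E := TensorProduct.lift β ∘ₗ comul
  have h1 : ∀ h, adl h = ∑ p ∈ cp k h, β p.1 p.2 := fun h => (sum_cp_lift β h).symm
  have h2 : ∀ h x, adl h x = ∑ p ∈ cp k h, j p.1 * x * j (antipode k p.2) := fun h x => by
    simp [h1, β]
  refine ⟨AlgHom.ofLinearMap adl ?_ ?_, ⟨?_, ?_⟩, h2⟩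
  · rw [h1, cp_one]; ext; simp [β]
  · intro a b
    rw [h1, cp_mul]
    ext x
    simp [β, h2, antipode_mul_antidistrib, Finset.mul_sum, Finset.sum_mul, mul_assoc]
  · intro h x y
    change adl h _ = ∑ p ∈ cp k h, adl p.1 x * adl p.2 y
    have h3 := cp_co3 (M := E) (LinearMap.mk₂ k
      (fun a b => LinearMap.mulLeft k (j a * x * j (antipode k b)) ∘ₗ LinearMap.applyₗ y ∘ₗ adl)
      (by intros; ext; simp [add_mul, mul_assoc]) (by intros; ext; simp [mul_assoc])
      (by intros; ext; simp [mul_add, add_mul, mul_assoc]) (by intros; ext; simp [mul_assoc])) h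
    simp only [LinearMap.mk₂_apply, LinearMap.comp_apply, LinearMap.applyₗ_apply_apply,
      LinearMap.mulLeft_apply] at h3
    simp only [h2 _ x, Finset.sum_mul]
    rw [h3, h2]
    refine Finset.sum_congr rfl fun p _ => ?_
    have h4 := cp_cancel_left (M := E) (LinearMap.mk₂ k
      (fun a b => j p.1 * x * (j a * y * j (antipode k b)))
      (by intros; simp [add_mul, mul_add]) (by intros; simp)
      (by intros; simp [mul_add]) (by intros; simp))
      ((LinearMap.mul k H) ∘ₗ antipode k) 1 (by simpa using cp_S_mul) p.2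
    simpa [h2, Finset.mul_sum, mul_assoc] using h4.symm
  · intro h
    change adl h 1 = _
    have := congrArg j (cp_mul_S (k := k) h)
    simpa [h2, map_sum] using this

variable {j : H →ₐ[k] E} {ad : H →ₐ[k] Module.End k E}

lemma ad_comm (had : ∀ h x, ad h x = ∑ p ∈ cp k h, j p.1 * x * j (antipode k p.2)) (h : H)
    (x : E) : j h * x = ∑ p ∈ cp k h, ad p.1 x * j p.2 := by
  have := cp_cancel_right (M := E) (LinearMap.mk₂ k (fun a b => j a * x * j b)
      (by intros; simp [add_mul]) (by intros; simp)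
      (by intros; simp [mul_add]) (by intros; simp))
      ((LinearMap.mul k H) ∘ₗ antipode k) 1 (by simpa using cp_S_mul) h
  simpa [had, Finset.sum_mul, mul_assoc] using this.symm

lemma ad_comm' (hS : ∀ h : H, antipode k (antipode k h) = h)
    (had : ∀ h x, ad h x = ∑ p ∈ cp k h, j p.1 * x * j (antipode k p.2)) (h : H)
    (y : E) : ∑ p ∈ cp k h, j p.2 * ad (antipode k p.1) y = y * j h := by
  have := cp_cancel_left (M := E) (LinearMap.mk₂ k (fun a b => ad a y * j b)
      (by intros; simp [add_mul]) (by intros; simp)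
      (by intros; simp [mul_add]) (by intros; simp))
      ((LinearMap.mul k H).flip ∘ₗ antipode k) 1 (by simpa using cp_mul_S' hS) h
  simp only [ad_comm had]
  simpa using this

lemma exists_act_subalg (hρ : IsMA ad) (S : Subalgebra k E) (hS : ∀ h, ∀ x ∈ S, ad h x ∈ S) :
    ∃ ρ : H →ₐ[k] Module.End k S, IsMA ρ ∧ ∀ h x, (ρ h x : E) = ad h x := by
  refine ⟨AlgHom.ofLinearMap
    { toFun := fun h =>
        { toFun := fun x => ⟨ad h x, hS h x x.2⟩
          map_add' := by intros; ext; simp
          map_smul' := by intros; ext; simp }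
      map_add' := by intros; ext; simp
      map_smul' := by intros; ext; simp } (by ext; simp) (by intros; ext; simp),
    ⟨fun h x y => ?_, fun h => ?_⟩, fun h x => rfl⟩
  · ext; simp [hρ.mul]
  · ext; simp [hρ.one]

end ad

theorem par_core [CharZero k] [FiniteDimensional k H]
    (hS : ∀ h : H, antipode k (antipode k h) = h)
    {Λ : H} (hΛ : ∀ h, h * Λ = counit (R := k) h • Λ) (hΛ1 : counit (R := k) Λ = 1)
    {P : Type*} [Ring P] [Algebra k P] (br : H →ₗ[k] P)
    (hgenP : ∀ S : Subalgebra k P, (∀ h, br h ∈ S) → S = ⊤)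
    {N : Type*} [AddCommGroup N] [Module k N] (j : H →ₐ[k] Module.End k N) (φ' : P →ₗ[k] N)
    (ev : N →ₗ[k] P) (hevφ : ∀ m, ev (φ' m) = m) (hevj : ∀ h m, ev (j h (φ' m)) = br h * m)
    (T : Module.End k N) (hT : ∀ f, T f = φ' (ev f))
    (hTc' : ∀ h, T * ∑ p ∈ cp k h, j p.1 * T * j (antipode k p.2) =
      (∑ p ∈ cp k h, j p.1 * T * j (antipode k p.2)) * T) :
    Module.Finite k P ∧ IsSemisimpleRing P := by
  obtain ⟨ad, hma, had⟩ := exists_ad j
  have hTc : ∀ h, T * ad h T = ad h T * T := fun h => by rw [had]; exact hTc' h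
  let B := Algebra.adjoin k (Set.range fun h => ad h T)
  have hBst : ∀ h, ∀ x ∈ B, ad h x ∈ B := by
    intro h x hx
    induction hx using Algebra.adjoin_induction generalizing h with
    | mem x hx =>
      obtain ⟨g, rfl⟩ := hx
      exact Algebra.subset_adjoin ⟨h * g, by simp⟩
    | algebraMap c =>
      rw [Algebra.algebraMap_eq_smul_one, map_smul, hma.one]
      exact B.smul_mem (B.smul_mem B.one_mem _) _
    | add x y _ _ hx hy => rw [map_add]; exact add_mem (hx h) (hy h)
    | mul x y _ _ hx hy => rw [hma.mul]; exact sum_mem fun p _ => mul_mem (hx _) (hy _)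
  obtain ⟨ρ, hρ, hρv⟩ := exists_act_subalg hma B hBst
  let t : B := ⟨T, Algebra.subset_adjoin ⟨1, by simp⟩⟩
  have ht : t * t = t := Subtype.ext (LinearMap.ext fun f => by
    change T (T f) = T f
    rw [hT, hT, hevφ])
  have htc : ∀ a : B, t * a = a * t := fun a => Subtype.ext
    (Algebra.commute_of_mem_adjoin_of_forall_mem_commute a.2 (by
      rintro _ ⟨h, rfl⟩; exact hTc h)).eq
  have hgen : ∀ S : Subalgebra k B, (∀ h, ρ h t ∈ S) → S = ⊤ := by
    intro S hSt
    have : B ≤ S.map B.val := Algebra.adjoin_le (by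
      rintro _ ⟨h, rfl⟩; exact ⟨ρ h t, hSt h, hρv h t⟩)
    rw [eq_top_iff]
    rintro a -
    obtain ⟨a', ha', h⟩ := this a.2
    obtain rfl : a' = a := Subtype.ext h
    exact ha'
  have := finite_of_gen hS hρ hΛ hΛ1 ht htc hgen
  have hTj : ∀ h m, φ' (br h * m) = T (j h (φ' m)) := fun h m => by rw [hT, hevj]
  have hind : ∀ Q : P → Prop, (∀ c, Q (algebraMap k P c)) → (∀ a b, Q a → Q b → Q (a + b)) →
      (∀ a b, Q a → Q b → Q (a * b)) → (∀ h, Q (br h)) → ∀ a, Q a := by
    intro Q h1 h2 h3 h4 a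
    let S : Subalgebra k P :=
      { carrier := {a | Q a}
        mul_mem' := fun ha hb => h3 _ _ ha hb
        add_mem' := fun ha hb => h2 _ _ ha hb
        algebraMap_mem' := h1 }
    exact (hgenP S h4 ▸ Algebra.mem_top : a ∈ S)
  constructor
  · let q : B ⊗[k] H →ₗ[k] N := TensorProduct.lift (LinearMap.mk₂ k
      (fun b h => b.1 (j h (φ' 1))) (by intros; simp) (by intros; simp)
      (by intros; simp) (by intros; simp))
    have hq : ∀ b h, q (b ⊗ₜ h) = b.1 (j h (φ' 1)) := fun b h => rfl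
    have hqT : ∀ v ∈ LinearMap.range q, T v ∈ LinearMap.range q := by
      rintro _ ⟨w, rfl⟩
      induction w with
      | zero => simp
      | tmul b h => exact ⟨(t * b) ⊗ₜ h, rfl⟩
      | add x y hx hy => rw [map_add, map_add]; exact add_mem hx hy
    have hqj : ∀ g, ∀ v ∈ LinearMap.range q, j g v ∈ LinearMap.range q := by
      rintro g _ ⟨w, rfl⟩
      induction w with
      | zero => simp
      | tmul b h =>
        rw [hq, ← Module.End.mul_apply, ad_comm had, LinearMap.sum_apply]
        refine Submodule.sum_mem _ fun p _ => ⟨ρ p.1 b ⊗ₜ (p.2 * h), ?_⟩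
        simp [hq, hρv]
      | add x y hx hy => rw [map_add, map_add]; exact add_mem hx hy
    refine Module.Finite.of_surjective (ev ∘ₗ q) fun a => ?_
    have := hind (fun a => ∀ m, φ' m ∈ LinearMap.range q → φ' (a * m) ∈ LinearMap.range q)
      (fun c m hm => by rw [← Algebra.smul_def, map_smul]; exact Submodule.smul_mem _ c hm)
      (fun a b ha hb m hm => by rw [add_mul, map_add]; exact add_mem (ha m hm) (hb m hm))
      (fun a b ha hb m hm => by rw [mul_assoc]; exact ha _ (hb m hm))
      (fun h m hm => by rw [hTj]; exact hqT _ (hqj _ _ hm)) a 1 ⟨1 ⊗ₜ 1, by simp [hq]⟩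
    obtain ⟨w, hw⟩ := this
    exact ⟨w, by rw [LinearMap.comp_apply, hw, hevφ, mul_one]⟩
  · obtain ⟨n, x, y, hc⟩ := exists_cas hS hρ (nondeg_of_gen hS hρ hΛ hΛ1 ht htc hgen)
    refine { exists_isCompl := fun M' => ?_ }
    let N' : Submodule k N := Submodule.span k {f | ∃ h, ∃ m ∈ M', f = j h (φ' m)}
    have hφN' : ∀ m ∈ M', φ' m ∈ N' := fun m hm => Submodule.subset_span ⟨1, m, hm, by simp⟩
    have hevN' : ∀ v ∈ N', ev v ∈ M' := by
      intro v hv
      refine Submodule.span_induction (p := fun v _ => ev v ∈ M') ?_ (by simp)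
        (fun x y _ _ hx hy => by rw [map_add]; exact add_mem hx hy)
        (fun c x _ hx => by
          rw [map_smul, Algebra.smul_def]; exact M'.smul_mem _ hx) hv
      rintro _ ⟨g, m, hm, rfl⟩
      rw [hevj]; exact M'.smul_mem _ hm
    have hjN' : ∀ h, ∀ v ∈ N', j h v ∈ N' := by
      intro h v hv
      refine Submodule.span_induction (p := fun v _ => j h v ∈ N') ?_ (by simp)
        (fun x y _ _ hx hy => by rw [map_add]; exact add_mem hx hy)
        (fun c x _ hx => by rw [map_smul]; exact Submodule.smul_mem _ c hx) hv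
      rintro _ ⟨g, m, hm, rfl⟩
      exact Submodule.subset_span ⟨h * g, m, hm, by simp⟩
    have hBN' : ∀ b ∈ B, ∀ v ∈ N', b v ∈ N' := by
      intro b hb
      induction hb using Algebra.adjoin_induction with
      | mem x hx =>
        obtain ⟨g, rfl⟩ := hx
        intro v hv
        simp only [had, LinearMap.sum_apply, Module.End.mul_apply]
        exact Submodule.sum_mem _ fun p _ => hjN' _ _ (by
          rw [hT]; exact hφN' _ (hevN' _ (hjN' _ _ hv)))
      | algebraMap c => intro v hv; exact N'.smul_mem c hv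
      | add x y _ _ hx hy => intro v hv; exact add_mem (hx v hv) (hy v hv)
      | mul x y _ _ hx hy => intro v hv; exact hx _ (hy v hv)
    obtain ⟨g₀, hg₀⟩ := LinearMap.exists_extend (LinearMap.id : N' →ₗ[k] N')
    let p₁ : Module.End k N := avg j j Λ (N'.subtype ∘ₗ g₀)
    have hp₁m : ∀ v, p₁ v ∈ N' := fun v => by
      rw [avg_apply]
      exact Submodule.sum_mem _ fun p _ => hjN' _ _ (g₀ _).2
    have hp₁f : ∀ v ∈ N', p₁ v = v := fun v hv => by
      rw [avg_apply]
      have h0 : ∀ w ∈ N', (N'.subtype ∘ₗ g₀) w = w := fun w hw =>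
        congrArg Subtype.val (LinearMap.congr_fun hg₀ ⟨w, hw⟩)
      rw [Finset.sum_congr rfl fun p _ => by rw [h0 _ (hjN' _ _ hv)], sum_act_S, hΛ1, one_smul]
    have hp₁j : ∀ h, j h * p₁ = p₁ * j h := fun h => LinearMap.ext (avg_equiv j j hΛ _ h)
    let p₂ : Module.End k N := ∑ i, (x i).1 * p₁ * (y i).1
    have hp₂m : ∀ v, p₂ v ∈ N' := fun v => by
      simp only [p₂, LinearMap.sum_apply, Module.End.mul_apply]
      exact Submodule.sum_mem _ fun i _ => hBN' _ (x i).2 _ (hp₁m _)
    have hp₂f : ∀ v ∈ N', p₂ v = v := fun v hv => by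
      simp only [p₂, LinearMap.sum_apply, Module.End.mul_apply]
      rw [Finset.sum_congr rfl fun i _ => by rw [hp₁f _ (hBN' _ (y i).2 _ hv)]]
      have := congrArg (fun b : B => b.1 v) hc.one
      simpa using this
    let γ : Module.End k N → B →ₗ[k] B →ₗ[k] Module.End k N := fun u => LinearMap.mk₂ k
      (fun a b => a.1 * u * b.1) (by intros; simp [add_mul]) (by intros; simp)
      (by intros; simp [mul_add]) (by intros; simp)
    have hp₂T : T * p₂ = p₂ * T := by
      have := hc.mul' (γ p₁) t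
      simpa [γ, p₂, t, Finset.mul_sum, Finset.sum_mul, mul_assoc] using this
    have hp₂j : ∀ h, j h * p₂ = p₂ * j h := by
      intro h
      calc j h * p₂ = ∑ p ∈ cp k h, ∑ i, γ (p₁ * j p.2) (ρ (antipode k (antipode k p.1)) (x i))
            (y i) := by
            rw [Finset.sum_comm, Finset.mul_sum]
            refine Finset.sum_congr rfl fun i _ => ?_
            rw [← mul_assoc, ← mul_assoc, ad_comm had, Finset.sum_mul, Finset.sum_mul]
            refine Finset.sum_congr rfl fun p _ => ?_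
            simp [γ, hS, hρv, ← hp₁j, mul_assoc]
        _ = p₂ * j h := by
            simp only [hc.act']
            rw [Finset.sum_comm, Finset.sum_mul]
            refine Finset.sum_congr rfl fun i _ => ?_
            rw [mul_assoc, ← ad_comm' hS had, Finset.mul_sum]
            simp [γ, hρv, mul_assoc]
    let q₀ : P →ₗ[k] P := ev ∘ₗ p₂ ∘ₗ φ'
    have hq₀ : ∀ m, q₀ m = ev (p₂ (φ' m)) := fun m => rfl
    have hq₀φ : ∀ m, φ' (q₀ m) = p₂ (φ' m) := fun m => by
      rw [hq₀, ← hT, ← Module.End.mul_apply, hp₂T, Module.End.mul_apply, hT, hevφ]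
    have hq₀m := hind (fun a => ∀ m, q₀ (a * m) = a * q₀ m)
      (fun c m => by rw [← Algebra.smul_def, map_smul, Algebra.smul_def])
      (fun a b ha hb m => by rw [add_mul, map_add, ha, hb, add_mul])
      (fun a b ha hb m => by rw [mul_assoc, ha, hb, mul_assoc])
      (fun h m => by
        rw [hq₀, hTj, ← Module.End.mul_apply p₂, ← hp₂T, Module.End.mul_apply, hT, hevφ,
          ← Module.End.mul_apply p₂, ← hp₂j, Module.End.mul_apply, ← hq₀φ, hevj])
    let q : P →ₗ[P] M' :=
      { toFun := fun m => ⟨q₀ m, hevN' _ (hp₂m _)⟩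
        map_add' := fun a b => Subtype.ext (map_add q₀ a b)
        map_smul' := fun a m => Subtype.ext (hq₀m a m) }
    refine ⟨_, LinearMap.isCompl_of_proj (f := q) fun m => Subtype.ext ?_⟩
    change q₀ m = m
    rw [hq₀, hp₂f _ (hφN' _ m.2), hevφ]

theorem par_abstract [CharZero k] [FiniteDimensional k H]
    (hS : ∀ h : H, antipode k (antipode k h) = h)
    {Λ : H} (hΛ : ∀ h, h * Λ = counit (R := k) h • Λ) (hΛ1 : counit (R := k) Λ = 1)
    {P : Type*} [Ring P] [Algebra k P] (br : H →ₗ[k] P) (hu : br 1 = 1)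
    (hl : ∀ h x, br h * ∑ p ∈ cp k x, br p.1 * br (antipode k p.2) =
      ∑ p ∈ cp k x, br (h * p.1) * br (antipode k p.2))
    (hr : ∀ h x, (∑ p ∈ cp k h, br p.1 * br (antipode k p.2)) * br x =
      ∑ p ∈ cp k h, br p.1 * br (antipode k p.2 * x))
    (hgenP : ∀ S : Subalgebra k P, (∀ h, br h ∈ S) → S = ⊤) :
    Module.Finite k P ∧ IsSemisimpleRing P := by
  let jX : H →ₐ[k] Module.End k (H →ₗ[k] P) := AlgHom.ofLinearMap
    { toFun := fun h => LinearMap.lcomp k P (LinearMap.mulRight k h)
      map_add' := by intros; ext; simp [mul_add]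
      map_smul' := by intros; ext; simp } (by ext; simp) (by intros; ext; simp [mul_assoc])
  have hjX : ∀ h f x, jX h f x = f (x * h) := fun h f x => rfl
  let φ : P →ₗ[k] (H →ₗ[k] P) := ((LinearMap.mul k P) ∘ₗ br).flip
  have hφ : ∀ m x, φ m x = br x * m := fun m x => rfl
  let N : Submodule k (H →ₗ[k] P) := Submodule.span k {f | ∃ h m, f = jX h (φ m)}
  have hφN : ∀ m, φ m ∈ N := fun m => Submodule.subset_span ⟨1, m, by simp⟩
  obtain ⟨j, hj⟩ := exists_act_sub jX N fun h f hf => by
    refine Submodule.span_induction (p := fun f _ => jX h f ∈ N) ?_ (by simp)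
      (fun x y _ _ hx hy => by rw [map_add]; exact add_mem hx hy)
      (fun c x _ hx => by rw [map_smul]; exact Submodule.smul_mem _ c hx) hf
    rintro _ ⟨g, m, rfl⟩
    exact Submodule.subset_span ⟨h * g, m, by simp⟩
  let φ' : P →ₗ[k] N := φ.codRestrict N hφN
  let ev : N →ₗ[k] P := LinearMap.applyₗ 1 ∘ₗ N.subtype
  have hev : ∀ f, ev f = f.1 1 := fun f => rfl
  have hevφ : ∀ m, ev (φ' m) = m := fun m => by
    change br 1 * m = m
    rw [hu, one_mul]
  have hevj : ∀ h m, ev (j h (φ' m)) = br h * m := fun h m => by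
    rw [hev, hj, hjX, one_mul]; rfl
  let T : Module.End k N := φ' ∘ₗ ev
  have hT : ∀ f, T f = φ' (ev f) := fun f => rfl
  have hTv : ∀ f x, (T f).1 x = br x * f.1 1 := fun f x => rfl
  have hNext : ∀ f g : Module.End k N, (∀ h m, f (j h (φ' m)) = g (j h (φ' m))) → f = g := by
    intro f g hfg
    refine LinearMap.ext fun ⟨v, hv⟩ => ?_
    refine Submodule.span_induction (p := fun v hv => f ⟨v, hv⟩ = g ⟨v, hv⟩) ?_ ?_ ?_ ?_ hv
    · rintro _ ⟨h, m, rfl⟩
      have : (⟨jX h (φ m), Submodule.subset_span ⟨h, m, rfl⟩⟩ : N) = j h (φ' m) :=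
        Subtype.ext (hj h (φ' m)).symm
      rw [this, hfg]
    · exact (map_zero f).trans (map_zero g).symm
    · intro x y hx hy h1 h2
      have : (⟨x + y, add_mem hx hy⟩ : N) = ⟨x, hx⟩ + ⟨y, hy⟩ := rfl
      rw [this, map_add, map_add, h1, h2]
    · intro c x hx h1
      have : (⟨c • x, N.smul_mem c hx⟩ : N) = c • ⟨x, hx⟩ := rfl
      rw [this, map_smul, map_smul, h1]
  have hadT : ∀ h f x, ((∑ p ∈ cp k h, j p.1 * T * j (antipode k p.2)) f).1 x =
      ∑ p ∈ cp k h, br (x * p.1) * f.1 (antipode k p.2) := by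
    intro h f x
    simp [hj, hjX, hTv]
  refine par_core (N := N) hS hΛ hΛ1 br hgenP j φ' ev hevφ hevj T hT fun h => ?_
  refine hNext _ _ fun g m => ?_
  refine Subtype.ext (LinearMap.ext fun x => ?_)
  have h0 : ∀ y, (φ' m).1 y = br y * m := fun y => rfl
  simp only [Module.End.mul_apply, hTv, hadT, hj, hjX, one_mul, h0, ← mul_assoc,
    ← Finset.sum_mul]
  rw [← hr, ← hl]
  simp only [mul_assoc]

theorem hpar_of_invol [CharZero k] [FiniteDimensional k H]
    (hS : ∀ h : H, antipode k (antipode k h) = h)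
    {Λ : H} (hΛ : ∀ h, h * Λ = counit (R := k) h • Λ) (hΛ1 : counit (R := k) Λ = 1) :
    Module.Finite k (HPar k H) ∧ IsSemisimpleRing (HPar k H) := by
  let mk := RingQuot.mkAlgHom k (ParRel k H)
  have hsw : ∀ (f g : H →ₗ[k] TensorAlgebra k H) x,
      sweedler k H f g x = ∑ p ∈ cp k x, f p.1 * g p.2 := by
    intro f g x
    rw [sweedler, ← sum_cp k x]
    simp [map_sum]
  refine par_abstract hS hΛ hΛ1 (mk.toLinearMap ∘ₗ TensorAlgebra.ι k) ?_ ?_ ?_ ?_
  · simpa using RingQuot.mkAlgHom_rel k (ParRel.unit (k := k) (H := H))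
  · intro h x
    simpa [hsw, map_sum] using RingQuot.mkAlgHom_rel k (ParRel.left (k := k) h x)
  · intro h x
    simpa [hsw, map_sum] using RingQuot.mkAlgHom_rel k (ParRel.right (k := k) h x)
  · intro S hSt
    rw [eq_top_iff]
    rintro a -
    obtain ⟨a, rfl⟩ := RingQuot.mkAlgHom_surjective k (ParRel k H) a
    induction a using TensorAlgebra.induction with
    | algebraMap c => rw [AlgHom.commutes]; exact S.algebraMap_mem c
    | ι x => exact hSt x
    | mul a b ha hb => rw [map_mul]; exact mul_mem ha hb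
    | add a b ha hb => rw [map_add]; exact add_mem ha hb

end Pool.Agent.MP_57c94c_al.H65
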