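import Mathlib

/-!
# The trace of a finite-order automorphism of an augmented semisimple algebra is nonzero
-/

namespace Pool.Agent.MP_57c94c_al.H65

open Polynomial

variable {K : Type*} [Field K] [CharZero K] [IsAlgClosed K]

/-- Elements of `K` that are algebraic numbers with nonnegative real part under `ψ`. -/
def NN (ψ : algebraicClosure ℚ K →ₐ[ℚ] ℂ) (x : K) : Prop :=
  ∃ y : algebraicClosure ℚ K, (y : K) = x ∧ 0 ≤ (ψ y).re

section

variable {V : Type*} [AddCommGroup V] [Module K V] [FiniteDimensional K V]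

lemma trace_conj_pair (ψ : algebraicClosure ℚ K →ₐ[ℚ] ℂ) (u : Module.End K V) {M : ℕ}
    (hu : u ^ (M + 1) = 1) :
    NN ψ (LinearMap.trace K V u * LinearMap.trace K V (u ^ M)) := by
  classical
  have hss : u.IsSemisimple := Module.End.isSemisimple_of_squarefree_aeval_eq_zero
    (separable_X_pow_sub_C (n := M + 1) (1 : K) (Nat.cast_ne_zero.2 (Nat.succ_ne_zero M))
      one_ne_zero).squarefree (by simp [hu])
  have hint := DirectSum.isInternal_submodule_of_iSupIndep_of_iSup_eq_top
    u.eigenspaces_iSupIndep hss.iSup_eigenspace_eq_top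
  have hN : {c | u.eigenspace c ≠ ⊥}.Finite :=
    WellFoundedGT.finite_ne_bot_of_iSupIndep u.eigenspaces_iSupIndep
  have hpow : ∀ (j : ℕ) (c : K), ∀ v ∈ u.eigenspace c, (u ^ j) v = c ^ j • v := by
    intro j c v hv
    induction j with
    | zero => simp
    | succ j ih =>
      rw [pow_succ', Module.End.mul_apply, ih, map_smul, Module.End.mem_eigenspace_iff.1 hv,
        smul_smul, pow_succ]
  have htr : ∀ j : ℕ, LinearMap.trace K V (u ^ j) =
      ∑ c ∈ hN.toFinset, (Module.finrank K (u.eigenspace c) : K) * c ^ j := by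
    intro j
    have hf : ∀ c, Set.MapsTo (u ^ j) (u.eigenspace c) (u.eigenspace c) := fun c v hv => by
      rw [hpow j c v hv]; exact Submodule.smul_mem _ _ hv
    rw [LinearMap.trace_eq_sum_trace_restrict' hint hN hf]
    refine Finset.sum_congr rfl fun c _ => ?_
    have : (u ^ j).restrict (hf c) = c ^ j • LinearMap.id :=
      LinearMap.ext fun v => Subtype.ext (hpow j c v v.2)
    rw [this, map_smul, LinearMap.trace_id, smul_eq_mul, mul_comm]
  have hroot : ∀ c ∈ hN.toFinset, c ^ (M + 1) = 1 := by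
    intro c hc
    obtain ⟨v, hv, hv0⟩ := (Submodule.ne_bot_iff _).1 (hN.mem_toFinset.1 hc)
    have := hpow (M + 1) c v hv
    rw [hu, Module.End.one_apply] at this
    exact smul_left_injective K hv0 (by simpa using this.symm)
  have hmem : ∀ c ∈ hN.toFinset, c ∈ algebraicClosure ℚ K := fun c hc =>
    mem_algebraicClosure_iff'.2 (IsIntegral.of_pow (Nat.succ_pos M)
      (by rw [hroot c hc]; exact isIntegral_one))
  let z : hN.toFinset → algebraicClosure ℚ K := fun c => ⟨c, hmem c c.2⟩
  have hz : ∀ c, ψ (z c) ^ M = (starRingEnd ℂ) (ψ (z c)) := by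
    intro c
    have h1 : ψ (z c) ^ (M + 1) = 1 := by
      rw [← map_pow, show z c ^ (M + 1) = 1 from Subtype.ext (by simpa using hroot c c.2), map_one]
    have h2 : ‖ψ (z c)‖ = 1 := Complex.norm_eq_one_of_pow_eq_one h1 (Nat.succ_ne_zero M)
    rw [← Complex.inv_eq_conj h2]
    exact eq_inv_of_mul_eq_one_left (by rw [← pow_succ, h1])
  refine ⟨(∑ c, (Module.finrank K (u.eigenspace c.1) : algebraicClosure ℚ K) * z c) *
    ∑ c, (Module.finrank K (u.eigenspace c.1) : algebraicClosure ℚ K) * z c ^ M, ?_, ?_⟩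
  · have h1 := htr 1
    rw [pow_one] at h1
    rw [h1, htr M, ← Finset.sum_coe_sort hN.toFinset, ← Finset.sum_coe_sort hN.toFinset]
    simp [z]
  · have : ψ (∑ c, (Module.finrank K (u.eigenspace c.1) : algebraicClosure ℚ K) * z c ^ M) =
        (starRingEnd ℂ)
          (ψ (∑ c, (Module.finrank K (u.eigenspace c.1) : algebraicClosure ℚ K) * z c)) := by
      simp [map_sum, hz]
    rw [map_mul, this, Complex.mul_conj, Complex.ofReal_re]
    exact Complex.normSq_nonneg _

omit [CharZero K] [IsAlgClosed K] in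
lemma trace_mulLR (u v : Module.End K V) :
    LinearMap.trace K _ (LinearMap.mulLeft K u ∘ₗ LinearMap.mulRight K v) =
      LinearMap.trace K V u * LinearMap.trace K V v := by
  classical
  let b := Module.finBasis K V
  have h1 : ∀ w : Module.End K V, LinearMap.trace K V w = ∑ i, b.coord i (w (b i)) := fun w => by
    rw [LinearMap.trace_eq_matrix_trace K b, Matrix.trace]
    simp [LinearMap.toMatrix_apply]
  have h2 : LinearMap.mulLeft K u ∘ₗ LinearMap.mulRight K v = ∑ i, ∑ j,
      (b.coord i ∘ₗ u ∘ₗ LinearMap.applyₗ (v (b j))).smulRight ((b.coord j).smulRight (b i)) := by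
    refine LinearMap.ext fun x => b.ext fun l => ?_
    simp [Finsupp.single_apply]
  rw [h2, h1, h1, Finset.sum_mul_sum]
  simp [map_sum, LinearMap.trace_smulRight, mul_comm]

lemma trace_aut_NN (ψ : algebraicClosure ℚ K →ₐ[ℚ] ℂ)
    (τ : Module.End K V →ₐ[K] Module.End K V) {M : ℕ} (hτ : τ ^ (M + 1) = 1) :
    NN ψ (LinearMap.trace K _ τ.toLinearMap) := by
  have hbij : Function.Bijective τ := by
    constructor
    · refine Function.LeftInverse.injective (g := ⇑(τ ^ M)) fun x => ?_
      rw [← AlgHom.mul_apply, ← pow_succ, hτ, AlgHom.one_apply]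
    · refine Function.RightInverse.surjective (g := ⇑(τ ^ M)) fun x => ?_
      rw [← AlgHom.mul_apply, ← pow_succ', hτ, AlgHom.one_apply]
  obtain ⟨T, hT⟩ := (AlgEquiv.ofBijective τ hbij).eq_linearEquivConjAlgEquiv
  have h1 : ∀ x, τ x * (T : Module.End K V) = (T : Module.End K V) * x := fun x => by
    have : τ x = T.conjAlgEquiv K x := by rw [← hT]; rfl
    rw [this]; ext v; simp
  have h2 : ∀ (j : ℕ) x,
      (τ ^ j) x * (T : Module.End K V) ^ j = (T : Module.End K V) ^ j * x := by
    intro j
    induction j with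
    | zero => simp
    | succ j ih =>
      intro x
      rw [pow_succ' τ, AlgHom.mul_apply, pow_succ' (T : Module.End K V), ← mul_assoc, h1,
        mul_assoc, ih, mul_assoc]
  have h3 : (T : Module.End K V) ^ (M + 1) ∈ Subalgebra.center K (Module.End K V) :=
    Subalgebra.mem_center_iff.2 fun x => by simpa [hτ] using h2 (M + 1) x
  obtain ⟨c, hc⟩ := (Algebra.IsCentral.mem_center_iff K).1 h3
  rcases subsingleton_or_nontrivial V with hV | hV
  · exact ⟨0, by simp [Subsingleton.elim τ.toLinearMap 0], by simp⟩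
  have hc0 : c ≠ 0 := by
    rintro rfl
    have hu : IsUnit ((T : Module.End K V) ^ (M + 1)) :=
      ((Module.End.isUnit_iff _).2 T.bijective).pow _
    rw [hc, map_zero] at hu
    exact not_isUnit_zero hu
  obtain ⟨z, hz⟩ := IsAlgClosed.exists_pow_nat_eq c⁻¹ (Nat.succ_pos M)
  set u : Module.End K V := z • (T : Module.End K V) with hu
  have hu1 : u ^ (M + 1) = 1 := by
    rw [hu, _root_.smul_pow, hz, hc, Algebra.algebraMap_eq_smul_one, smul_smul, inv_mul_cancel₀ hc0,
      one_smul]
  have h4 : τ.toLinearMap = LinearMap.mulLeft K u ∘ₗ LinearMap.mulRight K (u ^ M) := by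
    refine LinearMap.ext fun x => ?_
    have h5 : τ x * u = u * x := by rw [hu, mul_smul_comm, h1, smul_mul_assoc]
    change τ x = u * (x * u ^ M)
    rw [← mul_assoc, ← h5, mul_assoc, ← pow_succ', hu1, mul_one]
  rw [h4, trace_mulLR]
  exact trace_conj_pair ψ u hu1

end

lemma trace_pi_ne_zero {n : ℕ} (V : Fin n → Type*) [∀ i, AddCommGroup (V i)]
    [∀ i, Module K (V i)] [∀ i, FiniteDimensional K (V i)]
    [∀ i, IsSimpleRing (Module.End K (V i))]
    (σ : (Π i, Module.End K (V i)) →ₐ[K] Π i, Module.End K (V i)) {M : ℕ} (hσ : σ ^ (M + 1) = 1)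
    (ε : (Π i, Module.End K (V i)) →ₐ[K] K) (hε : ∀ a, ε (σ a) = ε a) :
    LinearMap.trace K _ σ.toLinearMap ≠ 0 := by
  classical
  have : Algebra.IsAlgebraic ℚ (algebraicClosure ℚ K) := ⟨fun x =>
    (isAlgebraic_algebraMap_iff (algebraMap (algebraicClosure ℚ K) K).injective).1
      (mem_algebraicClosure_iff.1 x.2)⟩
  let ψ : algebraicClosure ℚ K →ₐ[ℚ] ℂ := IsAlgClosed.lift
  let τ : ∀ i, Module.End K (V i) →ₗ[K] Module.End K (V i) := fun i =>
    LinearMap.proj i ∘ₗ σ.toLinearMap ∘ₗ LinearMap.single K (fun i => Module.End K (V i)) i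
  have hτ : ∀ i x, τ i x = σ (Pi.single i x) i := fun i x => rfl
  have htr : LinearMap.trace K _ σ.toLinearMap = ∑ i, LinearMap.trace K _ (τ i) := by
    have : σ.toLinearMap = ∑ i, (σ.toLinearMap ∘ₗ
        LinearMap.single K (fun i => Module.End K (V i)) i) ∘ₗ LinearMap.proj i := by
      refine LinearMap.ext fun x => ?_
      conv_lhs => rw [← Finset.univ_sum_single x, map_sum]
      simp
    rw [this, map_sum]
    exact Finset.sum_congr rfl fun i _ => LinearMap.trace_comp_comm' _ _
  have hsurj : ∀ j : ℕ, Function.Surjective (σ ^ j) := by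
    have : Function.Surjective σ := Function.RightInverse.surjective (g := ⇑(σ ^ M)) fun x => by
      rw [← AlgHom.mul_apply, ← pow_succ', hσ, AlgHom.one_apply]
    intro j
    rw [AlgHom.coe_pow]
    exact this.iterate j
  have hec : ∀ i (a : Π i, Module.End K (V i)), Pi.single i 1 * a = a * Pi.single i 1 := by
    intro i a; funext j
    by_cases h : j = i
    · subst h; simp
    · simp [Pi.single_eq_of_ne h]
  have hes : ∀ i (a : Π i, Module.End K (V i)), Pi.single i 1 * a = Pi.single i (a i) := by
    intro i a; funext j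
    by_cases h : j = i
    · subst h; simp
    · simp [Pi.single_eq_of_ne h]
  have h01 : ∀ (j : ℕ) i, (σ ^ j) (Pi.single i 1) i = 0 ∨ (σ ^ j) (Pi.single i 1) i = 1 := by
    intro j i
    have h1 : (σ ^ j) (Pi.single i 1) i ∈ Subalgebra.center K (Module.End K (V i)) := by
      refine Subalgebra.mem_center_iff.2 fun x => ?_
      obtain ⟨a, ha⟩ := hsurj j (Pi.single i x)
      have := congrFun (congrArg (σ ^ j) (hec i a)) i
      rw [map_mul, map_mul, ha] at this
      simpa using this.symm
    obtain ⟨c, hc⟩ := (Algebra.IsCentral.mem_center_iff K).1 h1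
    have h2 : (σ ^ j) (Pi.single i 1) i * (σ ^ j) (Pi.single i 1) i =
        (σ ^ j) (Pi.single i 1) i := by
      rw [← Pi.mul_apply, ← map_mul, hes]; simp
    rw [hc, ← map_mul] at h2
    have h3 : c * c = c := (algebraMap K (Module.End K (V i))).injective h2
    rcases (IsIdempotentElem.iff_eq_zero_or_one).1 h3 with h | h
    · left; rw [hc, h, map_zero]
    · right; rw [hc, h, map_one]
  have hτm : ∀ i x y, τ i (x * y) = τ i x * τ i y := fun i x y => by
    rw [hτ, hτ, hτ, Pi.single_mul, map_mul, Pi.mul_apply]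
  have hNN : ∀ i, NN ψ (LinearMap.trace K _ (τ i)) := by
    intro i
    rcases h01 1 i with h | h
    · have : τ i = 0 := LinearMap.ext fun x => by
        rw [← one_mul x, hτm, hτ i 1]
        simp only [pow_one] at h
        rw [h, zero_mul, LinearMap.zero_apply]
      exact ⟨0, by simp [this], by simp⟩
    · simp only [pow_one] at h
      have hfix : σ (Pi.single i 1) = Pi.single i 1 := by
        have h1 : Pi.single i 1 * σ (Pi.single i 1) = Pi.single i 1 := by rw [hes, h]
        have h2 := congrArg (σ ^ M) h1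
        rw [map_mul, ← AlgHom.mul_apply, ← pow_succ, hσ, AlgHom.one_apply, ← hec, hes] at h2
        have h3 : σ ((σ ^ M) (Pi.single i 1)) = Pi.single i 1 := by
          rw [← AlgHom.mul_apply, ← pow_succ', hσ, AlgHom.one_apply]
        rcases h01 M i with h4 | h4
        · rw [← h2, h4, Pi.single_zero, map_zero] at h3
          have := congrFun h3 i
          simp at this
        · rwa [← h2, h4] at h3
      have hblk : ∀ x, σ (Pi.single i x) = Pi.single i (τ i x) := fun x => by
        rw [hτ, ← hes, ← hfix, ← map_mul, hes, Pi.single_eq_same]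
      let τ' := AlgHom.ofLinearMap (τ i) h (hτm i)
      have hpow : ∀ (j : ℕ) x, (σ ^ j) (Pi.single i x) = Pi.single i ((τ' ^ j) x) := by
        intro j
        induction j with
        | zero => simp
        | succ j ih =>
          intro x
          rw [pow_succ', pow_succ', AlgHom.mul_apply, AlgHom.mul_apply, ih, hblk]
          rfl
      refine trace_aut_NN ψ τ' (M := M) (AlgHom.ext fun x => ?_)
      have := congrFun (hpow (M + 1) x) i
      simpa [hσ] using this.symm
  obtain ⟨i, hi⟩ : ∃ i, ε (Pi.single i 1) ≠ 0 := by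
    by_contra hcon
    push Not at hcon
    have := congrArg ε (Finset.univ_sum_single (1 : Π i, Module.End K (V i)))
    simp [map_sum, hcon] at this
  have hi1 : ε (Pi.single i 1) = 1 := by
    refine mul_left_cancel₀ hi ?_
    rw [← map_mul, hes, mul_one, Pi.single_eq_same]
  let ε' : Module.End K (V i) →+* K :=
    { toFun := fun x => ε (Pi.single i x)
      map_one' := hi1
      map_mul' := fun x y => by rw [Pi.single_mul, map_mul]
      map_zero' := by simp
      map_add' := fun x y => by rw [Pi.single_add, map_add] }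
  have hid : τ i = LinearMap.id := LinearMap.ext fun x => ε'.injective (by
    change ε (Pi.single i (τ i x)) = ε (Pi.single i x)
    rw [hτ, ← hes, map_mul, hi1, one_mul, hε])
  choose y hy hy' using hNN
  have hyi : y i = (Module.finrank K (Module.End K (V i)) : algebraicClosure ℚ K) :=
    Subtype.ext (by rw [hy, hid, LinearMap.trace_id]; simp)
  intro h0
  have h1 : ∑ j, y j = 0 := Subtype.ext (by simpa [hy, ← htr] using h0)
  have h2 : 0 < (ψ (∑ j, y j)).re := by
    rw [map_sum, Complex.re_sum]
    refine Finset.sum_pos' (fun j _ => hy' j) ⟨i, Finset.mem_univ _, ?_⟩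
    rw [hyi, map_natCast, Complex.natCast_re]
    exact Nat.cast_pos.2 Module.finrank_pos
  rw [h1] at h2
  simp at h2

theorem trace_aut_ne_zero {A : Type*} [Ring A] [Algebra K A] [FiniteDimensional K A]
    [IsSemisimpleRing A] (σ : A →ₐ[K] A) {M : ℕ} (hσ : σ ^ (M + 1) = 1)
    (ε : A →ₐ[K] K) (hε : ∀ a, ε (σ a) = ε a) : LinearMap.trace K _ σ.toLinearMap ≠ 0 := by
  obtain ⟨n, d, hd, ⟨e₀⟩⟩ := IsSemisimpleRing.exists_algEquiv_pi_matrix_of_isAlgClosed K A
  let e : A ≃ₐ[K] Π i, Module.End K (Fin (d i) → K) :=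
    e₀.trans (AlgEquiv.piCongrRight fun i => Matrix.toLinAlgEquiv')
  have : ∀ i, IsSimpleRing (Module.End K (Fin (d i) → K)) := fun i =>
    IsSimpleRing.of_ringEquiv (Matrix.toLinAlgEquiv' (R := K) (n := Fin (d i))).toRingEquiv
      inferInstance
  let σ' := e.toAlgHom.comp (σ.comp e.symm.toAlgHom)
  have hpow : ∀ (j : ℕ) x, (σ' ^ j) (e x) = e ((σ ^ j) x) := by
    intro j
    induction j with
    | zero => simp
    | succ j ih =>
      intro x
      rw [pow_succ', pow_succ', AlgHom.mul_apply, AlgHom.mul_apply, ih]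
      simp [σ']
  have := trace_pi_ne_zero (fun i => Fin (d i) → K) σ' (M := M) (AlgHom.ext fun x => by
    obtain ⟨x, rfl⟩ := e.surjective x
    rw [hpow, hσ]; rfl) (ε.comp e.symm.toAlgHom) (fun a => by simp [σ', hε])
  rwa [show σ'.toLinearMap = e.toLinearEquiv.conj σ.toLinearMap from rfl,
    LinearMap.trace_conj'] at this

end Pool.Agent.MP_57c94c_al.H65
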