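import Pool.Agent.MP_57c94c_al.H65.Integral
import Pool.Agent.MP_57c94c_al.H65.Pos
import Pool.Agent.MP_57c94c_al.H65.Par

/-!
# The Larson-Radford theorem and the main result
-/

namespace Pool.Agent.MP_57c94c_al.H65

open Coalgebra HopfAlgebra TensorProduct WithConv

variable {k H : Type*} [Field k] [Ring H] [HopfAlgebra k H]

lemma conv_apply {A : Type*} [Ring A] [Algebra k A] (f g : WithConv (H →ₗ[k] A)) (h : H) :
    (f * g) h = ∑ p ∈ cp k h, f p.1 * g p.2 :=
  (Coalgebra.Repr.arbitrary k h).convMul_apply f g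

lemma comul_antipode (h : H) :
    comul (R := k) (antipode k h) = ∑ p ∈ cp k h, antipode k p.2 ⊗ₜ[k] antipode k p.1 := by
  let a : WithConv (H →ₗ[k] H ⊗[k] H) := toConv ((TensorProduct.mk k H H).flip 1)
  let b : WithConv (H →ₗ[k] H ⊗[k] H) := toConv (TensorProduct.mk k H H 1)
  let a' : WithConv (H →ₗ[k] H ⊗[k] H) := toConv ((TensorProduct.mk k H H).flip 1 ∘ₗ antipode k)
  let b' : WithConv (H →ₗ[k] H ⊗[k] H) := toConv (TensorProduct.mk k H H 1 ∘ₗ antipode k)
  have h1 : a' * a = 1 := WithConv.ext (LinearMap.ext fun x => by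
    rw [conv_apply]
    simp [a, a', ← sum_tmul, cp_S_mul, Algebra.algebraMap_eq_smul_one, smul_tmul',
      Algebra.TensorProduct.one_def])
  have h2 : b' * b = 1 := WithConv.ext (LinearMap.ext fun x => by
    rw [conv_apply]
    simp [b, b', ← tmul_sum, cp_S_mul, Algebra.algebraMap_eq_smul_one, smul_tmul',
      Algebra.TensorProduct.one_def])
  have h3 : a * b = toConv (comul (R := k)) := WithConv.ext (LinearMap.ext fun x => by
    rw [conv_apply]
    simp [a, b, sum_cp])
  have h4 : b' * a' * toConv (comul (R := k)) = 1 := by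
    rw [← h3, mul_assoc, ← mul_assoc a', h1, one_mul, h2]
  have h5 := left_inv_eq_right_inv h4 LinearMap.comul_right_inv
  have h6 := congrArg (fun f : WithConv (H →ₗ[k] H ⊗[k] H) => f h) h5
  simp only [conv_apply] at h6
  simpa [a', b'] using h6.symm

lemma semisimple_of_integral {Λ : H} (hΛ : ∀ h, h * Λ = counit (R := k) h • Λ)
    (hΛ1 : counit (R := k) Λ = 1) : IsSemisimpleRing H := by
  refine { exists_isCompl := fun M' => ?_ }
  obtain ⟨g₀, hg₀⟩ := LinearMap.exists_extend
    (LinearMap.id : M'.restrictScalars k →ₗ[k] M'.restrictScalars k)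
  let ρ : H →ₐ[k] Module.End k H := Algebra.lmul k H
  let p := avg ρ ρ Λ ((M'.restrictScalars k).subtype ∘ₗ g₀)
  let q : H →ₗ[H] M' :=
    { toFun := fun m => ⟨p m, by
        rw [avg_apply]
        exact Submodule.sum_mem _ fun r _ => M'.smul_mem r.1 (g₀ _).2⟩
      map_add' := fun a b => Subtype.ext (map_add p a b)
      map_smul' := fun a m => Subtype.ext (avg_equiv ρ ρ hΛ _ a m).symm }
  refine ⟨_, LinearMap.isCompl_of_proj (f := q) fun m => Subtype.ext ?_⟩
  change p m = m
  have h0 : ∀ w ∈ M', ((M'.restrictScalars k).subtype ∘ₗ g₀) w = w := fun w hw =>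
    congrArg Subtype.val (LinearMap.congr_fun hg₀ ⟨w, hw⟩)
  rw [avg_apply, Finset.sum_congr rfl fun r _ => by
    rw [h0 (ρ (antipode k r.2) m) (M'.smul_mem _ m.2)], sum_act_S, hΛ1, one_smul]

lemma tau_conv [FiniteDimensional k H] (h : H) :
    ∑ p ∈ cp k h, tau k H p.1 * tau k H p.2 = Module.finrank k H * tau k H h := by
  let can : Module.End k (H ⊗[k] H) := TensorProduct.lift (LinearMap.mk₂ k
    (fun a b => comul (R := k) a * (1 ⊗ₜ b)) (by intros; simp [add_mul]) (by intros; simp)
    (by intros; simp [tmul_add, mul_add]) (by intros; simp))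
  have hcan : ∀ a b, can (a ⊗ₜ b) = comul (R := k) a * (1 ⊗ₜ b) := fun a b => rfl
  let can' : Module.End k (H ⊗[k] H) := TensorProduct.lift (LinearMap.mk₂ k
    (fun a b => LinearMap.lTensor H (antipode k) (comul (R := k) a) * (1 ⊗ₜ b))
    (by intros; simp [add_mul]) (by intros; simp)
    (by intros; simp [tmul_add, mul_add]) (by intros; simp))
  have hcan' : ∀ a b, can' (a ⊗ₜ b) = ∑ p ∈ cp k a, p.1 ⊗ₜ (antipode k p.2 * b) := fun a b => by
    change LinearMap.lTensor H (antipode k) (comul (R := k) a) * (1 ⊗ₜ b) = _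
    rw [← sum_cp k a, map_sum, Finset.sum_mul]
    simp
  have h1 : can * can' = 1 := TensorProduct.ext' fun a b => by
    have := cp_cancel_right (M := H ⊗[k] H)
      ((TensorProduct.mk k H H).compl₂ (LinearMap.mulRight k b))
      ((LinearMap.mul k H).compl₂ (antipode k)) 1 (by simpa using cp_mul_S) a
    rw [Module.End.mul_apply, hcan', map_sum]
    simp only [hcan, ← sum_cp, Finset.sum_mul]
    simpa [mul_assoc] using this
  have h2 : can' * can = 1 := mul_eq_one_comm.1 h1
  have h3 : ∑ p ∈ cp k h, TensorProduct.map (LinearMap.mul k H p.1) (LinearMap.mul k H p.2) =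
      LinearMap.mulLeft k (comul (R := k) h) := TensorProduct.ext' fun a b => by
    rw [← sum_cp k h]
    simp [Finset.sum_mul]
  have h4 : LinearMap.mulLeft k (comul (R := k) h) * can =
      can * TensorProduct.map (LinearMap.mul k H h) LinearMap.id :=
    TensorProduct.ext' fun a b => by simp [hcan, mul_assoc]
  simp only [tau_apply, ← LinearMap.trace_tensorProduct']
  rw [← map_sum, h3, ← mul_one (LinearMap.mulLeft k (comul (R := k) h)), ← h1, ← mul_assoc, h4,
    LinearMap.trace_mul_cycle, h2, one_mul, LinearMap.trace_tensorProduct', LinearMap.trace_id,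
    mul_comm]

lemma idem_trace {V : Type*} [AddCommGroup V] [Module k V] [FiniteDimensional k V]
    {e : Module.End k V} (he : e * e = e) : ∃ m : ℕ, LinearMap.trace k V e = m :=
  ⟨_, (LinearMap.IsIdempotentElem.isProj_range e he).trace⟩

lemma eq_one_of_trace [CharZero k] {V : Type*} [AddCommGroup V] [Module k V]
    [FiniteDimensional k V] {σ P : Module.End k V} (hσ : σ * σ = 1) (hP : P * P = P)
    (hc : σ * P = P * σ) (h0 : LinearMap.trace k V σ ≠ 0) {v : V} (hv : v ≠ 0) (hσv : σ v = v)
    (htr : LinearMap.trace k V σ = Module.finrank k V * LinearMap.trace k V (P * σ)) :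
    σ = 1 := by
  have key : ∀ (Q τ : Module.End k V), τ * τ = 1 → Q * Q = Q → τ * Q = Q * τ →
      ((2 : k)⁻¹ • (Q + Q * τ)) * ((2 : k)⁻¹ • (Q + Q * τ)) = (2 : k)⁻¹ • (Q + Q * τ) := by
    intro Q τ h1 h2 h3
    have : (Q + Q * τ) * (Q + Q * τ) = (2 : k) • (Q + Q * τ) := by
      have e1 : Q * τ * Q = Q * τ := by rw [mul_assoc, h3, ← mul_assoc, h2]
      rw [add_mul, mul_add, mul_add, ← mul_assoc, ← mul_assoc, e1, h2, mul_assoc, h1, mul_one,
        two_smul]
      abel
    rw [smul_mul_smul_comm, this, smul_smul]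
    norm_num
  have hσ' : -σ * -σ = 1 := by simpa using hσ
  obtain ⟨a, ha⟩ := idem_trace (key P σ hσ hP hc)
  obtain ⟨b, hb⟩ := idem_trace (key P (-σ) hσ' hP (by simpa using hc))
  have kc := key 1 σ hσ (one_mul 1) (by simp)
  have kd := key 1 (-σ) hσ' (one_mul 1) (by simp)
  obtain ⟨c, hc'⟩ := idem_trace kc
  obtain ⟨d, hd⟩ := idem_trace kd
  have hc0 : c ≠ 0 := by
    rintro rfl
    have := (LinearMap.IsIdempotentElem.trace_eq_zero_iff kc).1 (by simpa using hc')
    have h2 := LinearMap.congr_fun this v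
    simp only [one_mul, LinearMap.smul_apply, LinearMap.add_apply, Module.End.one_apply, hσv,
      LinearMap.zero_apply, ← two_smul k v, smul_smul] at h2
    rw [inv_mul_cancel₀ two_ne_zero, one_smul] at h2
    exact hv h2
  have hd' := hd
  simp only [mul_neg, one_mul, map_smul, map_add, map_neg, LinearMap.trace_one,
    smul_eq_mul] at ha hb hc' hd'
  set n := Module.finrank k V
  have e1 : (c : ℤ) + d = n := by
    have : ((c : ℤ) + d : ℤ) = ((n : ℤ) : k) := by
      push_cast
      linear_combination -hc' - hd'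
    exact_mod_cast this
  have e2 : (c : ℤ) - d = n * (a - b) := by
    have : ((c : ℤ) - d : ℤ) = ((n * (a - b) : ℤ) : k) := by
      push_cast
      linear_combination -hc' + hd' + htr + (n : k) * ha - (n : k) * hb
    exact_mod_cast this
  have e3 : (c : ℤ) - d ≠ 0 := by
    intro h
    apply h0
    have : ((c : ℤ) - d : ℤ) = ((0 : ℤ) : k) := by rw [h]
    push_cast at this
    linear_combination hc' - hd' + this
  have hd0 : d = 0 := by
    rcases lt_trichotomy ((a : ℤ) - b) 0 with h | h | h
    · nlinarith [Nat.pos_of_ne_zero hc0]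
    · rw [h, mul_zero] at e2; exact absurd e2 e3
    · nlinarith
  have := (LinearMap.IsIdempotentElem.trace_eq_zero_iff kd).1 (by rw [hd, hd0, Nat.cast_zero])
  rw [smul_eq_zero, one_mul] at this
  exact (add_neg_eq_zero.1 (this.resolve_left (by norm_num))).symm

theorem invol_of_algClosed [CharZero k] [IsAlgClosed k] {Λ : H}
    (hl : ∀ h, h * Λ = counit (R := k) h • Λ) (hr : ∀ h, Λ * h = counit (R := k) h • Λ)
    (h1 : counit (R := k) Λ = 1) (h : H) : antipode k (antipode k h) = h := by
  have := finite_of_integral hr h1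
  have := semisimple_of_integral hl h1
  have : Nontrivial H := ⟨Λ, 0, fun h => by simp [h] at h1⟩
  obtain ⟨lam, g, hg, hL2, hS4, htr⟩ := exists_lam hl hr h1
  let σ : H →ₐ[k] H := AlgHom.ofLinearMap (antipode k ∘ₗ antipode k) (by simp)
    (by intros; simp [antipode_mul_antidistrib])
  have hσ : ∀ x, σ x = antipode k (antipode k x) := fun x => rfl
  have : Finite (GroupLike k H) := linearIndep_groupLikeVal.finite_of_isNoetherian
  obtain ⟨N, hN, hgN⟩ := (isOfFinOrder_of_finite (⟨g, hg⟩ : GroupLike k H)).exists_pow_eq_one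
  have hgN' : g ^ N = 1 := congrArg GroupLike.val hgN
  have hpow : ∀ (j : ℕ) b, g ^ j * b = (σ ^ (2 * j)) b * g ^ j := by
    intro j
    induction j with
    | zero => simp
    | succ j ih =>
      intro b
      rw [pow_succ' g, mul_assoc, ih, ← mul_assoc, hS4, mul_assoc, mul_add, add_comm, pow_add,
        AlgHom.mul_apply, mul_one, pow_two, AlgHom.mul_apply, hσ, hσ]
  have hσN : σ ^ (2 * N - 1 + 1) = 1 := AlgHom.ext fun b => by
    have := hpow N b
    rw [hgN', one_mul, mul_one] at this
    rw [show 2 * N - 1 + 1 = 2 * N by omega, ← this, AlgHom.one_apply]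
  have hne := trace_aut_ne_zero σ hσN (Bialgebra.counitAlgHom k H) fun a => by simp [hσ]
  have htr1 : LinearMap.trace k H σ.toLinearMap = lam 1 := by
    refine (htr (antipode k)).trans ?_
    rw [← map_sum, cp_mul_S, h1, one_smul]
  have hg1 : g = 1 := by
    have := hL2 1
    have h2 := cp_one (bL lam)
    simp only [bL_apply] at h2
    rw [h2] at this
    exact (smul_right_injective H (htr1 ▸ hne) this).symm
  have hσ2 : ∀ b, σ (σ b) = b := fun b => by simpa [hg1, hσ] using (hS4 b).symm
  let Q : Module.End k H := TensorProduct.lift (bL (tau k H)) ∘ₗ comul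
  have hQ : ∀ x, Q x = ∑ p ∈ cp k x, tau k H p.2 • p.1 := fun x => (sum_cp_lift _ x).symm
  have hQQ : Q * Q = (Module.finrank k H : k) • Q := LinearMap.ext fun x => by
    have e1 := co3_right (tau k H) (bL (tau k H)) x
    simp only [bL_apply] at e1
    rw [Module.End.mul_apply, hQ x, map_sum, LinearMap.smul_apply, hQ, Finset.smul_sum]
    simp only [map_smul]
    simp only [hQ, Finset.smul_sum]
    rw [e1]
    refine Finset.sum_congr rfl fun p _ => ?_
    simp only [smul_smul, ← Finset.sum_smul]
    rw [← tau_conv]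
    exact congrArg (· • p.1) (Finset.sum_congr rfl fun q _ => mul_comm _ _)
  have hτσ : ∀ x, tau k H (σ x) = tau k H x := fun x => by
    have : LinearMap.mul k H (σ x) = σ.toLinearMap * LinearMap.mul k H x * σ.toLinearMap := by
      ext y; simp [hσ2]
    have h2 : σ.toLinearMap * σ.toLinearMap = 1 := LinearMap.ext hσ2
    rw [tau_apply, this, LinearMap.trace_mul_cycle, h2, one_mul, tau_apply]
  have hcσ : ∀ x, comul (R := k) (σ x) = ∑ p ∈ cp k x, σ p.1 ⊗ₜ[k] σ p.2 := fun x => by
    have e1 := sum_cp_lift ((TensorProduct.mk k H H).flip.compl₁₂ (antipode k) (antipode k))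
      (antipode k x)
    rw [comul_antipode x, map_sum] at e1
    rw [hσ, comul_antipode]
    simpa [hσ] using e1
  have hσQ : σ.toLinearMap * Q = Q * σ.toLinearMap := LinearMap.ext fun x => by
    change σ (Q x) = TensorProduct.lift (bL (tau k H)) (comul (σ x))
    rw [hQ, hcσ, map_sum, map_sum]
    simp [hτσ]
  have hτΛ : tau k H Λ = 1 := by
    have : LinearMap.mul k H Λ = (counit (R := k)).smulRight Λ := by ext y; simp [hr]
    rw [tau_apply, this, LinearMap.trace_smulRight, h1]
  have htr2 : LinearMap.trace k H (Q * σ.toLinearMap) = lam 1 := by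
    have e1 : LinearMap.trace k H (Q * σ.toLinearMap) =
        LinearMap.trace k H ((antipode k ∘ₗ Q) ∘ₗ antipode k) :=
      (LinearMap.trace_mul_comm k Q σ.toLinearMap).trans
        (LinearMap.trace_mul_cycle k (antipode k) Q (antipode k)).symm
    have e2 := co3_right (tau k H) (((LinearMap.mul k H).compl₂ (antipode k)).compr₂ lam) Λ
    simp only [LinearMap.compr₂_apply, LinearMap.compl₂_apply, LinearMap.mul_apply'] at e2
    have e3 := cp_counit_left (tau k H) Λ
    rw [e1, htr]
    simp only [LinearMap.comp_apply, hQ, map_sum, map_smul, Finset.mul_sum, mul_smul_comm]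
    rw [← e2]
    simp only [← Finset.smul_sum, ← map_sum, cp_mul_S, map_smul, smul_smul, ← Finset.sum_smul,
      mul_comm (tau k H _)]
    simp only [smul_eq_mul] at e3
    rw [e3, hτΛ, one_smul]
  have hn : (Module.finrank k H : k) ≠ 0 := Nat.cast_ne_zero.2 Module.finrank_pos.ne'
  have := eq_one_of_trace (σ := σ.toLinearMap) (P := (Module.finrank k H : k)⁻¹ • Q)
    (LinearMap.ext hσ2) (by rw [smul_mul_smul_comm, hQQ, smul_smul]; field_simp)
    (by rw [mul_smul_comm, hσQ, smul_mul_assoc]) hne one_ne_zero (map_one σ)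
    (by rw [smul_mul_assoc, map_smul, htr2, htr1, smul_eq_mul]; field_simp)
  exact LinearMap.congr_fun this h

theorem invol_of_integral [CharZero k] {Λ : H}
    (hl : ∀ h, h * Λ = counit (R := k) h • Λ) (hr : ∀ h, Λ * h = counit (R := k) h • Λ)
    (h1 : counit (R := k) Λ = 1) (h : H) : antipode k (antipode k h) = h := by
  let K := AlgebraicClosure k
  have := invol_of_algClosed (k := K) (H := K ⊗[k] H) (Λ := 1 ⊗ₜ Λ) (fun x => by
    induction x with
    | zero => simp
    | tmul c x => simp [hl, smul_tmul']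
    | add x y hx hy => rw [add_mul, hx, hy, map_add, add_smul]) (fun x => by
    induction x with
    | zero => simp
    | tmul c x => simp [hr, smul_tmul']
    | add x y hx hy => rw [mul_add, hx, hy, map_add, add_smul]) (by simp [h1]) (1 ⊗ₜ h)
  exact Algebra.TensorProduct.includeRight_injective (algebraMap k K).injective
    (by simpa using this)

theorem hpar_of_semisimple (k H : Type*) [Field k] [CharZero k] [Ring H] [HopfAlgebra k H]
    [IsSemisimpleRing H] : Module.Finite k (HPar k H) ∧ IsSemisimpleRing (HPar k H) := by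
  obtain ⟨Λ, hl, hr, h1⟩ := exists_integral k H
  have := finite_of_integral hr h1
  exact hpar_of_invol (invol_of_integral hl hr h1) hl h1

end Pool.Agent.MP_57c94c_al.H65
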