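import Pool.Agent.MP_57c94c_al.H65.Finite

/-!
# Trace forms, Casimir elements and rigidity of central idempotents
-/

namespace Pool.Agent.MP_57c94c_al.H65

open Coalgebra HopfAlgebra TensorProduct

variable {k H A : Type*} [Field k] [Ring H] [HopfAlgebra k H] [Ring A] [Algebra k A]

/-- The regular trace. -/
noncomputable def tau (k A : Type*) [Field k] [Ring A] [Algebra k A] : A →ₗ[k] k :=
  LinearMap.trace k A ∘ₗ LinearMap.mul k A

lemma tau_apply (a : A) : tau k A a = LinearMap.trace k A (LinearMap.mul k A a) := rfl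

lemma lmul_mul (a b : A) :
    LinearMap.mul k A (a * b) = LinearMap.mul k A a * LinearMap.mul k A b := by
  ext; simp [mul_assoc]

lemma tau_comm (a b : A) : tau k A (a * b) = tau k A (b * a) := by
  rw [tau_apply, tau_apply, lmul_mul, lmul_mul, LinearMap.trace_mul_comm]

lemma tau_nil {a : A} (ha : IsNilpotent a) : tau k A a = 0 :=
  (LinearMap.isNilpotent_trace_of_isNilpotent (ha.map (Algebra.lmul k A))).eq_zero

lemma tau_act (hS : ∀ h : H, antipode k (antipode k h) = h) {ρ : H →ₐ[k] Module.End k A}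
    (hρ : IsMA ρ) (h : H) (a : A) : tau k A (ρ h a) = counit (R := k) h * tau k A a := by
  rw [tau_apply, tau_apply, ← trace_ad hS ρ]
  congr 1
  ext y
  simpa using hρ.c2 h a y

lemma tau_act_mul (hS : ∀ h : H, antipode k (antipode k h) = h) {ρ : H →ₐ[k] Module.End k A}
    (hρ : IsMA ρ) (h : H) (a b : A) :
    tau k A (ρ h a * b) = tau k A (a * ρ (antipode k h) b) := by
  rw [hρ.c2, map_sum]
  simp only [tau_act hS hρ]
  have := cp_counit_left (tau k A ∘ₗ LinearMap.mulLeft k a ∘ₗ LinearMap.applyₗ b ∘ₗ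
    ρ.toLinearMap ∘ₗ antipode k) h
  simpa using this

lemma rad_nil [CharZero k] [FiniteDimensional k A] {a : A} (ha : ∀ b, tau k A (a * b) = 0) :
    IsNilpotent a := by
  let T : Submodule k A := ⨅ b, LinearMap.ker (tau k A ∘ₗ LinearMap.mulRight k b)
  have hT : ∀ x, x ∈ T ↔ ∀ b, tau k A (x * b) = 0 := by intro x; simp [T]
  obtain ⟨n, hn⟩ := nil_of_trace (T.map (LinearMap.mul k A)) (by
    rintro _ ⟨x, hx, rfl⟩ _ ⟨y, -, rfl⟩
    exact ⟨x * y, (hT _).2 fun b => by rw [mul_assoc]; exact (hT x).1 hx _, lmul_mul x y⟩) (by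
    rintro _ ⟨x, hx, rfl⟩
    simpa [tau_apply] using (hT x).1 hx 1) ⟨a, (hT a).2 ha, rfl⟩
  refine ⟨n, ?_⟩
  have h1 : (Algebra.lmul k A) (a ^ n) = 0 := by rw [map_pow]; exact hn
  simpa using LinearMap.congr_fun h1 1

/-- An invariant separability element. -/
structure Cas (ρ : H →ₐ[k] Module.End k A) {n : ℕ} (x y : Fin n → A) : Prop where
  one : ∑ i, x i * y i = 1
  mul : ∀ b, ∑ i, (b * x i) ⊗ₜ[k] y i = ∑ i, x i ⊗ₜ[k] (y i * b)
  act : ∀ h, ∑ i, ρ (antipode k h) (x i) ⊗ₜ[k] y i = ∑ i, x i ⊗ₜ[k] ρ h (y i)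

lemma Cas.mul' {ρ : H →ₐ[k] Module.End k A} {n : ℕ} {x y : Fin n → A} (hc : Cas ρ x y)
    {M : Type*} [AddCommGroup M] [Module k M] (γ : A →ₗ[k] A →ₗ[k] M) (b : A) :
    ∑ i, γ (b * x i) (y i) = ∑ i, γ (x i) (y i * b) := by
  simpa [map_sum] using congrArg (TensorProduct.lift γ) (hc.mul b)

lemma Cas.act' {ρ : H →ₐ[k] Module.End k A} {n : ℕ} {x y : Fin n → A} (hc : Cas ρ x y)
    {M : Type*} [AddCommGroup M] [Module k M] (γ : A →ₗ[k] A →ₗ[k] M) (h : H) :
    ∑ i, γ (ρ (antipode k h) (x i)) (y i) = ∑ i, γ (x i) (ρ h (y i)) := by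
  simpa [map_sum] using congrArg (TensorProduct.lift γ) (hc.act h)

lemma exists_cas [FiniteDimensional k A] (hS : ∀ h : H, antipode k (antipode k h) = h)
    {ρ : H →ₐ[k] Module.End k A} (hρ : IsMA ρ)
    (hA : ∀ a : A, (∀ b, tau k A (a * b) = 0) → a = 0) :
    ∃ (n : ℕ) (x y : Fin n → A), Cas ρ x y := by
  classical
  let β : LinearMap.BilinForm k A := (LinearMap.mul k A).compr₂ (tau k A)
  have hβ : ∀ a b, β a b = tau k A (a * b) := fun a b => rfl
  have hnd : β.Nondegenerate := ⟨hA, fun b hb => hA b fun a => by rw [tau_comm]; exact hb a⟩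
  let y := Module.finBasis k A
  let x := β.dualBasis hnd y
  have hx : ∀ a, ∑ i, β a (y i) • x i = a := fun a => by
    conv_rhs => rw [← x.sum_repr a]
    simp [x]
  have hy : ∀ a, ∑ i, β (x i) a • y i = a := fun a => by
    conv_rhs => rw [← y.sum_repr a]
    refine Finset.sum_congr rfl fun i _ => ?_
    congr 1
    conv_lhs => rw [← y.sum_repr a]
    simp only [x, map_sum, map_smul, LinearMap.BilinForm.apply_dualBasis_left]
    simp
  have htr : ∀ f g : A → A, (∀ a b, β (f a) b = β a (g b)) →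
      ∑ i, f (x i) ⊗ₜ[k] y i = ∑ i, x i ⊗ₜ[k] g (y i) := by
    intro f g hfg
    calc ∑ i, f (x i) ⊗ₜ[k] y i = ∑ i, ∑ j, β (x i) (g (y j)) • (x j ⊗ₜ[k] y i) := by
          refine Finset.sum_congr rfl fun i _ => ?_
          conv_lhs => rw [← hx (f (x i)), sum_tmul]
          simp only [hfg, smul_tmul']
      _ = ∑ j, x j ⊗ₜ[k] g (y j) := by
          rw [Finset.sum_comm]
          refine Finset.sum_congr rfl fun j _ => ?_
          conv_rhs => rw [← hy (g (y j)), tmul_sum]
          simp only [tmul_smul]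
  refine ⟨_, x, y, ?_, fun b => htr (fun a => b * a) (fun a => a * b) fun a c => ?_,
    fun h => htr _ _ fun a c => ?_⟩
  · rw [← sub_eq_zero]
    refine hA _ fun a => ?_
    rw [sub_mul, map_sub, one_mul, Finset.sum_mul, map_sum, sub_eq_zero, tau_apply a,
      LinearMap.trace_eq_matrix_trace k x, Matrix.trace]
    refine Finset.sum_congr rfl fun i _ => ?_
    rw [tau_comm, ← mul_assoc, ← hβ]
    simp [LinearMap.toMatrix_apply, x]
  · rw [hβ, hβ, mul_assoc, tau_comm, mul_assoc]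
  · rw [hβ, hβ, tau_act_mul hS hρ, hS]

lemma exists_act_of_surj {A' : Type*} [Ring A'] [Algebra k A'] {ρ : H →ₐ[k] Module.End k A}
    (hρ : IsMA ρ) (π : A →ₐ[k] A') (hπ : Function.Surjective π)
    (hker : ∀ h a, π a = 0 → π (ρ h a) = 0) :
    ∃ ρ' : H →ₐ[k] Module.End k A', IsMA ρ' ∧ ∀ h a, ρ' h (π a) = π (ρ h a) := by
  choose f hf using fun h => exists_factor π.toLinearMap (π.toLinearMap ∘ₗ ρ h) hπ (hker h)
  have hf' : ∀ h a, f h (π a) = π (ρ h a) := hf
  have hext : ∀ g g' : A' →ₗ[k] A', (∀ a, g (π a) = g' (π a)) → g = g' := fun g g' h =>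
    LinearMap.ext fun a => by obtain ⟨a, rfl⟩ := hπ a; exact h a
  refine ⟨AlgHom.ofLinearMap
    { toFun := f
      map_add' := fun a b => hext _ _ fun c => by simp [hf']
      map_smul' := fun a b => hext _ _ fun c => by simp [hf'] }
    (hext _ _ fun c => by simp [hf']) (fun a b => hext _ _ fun c => by simp [hf']), ⟨?_, ?_⟩, hf'⟩
  · intro h a b
    obtain ⟨a, rfl⟩ := hπ a
    obtain ⟨b, rfl⟩ := hπ b
    change f h _ = ∑ p ∈ cp k h, f p.1 _ * f p.2 _
    simp only [← map_mul, hf', hρ.mul, map_sum]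
  · intro h
    change f h _ = _
    rw [← map_one π, hf', hρ.one, map_smul]

lemma ker_le_sq {A' : Type*} [Ring A'] [Algebra k A'] {ρ : H →ₐ[k] Module.End k A}
    {ρ' : H →ₐ[k] Module.End k A'} (hρ : IsMA ρ) (hρ' : IsMA ρ') {Λ : H}
    (hΛ : ∀ h, h * Λ = counit (R := k) h • Λ) (hΛ1 : counit (R := k) Λ = 1)
    (π : A →ₐ[k] A') (hπ : Function.Surjective π) (heq : ∀ h a, ρ' h (π a) = π (ρ h a))
    {n : ℕ} {x y : Fin n → A'} (hc : Cas ρ' x y) {t : A} (ht : t * t = t)
    (htc : ∀ a, t * a = a * t) (hgen : ∀ S : Subalgebra k A, (∀ h, ρ h t ∈ S) → S = ⊤) :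
    LinearMap.ker π.toLinearMap ≤ LinearMap.ker π.toLinearMap * LinearMap.ker π.toLinearMap := by
  set J := LinearMap.ker π.toLinearMap with hJ
  have hJm : ∀ a, a ∈ J ↔ π a = 0 := fun a => Iff.rfl
  have hl : ∀ a, ∀ j ∈ J * J, a * j ∈ J * J := by
    intro a j hj
    refine Submodule.mul_induction_on hj (fun u hu v hv => ?_) (fun u v hu hv => ?_)
    · rw [← mul_assoc]
      exact Submodule.mul_mem_mul (by rw [hJm] at hu ⊢; simp [hu]) hv
    · rw [mul_add]; exact add_mem hu hv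
  have hr : ∀ a, ∀ j ∈ J * J, j * a ∈ J * J := by
    intro a j hj
    refine Submodule.mul_induction_on hj (fun u hu v hv => ?_) (fun u v hu hv => ?_)
    · rw [mul_assoc]
      exact Submodule.mul_mem_mul hu (by rw [hJm] at hv ⊢; simp [hv])
    · rw [add_mul]; exact add_mem hu hv
  have hst : ∀ h, ∀ j ∈ J * J, ρ h j ∈ J * J := by
    intro h j hj
    refine Submodule.mul_induction_on hj (fun u hu v hv => ?_) (fun u v hu hv => ?_)
    · rw [hρ.mul]
      refine Submodule.sum_mem _ fun p _ => Submodule.mul_mem_mul ?_ ?_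
      · rw [hJm] at hu ⊢; rw [← heq, hu, map_zero]
      · rw [hJm] at hv ⊢; rw [← heq, hv, map_zero]
    · rw [map_add]; exact add_mem hu hv
  have hJ2 : J * J ≤ J := Submodule.mul_le.2 fun u hu v _ => by rw [hJm] at hu ⊢; simp [hu]
  obtain ⟨s₀, hs₀⟩ := π.toLinearMap.exists_rightInverse_of_surjective
    (LinearMap.range_eq_top.2 hπ)
  have hs₀' : ∀ a, π (s₀ a) = a := fun a => LinearMap.congr_fun hs₀ a
  set s := avg ρ' ρ Λ s₀ with hs
  have hπs : ∀ a, π (s a) = a := fun a => by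
    rw [hs, avg_apply, map_sum]
    simp only [← heq, hs₀', sum_act_S, hΛ1, one_smul]
  have hse : ∀ h a, ρ h (s a) = s (ρ' h a) := avg_equiv ρ' ρ hΛ s₀
  let f : A' →ₗ[k] A' →ₗ[k] A := LinearMap.mk₂ k (fun a b => s a * s b - s (a * b))
    (by intros; simp only [map_add, add_mul]; abel) (by intros; simp [smul_sub])
    (by intros; simp only [map_add, mul_add]; abel) (by intros; simp [smul_sub])
  have hf : ∀ a b, f a b = s a * s b - s (a * b) := fun a b => rfl
  have hfJ : ∀ a b, f a b ∈ J := fun a b => by rw [hJm, hf]; simp [hπs]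
  let g : A' →ₗ[k] A := ∑ i, LinearMap.mulRight k (s (y i)) ∘ₗ f.flip (x i)
  have hg : ∀ a, g a = ∑ i, f a (x i) * s (y i) := fun a => by simp [g]
  have hgJ : ∀ a, g a ∈ J := fun a => by
    rw [hg]
    exact Submodule.sum_mem _ fun i _ => by rw [hJm, map_mul, (hJm _).1 (hfJ _ _), zero_mul]
  have hfe : ∀ h a b, f (ρ' h a) b = ∑ p ∈ cp k h, ρ p.1 (f a (ρ' (antipode k p.2) b)) := by
    intro h a b
    rw [hf, ← hse, hρ.c2, hρ'.c2, map_sum, ← Finset.sum_sub_distrib]
    simp only [hf, map_sub, hse]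
  have hge : ∀ h a, ρ h (g a) = g (ρ' h a) := by
    intro h a
    rw [hg, hg, map_sum]
    simp only [hfe, Finset.sum_mul, hρ.mul, hse]
    rw [Finset.sum_comm, Finset.sum_comm (s := Finset.univ)]
    refine Finset.sum_congr rfl fun p _ => ?_
    exact (hc.act' (((LinearMap.mul k A).compl₂ s) ∘ₗ ρ p.1 ∘ₗ f a) p.2).symm
  let s' : A' →ₗ[k] A := s - g
  have hs' : ∀ a, s' a = s a - g a := fun a => rfl
  have hπs' : ∀ a, π (s' a) = a := fun a => by
    rw [hs', map_sub, hπs, (hJm _).1 (hgJ a), sub_zero]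
  have hM : ∀ a b, s' a * s' b - s' (a * b) ∈ J * J := by
    intro a b
    have h1 : s a * g b - g (a * b) + ∑ i, f a (b * x i) * s (y i) =
        f a b * ∑ i, s (x i) * s (y i) := by
      rw [hg, hg, Finset.mul_sum, Finset.mul_sum, ← Finset.sum_sub_distrib,
        ← Finset.sum_add_distrib]
      refine Finset.sum_congr rfl fun i _ => ?_
      simp only [hf, mul_assoc a b]
      noncomm_ring
    have h2 : ∑ i, f a (b * x i) * s (y i) = ∑ i, f a (x i) * s (y i * b) :=
      hc.mul' (((LinearMap.mul k A).compl₂ s) ∘ₗ f a) b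
    have h3 : g a * s b - ∑ i, f a (x i) * s (y i * b) ∈ J * J := by
      rw [hg, Finset.sum_mul, ← Finset.sum_sub_distrib]
      refine Submodule.sum_mem _ fun i _ => ?_
      rw [mul_assoc, ← mul_sub]
      exact Submodule.mul_mem_mul (hfJ _ _) (hfJ _ _)
    have h4 : f a b * (1 - ∑ i, s (x i) * s (y i)) ∈ J * J := by
      refine Submodule.mul_mem_mul (hfJ _ _) ?_
      rw [hJm, map_sub, map_one, map_sum]
      simp only [map_mul, hπs, hc.one, sub_self]
    have h5 : s' a * s' b - s' (a * b) = f a b * (1 - ∑ i, s (x i) * s (y i))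
        - (g a * s b - ∑ i, f a (x i) * s (y i * b)) + g a * g b := by
      rw [mul_sub, mul_one, ← h1, h2, hs', hs', hs', hf]
      noncomm_ring
    rw [h5]
    exact add_mem (sub_mem h4 h3) (Submodule.mul_mem_mul (hgJ _) (hgJ _))
  have hidem : ∀ e : A, e * e = e → (∀ a, e * a = a * e) → e - s' (π e) ∈ J * J := by
    intro e he hec
    have hj : e - s' (π e) ∈ J := by rw [hJm, map_sub, hπs', sub_self]
    have h1 := hM (π e) (π e)
    rw [← map_mul π, he] at h1
    set j := e - s' (π e) with hjd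
    have h2 : s' (π e) = e - j := by rw [hjd, sub_sub_cancel]
    have h3 : j = (1 - 2 * e) * ((e - j) * (e - j) - (e - j) - j * j) := by
      have h4 : (e - j) * (e - j) - (e - j) - j * j = (1 - 2 * e) * j := by
        have : (e - j) * (e - j) = e * e - e * j - j * e + j * j := by noncomm_ring
        rw [this, he, ← hec j]; noncomm_ring
      have h5 : (1 - 2 * e) * (1 - 2 * e) = 1 := by
        have : (1 - 2 * e) * (1 - 2 * e) = 1 - 4 * e + 4 * (e * e) := by noncomm_ring
        rw [this, he]; noncomm_ring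
      rw [h4, ← mul_assoc, h5, one_mul]
    rw [h3]
    rw [h2] at h1
    exact hl _ _ (sub_mem h1 (Submodule.mul_mem_mul hj hj))
  let S : Subalgebra k A :=
    { carrier := {z | ∃ a, z - s' a ∈ J * J}
      mul_mem' := by
        rintro z w ⟨a, ha⟩ ⟨b, hb⟩
        refine ⟨a * b, ?_⟩
        have : z * w - s' (a * b) =
            (z - s' a) * w + s' a * (w - s' b) + (s' a * s' b - s' (a * b)) := by noncomm_ring
        rw [this]
        exact add_mem (add_mem (hr _ _ ha) (hl _ _ hb)) (hM a b)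
      add_mem' := by
        rintro z w ⟨a, ha⟩ ⟨b, hb⟩
        refine ⟨a + b, ?_⟩
        rw [map_add, add_sub_add_comm]
        exact add_mem ha hb
      algebraMap_mem' := fun c => by
        refine ⟨c • π 1, ?_⟩
        rw [Algebra.algebraMap_eq_smul_one, map_smul, ← smul_sub]
        exact Submodule.smul_mem _ c (hidem 1 (one_mul 1) (by simp)) }
  have hS : S = ⊤ := hgen S fun h => by
    refine ⟨ρ' h (π t), ?_⟩
    have := hst h _ (hidem t ht htc)
    rwa [map_sub, hs', map_sub, hse, hge] at this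
  intro j hj
  obtain ⟨a, ha⟩ : j ∈ S := hS ▸ Algebra.mem_top
  have h0 : a = 0 := by
    have := (hJm _).1 (hJ2 ha)
    rw [map_sub, hπs', (hJm j).1 hj] at this
    simpa using this
  simpa [h0] using ha

theorem nondeg_of_gen [CharZero k] [FiniteDimensional k A]
    (hS : ∀ h : H, antipode k (antipode k h) = h) {ρ : H →ₐ[k] Module.End k A} (hρ : IsMA ρ)
    {Λ : H} (hΛ : ∀ h, h * Λ = counit (R := k) h • Λ) (hΛ1 : counit (R := k) Λ = 1)
    {t : A} (ht : t * t = t) (htc : ∀ a, t * a = a * t)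
    (hgen : ∀ S : Subalgebra k A, (∀ h, ρ h t ∈ S) → S = ⊤) (a : A)
    (ha : ∀ b, tau k A (a * b) = 0) : a = 0 := by
  let T : Ideal A :=
    { carrier := {a | ∀ b, tau k A (a * b) = 0}
      add_mem' := fun ha hb c => by rw [add_mul, map_add, ha, hb, add_zero]
      zero_mem' := fun b => by simp
      smul_mem' := fun c a ha b => by
        rw [smul_eq_mul, mul_assoc, tau_comm, mul_assoc]; exact ha _ }
  have hT2 : T.IsTwoSided := ⟨fun b ha c => by rw [mul_assoc]; exact ha _⟩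
  let π : A →ₐ[k] A ⧸ T := Ideal.Quotient.mkₐ k T
  have hπ : Function.Surjective π := Ideal.Quotient.mkₐ_surjective k T
  have hπ0 : ∀ a, π a = 0 ↔ ∀ b, tau k A (a * b) = 0 := fun a => Ideal.Quotient.eq_zero_iff_mem
  obtain ⟨ρ', hρ', heq⟩ := exists_act_of_surj hρ π hπ fun h a ha => by
    rw [hπ0] at ha ⊢
    intro b
    rw [tau_act_mul hS hρ, ha]
  have : FiniteDimensional k (A ⧸ T) := Module.Finite.of_surjective π.toLinearMap hπ
  obtain ⟨n, x, y, hc⟩ := exists_cas hS hρ' fun a ha => by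
    obtain ⟨a, rfl⟩ := hπ a
    rw [hπ0]
    intro b
    obtain ⟨m, hm⟩ := rad_nil (k := k) (a := π (a * b)) fun c => by
      rw [map_mul π, mul_assoc]; exact ha _
    rw [← map_pow, hπ0] at hm
    exact tau_nil (rad_nil hm).of_pow
  have hle := ker_le_sq hρ hρ' hΛ hΛ1 π hπ heq hc ht htc hgen
  set J := LinearMap.ker π.toLinearMap with hJ
  have hJm : ∀ a, a ∈ J ↔ π a = 0 := fun a => Iff.rfl
  by_contra hne
  have : Nontrivial J := ⟨⟨a, (hπ0 a).2 ha⟩, 0, fun h => hne (congrArg Subtype.val h)⟩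
  let L : A →ₗ[k] Module.End k J :=
    { toFun := fun a => (LinearMap.mulLeft k a).restrict fun j hj => by
        rw [hJm] at hj ⊢; simp [hj]
      map_add' := fun a b => by ext; simp [add_mul]
      map_smul' := fun c a => by ext; simp }
  have hL : ∀ a j, (L a j : A) = a * j := fun a j => rfl
  have hLm : ∀ a b, L (a * b) = L a * L b := fun a b => by ext; simp [hL, mul_assoc]
  obtain ⟨_, ⟨b, hb, rfl⟩, hnil⟩ := exists_not_nilpotent (J.map L) (by
    rintro _ ⟨u, hu, rfl⟩ _ ⟨v, -, rfl⟩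
    refine ⟨u * v, ?_, hLm u v⟩
    change π (u * v) = 0
    rw [map_mul, (hJm u).1 hu, zero_mul]) (by
    intro W hW
    rw [eq_top_iff]
    rintro j -
    have : J * J ≤ W.map J.subtype := Submodule.mul_le.2 fun u hu v hv =>
      ⟨L u ⟨v, hv⟩, hW _ ⟨u, hu, rfl⟩ _, rfl⟩
    obtain ⟨j', hj', h⟩ := this (hle j.2)
    obtain rfl : j' = j := Subtype.ext h
    exact hj')
  obtain ⟨m, hm⟩ := rad_nil ((hπ0 b).1 hb)
  refine hnil ⟨m + 1, ?_⟩
  have : ∀ r : ℕ, L b ^ (r + 1) = L (b ^ (r + 1)) := by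
    intro r
    induction r with
    | zero => simp
    | succ r ih => rw [pow_succ, ih, ← hLm, ← pow_succ]
  rw [this, pow_succ, hm, zero_mul, map_zero]

end Pool.Agent.MP_57c94c_al.H65
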