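import Pool.Agent.MP_57c94c_al.H65.Basic

/-!
# Trace lemmas in characteristic zero
-/

namespace Pool.Agent.MP_57c94c_al.H65

open Coalgebra HopfAlgebra Polynomial

variable {k V : Type*} [Field k] [AddCommGroup V] [Module k V] [FiniteDimensional k V]

lemma nil_of_trace [CharZero k] (A : Submodule k (Module.End k V))
    (hmul : ∀ a ∈ A, ∀ b ∈ A, a * b ∈ A) (htr : ∀ a ∈ A, LinearMap.trace k V a = 0)
    {a : Module.End k V} (ha : a ∈ A) : IsNilpotent a := by
  have hw : ∀ w : k[X], a * aeval a w ∈ A := by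
    intro w
    induction w using Polynomial.induction_on with
    | C c => simpa [Algebra.algebraMap_eq_smul_one] using A.smul_mem c ha
    | add p q hp hq => simpa [mul_add] using A.add_mem hp hq
    | monomial n c ih =>
      have := hmul _ ih _ ha
      simpa [pow_succ, mul_assoc] using this
  have hint : IsIntegral k a := IsIntegral.of_finite k a
  have hp0 : minpoly k a ≠ 0 := minpoly.ne_zero hint
  obtain ⟨q, hq, hnd⟩ := exists_eq_pow_rootMultiplicity_mul_and_not_dvd (minpoly k a) hp0 0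
  simp only [C_0, sub_zero] at hq hnd
  set r := rootMultiplicity 0 (minpoly k a)
  have hcop : IsCoprime (X ^ (r + 1) : k[X]) q :=
    ((irreducible_X.coprime_iff_not_dvd).2 hnd).pow_left
  obtain ⟨u, v, huv⟩ := hcop
  have h0 : a ^ r * aeval a q = 0 := by
    have := minpoly.aeval k a
    rw [hq] at this
    simpa using this
  set e : Module.End k V := aeval a (u * X ^ (r + 1)) with he
  have h1 : a ^ (r + 1) * e = a ^ (r + 1) := by
    have h2 : (X : k[X]) ^ (r + 1) * (u * X ^ (r + 1)) + (X * v) * (X ^ r * q) = X ^ (r + 1) := by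
      linear_combination (X : k[X]) ^ (r + 1) * huv
    have h3 := congrArg (aeval a) h2
    rw [map_add, map_mul (aeval a) (X * v), map_mul (aeval a) (X ^ r), map_pow, aeval_X, h0,
      mul_zero, add_zero, map_mul, map_pow, aeval_X] at h3
    exact h3
  have hidem : IsIdempotentElem e := by
    have : e = aeval a u * a ^ (r + 1) := by simp [he]
    change e * e = e
    conv_lhs => rw [this, mul_assoc, ← this, h1]
    exact this.symm
  have heA : e ∈ A := by
    have : e = a * aeval a (u * X ^ r) := by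
      rw [he, show u * X ^ (r + 1) = X * (u * X ^ r) by ring, map_mul, aeval_X]
    rw [this]; exact hw _
  have he0 : e = 0 := (LinearMap.IsIdempotentElem.trace_eq_zero_iff hidem).1 (htr e heA)
  exact ⟨r + 1, by rw [← h1, he0, mul_zero]⟩

lemma exists_not_nilpotent [Nontrivial V] (A : Submodule k (Module.End k V))
    (hmul : ∀ a ∈ A, ∀ b ∈ A, a * b ∈ A)
    (hspan : ∀ W : Submodule k V, (∀ a ∈ A, ∀ v, a v ∈ W) → W = ⊤) :
    ∃ a ∈ A, ¬ IsNilpotent a := by
  by_contra hcon
  push Not at hcon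
  have hne : ({W : Submodule k V | W ≠ ⊤ ∧ ∀ a ∈ A, ∀ v ∈ W, a v ∈ W}).Nonempty :=
    ⟨⊥, bot_ne_top, by
      intro a _ v hv
      rw [Submodule.mem_bot] at hv ⊢
      rw [hv, map_zero]⟩
  obtain ⟨W, ⟨hW, hWs⟩, hmax⟩ := set_has_maximal_iff_noetherian.2 inferInstance _ hne
  have : ∃ a ∈ A, ∃ v, a v ∉ W := by
    by_contra h
    push Not at h
    exact hW (hspan W h)
  obtain ⟨a, ha, v, hv⟩ := this
  set W' : Submodule k V := W ⊔ A.map (LinearMap.applyₗ v) with hW'
  have hW's : ∀ b ∈ A, ∀ x ∈ W', b x ∈ W' := by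
    intro b hb x hx
    obtain ⟨w, hw, y, ⟨c, hc, rfl⟩, rfl⟩ := Submodule.mem_sup.1 hx
    rw [map_add]
    exact W'.add_mem (Submodule.mem_sup_left (hWs b hb w hw))
      (Submodule.mem_sup_right ⟨b * c, hmul b hb c hc, rfl⟩)
  have htop : W' = ⊤ := by
    by_contra hne'
    refine hmax W' ⟨hne', hW's⟩ (lt_of_le_of_ne le_sup_left ?_)
    intro hEq
    exact hv (hEq ▸ Submodule.mem_sup_right ⟨a, ha, rfl⟩)
  have hvW' : v ∈ W' := htop ▸ Submodule.mem_top
  obtain ⟨w, hw, y, ⟨c, hc, rfl⟩, hy⟩ := Submodule.mem_sup.1 hvW'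
  obtain ⟨n, hn⟩ := hcon c hc
  have hpow : ∀ m : ℕ, v - (c ^ m) v ∈ W := by
    intro m
    induction m with
    | zero => simp
    | succ m ih =>
      have h1 : v - (c ^ (m + 1)) v = w + c (v - (c ^ m) v) := by
        have : w = v - c v := eq_sub_of_add_eq hy
        rw [this, map_sub, pow_succ', Module.End.mul_apply]; abel
      rw [h1]
      exact W.add_mem hw (hWs c hc _ ih)
  have := hpow n
  rw [hn] at this
  exact hv (hWs a ha v (by simpa using this))

lemma exists_trace_ne_zero [CharZero k] [Nontrivial V] (A : Submodule k (Module.End k V))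
    (hmul : ∀ a ∈ A, ∀ b ∈ A, a * b ∈ A)
    (hspan : ∀ W : Submodule k V, (∀ a ∈ A, ∀ v, a v ∈ W) → W = ⊤) :
    ∃ a ∈ A, LinearMap.trace k V a ≠ 0 := by
  by_contra hcon
  push Not at hcon
  obtain ⟨a, ha, hn⟩ := exists_not_nilpotent A hmul hspan
  exact hn (nil_of_trace A hmul hcon ha)

variable {H : Type*} [Ring H] [HopfAlgebra k H]

omit [FiniteDimensional k V] in
lemma trace_ad (hS : ∀ h : H, antipode k (antipode k h) = h) (ρ : H →ₐ[k] Module.End k V)
    (f : Module.End k V) (h : H) :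
    LinearMap.trace k V (∑ p ∈ cp k h, ρ p.1 * f * ρ (antipode k p.2)) =
      counit (R := k) h * LinearMap.trace k V f := by
  rw [map_sum]
  have : ∀ p ∈ cp k h, LinearMap.trace k V (ρ p.1 * f * ρ (antipode k p.2)) =
      LinearMap.trace k V (ρ (antipode k p.2 * p.1) * f) := by
    intro p _
    rw [LinearMap.trace_mul_comm, ← mul_assoc, map_mul ρ]
  rw [Finset.sum_congr rfl this, ← map_sum, ← Finset.sum_mul, ← map_sum, cp_S_mul' hS]
  simp

end Pool.Agent.MP_57c94c_al.H65
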